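import Pool.Agent.Helper57.DS.LocFb

/-!
# DS-11: local weighted sums of zeros from the energy bound (project DS; helper57)

Integrate the pointwise bound of `Qboundg` over the window (adaptation of Helper78/SG/ExpMoment `big_part`).
-/

open MeasureTheory Set Filter Topology Complex
open Pool.Agent.Helper57.LH Pool.Agent.Helper57.Zeta

namespace Pool.Agent.Helper57.DS

theorem big_gen : ∃ D P0 : ℝ, 0 < D ∧ ∀ (P : ℝ) (H : ℂ → ℂ) (c W C : ℝ), P0 ≤ P → En P H c W C →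
    ∀ F : Finset ℂ, (∀ ρ ∈ F, xi ρ = 0 ∧ 1 / 2 ≤ ρ.re ∧ |ρ.im - c| ≤ W - 1) →
    ∑ ρ ∈ F, (analyticOrderNatAt xi ρ : ℝ) * Wt 9600 (Real.log P * (ρ.re - 1 / 2)) ≤ D * C * (W * Real.log P) := by
  classical
  have hCP := CPg_pos
  obtain ⟨P0, hP0, hQ⟩ := Qboundg
  refine ⟨1 + CPg, P0, by linarith, ?_⟩
  intro P H c W C hP hEn F hF
  obtain ⟨Ψ, hΨc, hΨ0, hΨi, hΨd⟩ := hQ hP hEn 9600 le_rfl
  have hL40 := log_T40 hEn.hP
  set L := Real.log P with hL
  have hL0 : 0 < L := by linarith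
  have hC := hEn.hC
  have hW := hEn.hW
  have hLi : 1 / L ≤ 1 := by rw [div_le_one hL0]; linarith
  have hLi0 : 0 < 1 / L := by positivity
  -- the local sums
  let a : ℂ → ℝ := fun ρ => (analyticOrderNatAt xi ρ : ℝ) * Wt 9600 (L * (ρ.re - 1 / 2))
  let Sf : ℝ → ℝ := fun τ => ∑ ρ ∈ F, (Icc (ρ.im - 1 / L) (ρ.im + 1 / L)).indicator (fun _ => a ρ) τ
  have ha0 : ∀ ρ, 0 ≤ a ρ := fun ρ => mul_nonneg (Nat.cast_nonneg _) (Wt_nonneg _ _)
  have hmem : ∀ (ρ : ℂ) (τ : ℝ), τ ∈ Icc (ρ.im - 1 / L) (ρ.im + 1 / L) ↔ L * |ρ.im - τ| ≤ 1 := by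
    intro ρ τ
    rw [mem_Icc, ← le_div_iff₀' hL0, abs_le]
    constructor
    · rintro ⟨h1, h2⟩
      constructor <;> linarith
    · rintro ⟨h1, h2⟩
      constructor <;> linarith
  have hSeq : ∀ τ, Sf τ = ∑ ρ ∈ F.filter (fun ρ : ℂ => L * |ρ.im - τ| ≤ 1),
      (analyticOrderNatAt xi ρ : ℝ) * Wt 9600 (L * (ρ.re - 1 / 2)) := by
    intro τ
    rw [Finset.sum_filter]
    refine Finset.sum_congr rfl fun ρ _ => ?_
    by_cases h : L * |ρ.im - τ| ≤ 1
    · rw [Set.indicator_of_mem ((hmem ρ τ).mpr h), if_pos h]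
    · rw [Set.indicator_of_notMem (fun h' => h ((hmem ρ τ).mp h')), if_neg h]
  have hSq : ∀ τ ∈ Icc (c - W) (c + W), Sf τ ^ 2 ≤ Ψ τ := by
    intro τ hτ
    rw [hSeq]
    apply hΨd τ hτ
    intro ρ hρ
    rw [Finset.mem_filter] at hρ
    exact ⟨(hF ρ hρ.1).1, (hF ρ hρ.1).2.1, hρ.2⟩
  have hsub : ∀ ρ ∈ F, Icc (ρ.im - 1 / L) (ρ.im + 1 / L) ⊆ Icc (c - W) (c + W) := by
    intro ρ hρ τ hτ
    have h1 := abs_le.mp (hF ρ hρ).2.2
    obtain ⟨h3, h4⟩ := hτ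
    constructor <;> linarith
  have hint : ∀ ρ ∈ F, IntegrableOn ((Icc (ρ.im - 1 / L) (ρ.im + 1 / L)).indicator (fun _ => a ρ)) (Icc (c - W) (c + W)) := by
    intro ρ _
    apply Integrable.indicator _ measurableSet_Icc
    exact iong continuous_const c W
  have hval : ∫ τ in Icc (c - W) (c + W), Sf τ = 2 / L * ∑ ρ ∈ F, a ρ := by
    change ∫ τ in Icc (c - W) (c + W), ∑ ρ ∈ F, (Icc (ρ.im - 1 / L) (ρ.im + 1 / L)).indicator (fun _ => a ρ) τ = _
    rw [integral_finsetSum _ hint, Finset.mul_sum]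
    refine Finset.sum_congr rfl fun ρ hρ => ?_
    rw [setIntegral_indicator measurableSet_Icc, Set.inter_eq_self_of_subset_right (hsub ρ hρ), setIntegral_const,
      Real.volume_real_Icc_of_le (by linarith), smul_eq_mul]
    ring
  have hSint : IntegrableOn Sf (Icc (c - W) (c + W)) := integrable_finsetSum _ hint
  have hle : ∫ τ in Icc (c - W) (c + W), Sf τ ≤ ∫ τ in Icc (c - W) (c + W), (1 / 2 * 1 + 1 / 2 * Ψ τ) := by
    apply setIntegral_mono_on hSint _ measurableSet_Icc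
    · intro τ hτ
      have h1 := hSq τ hτ
      nlinarith [sq_nonneg (Sf τ - 1)]
    · exact iong (by fun_prop) c W
  have hR : ∫ τ in Icc (c - W) (c + W), (1 / 2 * 1 + 1 / 2 * Ψ τ) =
      1 / 2 * (∫ _ in Icc (c - W) (c + W), (1:ℝ)) + 1 / 2 * ∫ τ in Icc (c - W) (c + W), Ψ τ := by
    rw [integral_add (iong (by fun_prop) c W) (iong (by fun_prop) c W), integral_const_mul, integral_const_mul]
  have hV := vol_g (c0 := c) hW hC
  have hCW : 0 < C * W := by positivity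
  have hB : 2 * CPg * (C * W / 9600 ^ 4) ≤ 2 * CPg * (C * W) := by
    apply mul_le_mul_of_nonneg_left _ (by positivity)
    exact div_le_self hCW.le (by norm_num)
  have hfin : 2 / L * ∑ ρ ∈ F, a ρ ≤ C * W + CPg * (C * W) := by
    rw [← hval]
    refine hle.trans ?_
    rw [hR]
    linarith
  change ∑ ρ ∈ F, a ρ ≤ (1 + CPg) * C * (W * L)
  have h1 : ∑ ρ ∈ F, a ρ = L / 2 * (2 / L * ∑ ρ ∈ F, a ρ) := by
    field_simp
  rw [h1]
  calc L / 2 * (2 / L * ∑ ρ ∈ F, a ρ) ≤ L / 2 * (C * W + CPg * (C * W)) := by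
        apply mul_le_mul_of_nonneg_left hfin (by positivity)
    _ ≤ (1 + CPg) * C * (W * L) := by
        have : 0 ≤ (1 + CPg) * C * (W * L) := by positivity
        nlinarith [this]

end Pool.Agent.Helper57.DS
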