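import Pool.Agent.Helper57.DS.HSe
import Pool.Agent.Helper57.DS.LocF
import Pool.Agent.Helper78.SG.ExpMoment

/-!
# DS-12: the exponential moment in short intervals (project DS; helper57)

For `1/2 < b < 1` put `P = x^(2b-1)`, `c = x + x^b/2`, `W = x^b/2 + 1`; the hypotheses `Hyp` hold for large `x` with
`A = 2/θ`, `θ = (b-1/2)/20`, `XT P = x^θ`. Then `en_HS`, `big_gen`, reflection, and the local count of the zeros.
-/

open MeasureTheory Set Filter Topology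
open Pool.Agent.Helper57.Zeta Pool.Agent.Helper57.PC Pool.Agent.Helper57.LH

namespace Pool.Agent.Helper57.DS

/-- Number of zeros in a short interval. -/
theorem count_short : ∃ C : ℝ, 0 < C ∧ ∀ x h : ℝ, 3 ≤ x → 1 ≤ h → h ≤ x →
    ∑ ρ ∈ (ZT (x + h)).filter (fun ρ : ZS => x ≤ (ρ : ℂ).im), mx ρ ≤ C * (h * Real.log x) := by
  classical
  refine ⟨10 * |CLA| + 1, by positivity, ?_⟩
  intro x h hx hh hhx
  set S := (ZT (x + h)).filter (fun ρ : ZS => x ≤ (ρ : ℂ).im) with hS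
  have hmem : ∀ ρ ∈ S, x ≤ (ρ : ℂ).im ∧ (ρ : ℂ).im ≤ x + h := by
    intro ρ hρ
    rw [hS, Finset.mem_filter, mem_ZT] at hρ
    exact ⟨hρ.2, hρ.1.2⟩
  have hmaps : ∀ ρ ∈ S, ⌊(ρ : ℂ).im - x⌋₊ ∈ Finset.range (⌊h⌋₊ + 1) := by
    intro ρ hρ
    obtain ⟨h1, h2⟩ := hmem ρ hρ
    rw [Finset.mem_range, Nat.lt_succ_iff]
    exact Nat.floor_le_floor (by linarith)
  rw [← Finset.sum_fiberwise_of_maps_to hmaps]
  have hlx : 1 ≤ Real.log x := by
    rw [Real.le_log_iff_exp_le (by linarith)]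
    have := Real.exp_one_lt_d9
    linarith
  have hl2 : Real.log (2 * x) ≤ 2 * Real.log x := by
    rw [Real.log_mul (by norm_num) (by linarith)]
    have h1 : Real.log 2 ≤ Real.log x := Real.log_le_log (by norm_num) (by linarith)
    linarith
  have hk : ∀ k ∈ Finset.range (⌊h⌋₊ + 1), ∑ ρ ∈ S.filter (fun ρ : ZS => ⌊(ρ : ℂ).im - x⌋₊ = k), mx ρ ≤ 5 * |CLA| * Real.log x := by
    intro k hk
    rw [Finset.mem_range, Nat.lt_succ_iff] at hk
    have hkh : (k:ℝ) ≤ h := by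
      have h1 : (k:ℝ) ≤ ⌊h⌋₊ := by exact_mod_cast hk
      exact h1.trans (Nat.floor_le (by linarith))
    have h1 := loc_count (S.filter (fun ρ : ZS => ⌊(ρ : ℂ).im - x⌋₊ = k)) (x + k) (by
      intro ρ hρ
      rw [Finset.mem_filter] at hρ
      obtain ⟨h1, h2⟩ := hmem ρ hρ.1
      have h3 := Nat.floor_le (show 0 ≤ (ρ : ℂ).im - x by linarith)
      have h4 := Nat.lt_floor_add_one ((ρ : ℂ).im - x)
      rw [hρ.2] at h3 h4
      rw [abs_le]
      constructor <;> linarith)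
    have h2 := Afun_log (T := 2 * x) (u := x + k) (by linarith) (by positivity) (by linarith)
    have h3 : CLA * Real.log (2 * x) ≤ |CLA| * (2 * Real.log x) := by
      have h4 : 0 ≤ Real.log (2 * x) := Real.log_nonneg (by linarith)
      calc CLA * Real.log (2 * x) ≤ |CLA| * Real.log (2 * x) := mul_le_mul_of_nonneg_right (le_abs_self _) h4
        _ ≤ _ := by gcongr
    linarith
  refine (Finset.sum_le_sum hk).trans ?_
  rw [Finset.sum_const, Finset.card_range, nsmul_eq_mul]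
  push_cast
  have h5 : (⌊h⌋₊ : ℝ) + 1 ≤ 2 * h := by
    have := Nat.floor_le (show 0 ≤ h by linarith)
    linarith
  have h6 : 0 ≤ 5 * |CLA| * Real.log x := by positivity
  calc ((⌊h⌋₊ : ℝ) + 1) * (5 * |CLA| * Real.log x) ≤ (2 * h) * (5 * |CLA| * Real.log x) := by gcongr
    _ = 10 * |CLA| * (h * Real.log x) := by ring
    _ ≤ _ := by
      have : 0 ≤ h * Real.log x := by positivity
      linarith

/-- The parameters satisfy the hypotheses. -/
lemma hyp_ev {b : ℝ} (hb : 1 / 2 < b) (hb1 : b < 1) (T0 : ℝ) : ∀ᶠ x : ℝ in atTop,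
    Hyp T0 (2 / ((b - 1 / 2) / 20)) (x ^ (2 * b - 1)) (x + x ^ b / 2) (x ^ b / 2 + 1) := by
  set θ := (b - 1 / 2) / 20 with hθ
  have hθ0 : 0 < θ := by rw [hθ]; linarith
  have hl := Real.tendsto_log_atTop
  have e1 := tendsto_rpow_atTop (show 0 < θ by linarith)
  have e2 := tendsto_rpow_atTop (show 0 < 2 * b - 1 by linarith)
  have e3 := tendsto_rpow_atTop (show 0 < 1 - (2 * b - 1) by linarith)
  have e4 := tendsto_rpow_atTop (show 0 < b - 1 / 2 - 9 * θ by rw [hθ]; linarith)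
  have e5 := isLittleO_log_rpow_rpow_atTop (2:ℝ) (s := θ) hθ0
  have e5' := e5.bound (c := 1 / 4) (by norm_num)
  have e6 := isLittleO_log_rpow_rpow_atTop (1:ℝ) (s := 1 - b) (by linarith)
  have e6' := e6.bound (c := 1 / 2) (by norm_num)
  filter_upwards [eventually_ge_atTop (max T0 16), hl.eventually_ge_atTop 1, e1.eventually_ge_atTop 3,
    e2.eventually_ge_atTop (3 ^ 40), e3.eventually_ge_atTop 2, e4.eventually_ge_atTop 4, e5', e6'] with x g1 g2 g3 g4 g5 g6 g7 g8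
  have hx16 : 16 ≤ x := (le_max_right _ _).trans g1
  have hx0 : 0 < x := by linarith
  have hxT : T0 ≤ x := (le_max_left _ _).trans g1
  have hlog0 : 0 < Real.log x := by linarith
  have hXT : XT (x ^ (2 * b - 1)) = x ^ θ := by
    unfold XT
    rw [← Real.rpow_mul hx0.le]
    congr 1
    rw [hθ]; ring
  have hbx : x ^ b ≤ x := by
    calc x ^ b ≤ x ^ (1:ℝ) := Real.rpow_le_rpow_of_exponent_le (by linarith) hb1.le
      _ = x := Real.rpow_one x
  have hb0 : 0 < x ^ b := Real.rpow_pos_of_pos hx0 _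
  have hl4 : Real.log (2 * (x + x ^ b / 2)) ≤ 2 * Real.log x := by
    have h1 : 2 * (x + x ^ b / 2) ≤ x ^ 2 := by nlinarith
    calc Real.log (2 * (x + x ^ b / 2)) ≤ Real.log (x ^ 2) := Real.log_le_log (by positivity) h1
      _ = 2 * Real.log x := by rw [Real.log_pow]; norm_num
  have hl4' : 0 ≤ Real.log (2 * (x + x ^ b / 2)) := Real.log_nonneg (by linarith)
  have hlc : Real.log (x + x ^ b / 2) ≤ 2 * Real.log x := by
    refine le_trans (Real.log_le_log (by positivity) ?_) hl4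
    linarith
  refine ⟨?_, ?_, ?_, ?_, ?_, ?_, ?_, ?_⟩
  · linarith
  · rw [hXT]; exact g3
  · rw [hXT]
    have h1 : ‖Real.log x ^ (2:ℝ)‖ = Real.log x ^ 2 := by
      rw [Real.rpow_two, Real.norm_of_nonneg (by positivity)]
    rw [h1, Real.norm_of_nonneg (Real.rpow_nonneg hx0.le _)] at g7
    calc Real.log (2 * (x + x ^ b / 2)) ^ 2 ≤ (2 * Real.log x) ^ 2 := by gcongr
      _ = 4 * Real.log x ^ 2 := by ring
      _ ≤ x ^ θ := by linarith
  · exact g4
  · have h1 : x ^ (2 * b - 1) * x ^ (1 - (2 * b - 1)) = x := by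
      rw [← Real.rpow_add hx0]; simp
    have h2 : 0 < x ^ (2 * b - 1) := Real.rpow_pos_of_pos hx0 _
    have h3 : x ^ (2 * b - 1) * 2 ≤ x := by
      calc x ^ (2 * b - 1) * 2 ≤ x ^ (2 * b - 1) * x ^ (1 - (2 * b - 1)) := by gcongr
        _ = x := h1
    linarith
  · rw [hXT]
    have h1 : Real.sqrt (2 * (x + x ^ b / 2)) ≤ 2 * x ^ (1 / 2 : ℝ) := by
      rw [← Real.sqrt_eq_rpow]
      calc Real.sqrt (2 * (x + x ^ b / 2)) ≤ Real.sqrt (4 * x) := Real.sqrt_le_sqrt (by linarith)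
        _ = 2 * Real.sqrt x := by
          rw [Real.sqrt_mul (by norm_num), show (4:ℝ) = 2 ^ 2 by norm_num, Real.sqrt_sq (by norm_num)]
    have h2 : (x ^ θ) ^ 9 = x ^ (9 * θ) := by
      rw [← Real.rpow_natCast, ← Real.rpow_mul hx0.le]
      congr 1; push_cast; ring
    have h3 : x ^ (1 / 2 : ℝ) * x ^ (9 * θ) * x ^ (b - 1 / 2 - 9 * θ) = x ^ b := by
      rw [← Real.rpow_add hx0, ← Real.rpow_add hx0]; congr 1; ring
    have h4 : 0 < x ^ (1 / 2 : ℝ) * x ^ (9 * θ) := by positivity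
    have h5 : x ^ (1 / 2 : ℝ) * x ^ (9 * θ) * 4 ≤ x ^ b := by
      rw [← h3]; gcongr
    calc Real.sqrt (2 * (x + x ^ b / 2)) * (x ^ θ) ^ 9 ≤ (2 * x ^ (1 / 2 : ℝ)) * x ^ (9 * θ) := by rw [h2]; gcongr
      _ ≤ x ^ b / 2 + 1 := by linarith
  · have h1 : ‖Real.log x ^ (1:ℝ)‖ = Real.log x := by
      rw [Real.rpow_one, Real.norm_of_nonneg hlog0.le]
    rw [h1, Real.norm_of_nonneg (Real.rpow_nonneg hx0.le _)] at g8
    have h3 : x ^ b * x ^ (1 - b) = x := by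
      rw [← Real.rpow_add hx0]; simp
    have h4 : (x ^ b / 2 + 1) ≤ x ^ b := by
      have : x ^ (1 / 2 : ℝ) ≤ x ^ b := Real.rpow_le_rpow_of_exponent_le (by linarith) hb.le
      have h5 : (16:ℝ) ^ (1 / 2 : ℝ) ≤ x ^ (1 / 2 : ℝ) := by gcongr
      have h6 : (16:ℝ) ^ (1 / 2 : ℝ) = 4 := by
        rw [show (16:ℝ) = 4 ^ 2 by norm_num, ← Real.sqrt_eq_rpow, Real.sqrt_sq (by norm_num)]
      linarith
    calc (x ^ b / 2 + 1) * Real.log (x + x ^ b / 2) ≤ x ^ b * (2 * Real.log x) := by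
          apply mul_le_mul h4 hlc _ hb0.le
          exact Real.log_nonneg (by linarith)
      _ ≤ x ^ b * x ^ (1 - b) := by
          apply mul_le_mul_of_nonneg_left _ hb0.le
          linarith
      _ = x := h3
      _ ≤ _ := by linarith
  · rw [hXT, Real.log_rpow hx0]
    have : 2 / θ * (θ * Real.log x) = 2 * Real.log x := by field_simp
    rw [this]
    exact hlc

/-- The case `b < 1`. -/
theorem exp_moment_lt {b : ℝ} (hb : 1 / 2 < b) (hb1 : b < 1) : ∃ κ C : ℝ, 0 < κ ∧ 0 < C ∧ ∀ᶠ x : ℝ in atTop,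
    ∑ ρ ∈ (ZT (x + x ^ b)).filter (fun ρ : ZS => x ≤ (ρ : ℂ).im),
      mx ρ * Real.exp (κ * |Real.log x * ((ρ : ℂ).re - 1 / 2)|) ≤ C * (x ^ b * Real.log x) := by
  classical
  set θ := (b - 1 / 2) / 20 with hθ
  have hθ0 : 0 < θ := by rw [hθ]; linarith
  have hA : 1 ≤ 2 / ((b - 1 / 2) / 20) := by
    rw [le_div_iff₀ (by linarith)]; linarith
  obtain ⟨C1, T0, hC1, hEn⟩ := en_HS _ hA
  obtain ⟨D, P0, hD, hbig⟩ := big_gen
  obtain ⟨C2, hC2, hcount⟩ := count_short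
  refine ⟨(2 * b - 1) / 19200, 2 * C2 + 2 * (D * C1), by apply div_pos <;> linarith, by positivity, ?_⟩
  have e2 := tendsto_rpow_atTop (show 0 < 2 * b - 1 by linarith)
  have e7 := tendsto_rpow_atTop (show 0 < b by linarith)
  filter_upwards [hyp_ev hb hb1 T0, e2.eventually_ge_atTop P0, eventually_ge_atTop (3:ℝ), e7.eventually_ge_atTop 2,
    Real.tendsto_log_atTop.eventually_ge_atTop 1] with x g1 g2 g3 g4 g5
  have hx0 : 0 < x := by linarith
  have hb0 : 0 < x ^ b := Real.rpow_pos_of_pos hx0 _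
  have hbx : x ^ b ≤ x := by
    calc x ^ b ≤ x ^ (1:ℝ) := Real.rpow_le_rpow_of_exponent_le (by linarith) hb1.le
      _ = x := Real.rpow_one x
  have hl0 : 0 < Real.log x := by linarith
  set L := Real.log (x ^ (2 * b - 1)) with hL
  have hLx : L = (2 * b - 1) * Real.log x := by rw [hL, Real.log_rpow hx0]
  have hL0 : 0 < L := by rw [hLx]; apply mul_pos <;> linarith
  have hLle : L ≤ Real.log x := by rw [hLx]; nlinarith
  set S := (ZT (x + x ^ b)).filter (fun ρ : ZS => x ≤ (ρ : ℂ).im) with hS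
  have hmem : ∀ ρ : ZS, ρ ∈ S ↔ x ≤ (ρ : ℂ).im ∧ (ρ : ℂ).im ≤ x + x ^ b := by
    intro ρ
    rw [hS, Finset.mem_filter, mem_ZT]
    constructor
    · rintro ⟨h1, h2⟩; exact ⟨h2, h1.2⟩
    · rintro ⟨h1, h2⟩; exact ⟨⟨by linarith, h2⟩, h1⟩
  -- right half
  set R := S.filter (fun ρ : ZS => 1 / 2 ≤ (ρ : ℂ).re) with hR
  have hright : ∑ ρ ∈ R, mx ρ * Wt 9600 (L * ((ρ : ℂ).re - 1 / 2)) ≤ D * C1 * (x ^ b * Real.log x) := by
    have h1 := hbig _ _ _ _ _ g2 (hEn _ _ _ g1) (R.map (Function.Embedding.subtype _)) (by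
      intro ρ hρ
      rw [Finset.mem_map] at hρ
      obtain ⟨ρ', hρ', rfl⟩ := hρ
      rw [hR, Finset.mem_filter] at hρ'
      obtain ⟨h2, h3⟩ := (hmem ρ').mp hρ'.1
      refine ⟨ρ'.2, hρ'.2, ?_⟩
      change |(ρ' : ℂ).im - (x + x ^ b / 2)| ≤ x ^ b / 2 + 1 - 1
      rw [abs_le]
      constructor <;> linarith)
    rw [Finset.sum_map, ← hL] at h1
    refine (le_of_eq ?_).trans (h1.trans ?_)
    · rfl
    · apply mul_le_mul_of_nonneg_left _ (by positivity)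
      apply mul_le_mul _ hLle hL0.le hb0.le
      linarith
  have hexp : ∀ ρ : ZS, (2 * b - 1) / 19200 * |Real.log x * ((ρ : ℂ).re - 1 / 2)| = 1 / 19200 * |L * ((ρ : ℂ).re - 1 / 2)| := by
    intro ρ
    rw [hLx, abs_mul, abs_mul, abs_of_pos hl0, abs_of_pos (show 0 < (2 * b - 1) * Real.log x by rw [← hLx]; exact hL0)]
    ring
  have h1 : ∑ ρ ∈ S, mx ρ * Real.exp ((2 * b - 1) / 19200 * |Real.log x * ((ρ : ℂ).re - 1 / 2)|) ≤
      ∑ ρ ∈ S, (2 * mx ρ + mx ρ * Wt 9600 |L * ((ρ : ℂ).re - 1 / 2)|) := by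
    refine Finset.sum_le_sum fun ρ _ => ?_
    rw [hexp]
    have := mul_le_mul_of_nonneg_left (Helper78.SG.exp_le_Wt (abs_nonneg (L * ((ρ : ℂ).re - 1 / 2)))) (mx_nonneg ρ)
    linarith
  rw [Finset.sum_add_distrib, ← Finset.mul_sum] at h1
  have h2 : ∑ ρ ∈ S, mx ρ * Wt 9600 |L * ((ρ : ℂ).re - 1 / 2)| ≤ 2 * ∑ ρ ∈ R, mx ρ * Wt 9600 (L * ((ρ : ℂ).re - 1 / 2)) := by
    rw [← Finset.sum_filter_add_sum_filter_not S (fun ρ : ZS => 1 / 2 ≤ (ρ : ℂ).re)]
    have e1 : ∑ ρ ∈ S.filter (fun ρ : ZS => 1 / 2 ≤ (ρ : ℂ).re), mx ρ * Wt 9600 |L * ((ρ : ℂ).re - 1 / 2)| =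
        ∑ ρ ∈ R, mx ρ * Wt 9600 (L * ((ρ : ℂ).re - 1 / 2)) := by
      refine Finset.sum_congr rfl fun ρ hρ => ?_
      rw [Finset.mem_filter] at hρ
      rw [abs_of_nonneg (mul_nonneg hL0.le (by linarith [hρ.2]))]
    have e2 : ∑ ρ ∈ S.filter (fun ρ : ZS => ¬ 1 / 2 ≤ (ρ : ℂ).re), mx ρ * Wt 9600 |L * ((ρ : ℂ).re - 1 / 2)| ≤
        ∑ ρ ∈ R, mx ρ * Wt 9600 (L * ((ρ : ℂ).re - 1 / 2)) := by
      have e3 : ∑ ρ ∈ S.filter (fun ρ : ZS => ¬ 1 / 2 ≤ (ρ : ℂ).re), mx ρ * Wt 9600 |L * ((ρ : ℂ).re - 1 / 2)| =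
          ∑ ρ ∈ (S.filter (fun ρ : ZS => ¬ 1 / 2 ≤ (ρ : ℂ).re)).map refl.toEmbedding,
            mx ρ * Wt 9600 (L * ((ρ : ℂ).re - 1 / 2)) := by
        rw [Finset.sum_map]
        refine Finset.sum_congr rfl fun ρ hρ => ?_
        rw [Finset.mem_filter] at hρ
        change _ = mx (refl ρ) * Wt 9600 (L * ((refl ρ : ℂ).re - 1 / 2))
        rw [refl_mx, refl_re, abs_of_nonpos (mul_nonpos_of_nonneg_of_nonpos hL0.le (by linarith [hρ.2]))]
        congr 2
        ring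
      rw [e3]
      apply Finset.sum_le_sum_of_subset_of_nonneg
      · intro ρ hρ
        rw [Finset.mem_map] at hρ
        obtain ⟨ρ', hρ', rfl⟩ := hρ
        rw [Finset.mem_filter, hmem] at hρ'
        rw [hR, Finset.mem_filter, hmem]
        change (x ≤ (refl ρ' : ℂ).im ∧ (refl ρ' : ℂ).im ≤ x + x ^ b) ∧ 1 / 2 ≤ (refl ρ' : ℂ).re
        rw [refl_im, refl_re]
        exact ⟨hρ'.1, by linarith [hρ'.2]⟩
      · intro ρ _ _
        exact mul_nonneg (mx_nonneg _) (Wt_nonneg _ _)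
    linarith
  have h3 := hcount x (x ^ b) g3 (by linarith) hbx
  rw [← hS] at h3
  have h4 : (2 * C2 + 2 * (D * C1)) * (x ^ b * Real.log x) = 2 * (C2 * (x ^ b * Real.log x)) + 2 * (D * C1 * (x ^ b * Real.log x)) := by ring
  rw [h4]
  linarith

/-- **Exponential moment of the depth of the zeros in short intervals.** -/
theorem exp_moment_short {b : ℝ} (hb : 1 / 2 < b) (hb1 : b ≤ 1) : ∃ κ C : ℝ, 0 < κ ∧ 0 < C ∧ ∀ᶠ x : ℝ in atTop,
    ∑ ρ ∈ (ZT (x + x ^ b)).filter (fun ρ : ZS => x ≤ (ρ : ℂ).im),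
      mx ρ * Real.exp (κ * |Real.log x * ((ρ : ℂ).re - 1 / 2)|) ≤ C * (x ^ b * Real.log x) := by
  rcases lt_or_eq_of_le hb1 with h | rfl
  · exact exp_moment_lt hb h
  · obtain ⟨κ, C, hκ, hC, h⟩ := Helper78.SG.exp_moment
    refine ⟨κ, 4 * C, hκ, by positivity, ?_⟩
    have h2 : Tendsto (fun x : ℝ => 2 * x) atTop atTop := tendsto_id.const_mul_atTop (by norm_num)
    filter_upwards [h2.eventually h, eventually_ge_atTop (3:ℝ), Real.tendsto_log_atTop.eventually_ge_atTop 1] with x g1 g2 g3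
    have hx0 : 0 < x := by linarith
    rw [Real.rpow_one, show x + x = 2 * x by ring]
    have hl2 : Real.log (2 * x) ≤ 2 * Real.log x := by
      rw [Real.log_mul (by norm_num) (by linarith)]
      have h1 : Real.log 2 ≤ Real.log x := Real.log_le_log (by norm_num) (by linarith)
      linarith
    have hl1 : Real.log x ≤ Real.log (2 * x) := Real.log_le_log hx0 (by linarith)
    calc ∑ ρ ∈ (ZT (2 * x)).filter (fun ρ : ZS => x ≤ (ρ : ℂ).im), mx ρ * Real.exp (κ * |Real.log x * ((ρ : ℂ).re - 1 / 2)|)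
        ≤ ∑ ρ ∈ ZT (2 * x), mx ρ * Real.exp (κ * |Real.log (2 * x) * ((ρ : ℂ).re - 1 / 2)|) := by
          refine (Finset.sum_le_sum_of_subset_of_nonneg (Finset.filter_subset _ _) ?_).trans ?_
          · intro ρ _ _
            exact mul_nonneg (mx_nonneg _) (Real.exp_pos _).le
          · refine Finset.sum_le_sum fun ρ _ => ?_
            apply mul_le_mul_of_nonneg_left _ (mx_nonneg _)
            apply Real.exp_le_exp.mpr
            apply mul_le_mul_of_nonneg_left _ hκ.le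
            rw [abs_mul, abs_mul, abs_of_pos (by linarith : 0 < Real.log x), abs_of_pos (by linarith : 0 < Real.log (2 * x))]
            gcongr
      _ ≤ C * (2 * x * Real.log (2 * x)) := g1
      _ ≤ C * (2 * x * (2 * Real.log x)) := by gcongr
      _ = _ := by ring

end Pool.Agent.Helper57.DS
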