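import Pool.Agent.Helper57.DS.Def

/-!
# DS-1: the averaging operator `cv` (project DS, see Def.lean)

`cv η a f u = (1/2η) ∫_{-η}^{η} e^{iav} f(u - v) dv`. Proofs:
* `cv_norm_le`: `‖∫ ...‖ ≤ ∫_{-η}^{η} ‖f(u-v)‖ dv ≤ ∫ ‖f‖`.
* `cv_int`: Fubini (`Integrable.convolution_integrand` or `integrable_prod_iff`): `∫∫_{|v| ≤ η} ‖f(u-v)‖ du dv = 2η ∫ ‖f‖`.
* `cv_sq_int`: `‖cv f‖² ≤ M ‖cv f‖`, `M` from `cv_norm_le`.
* `FT_cv`: Fubini, `∫ e^{iτu} f(u-v) du = e^{iτv} FT f τ`.
* `ker_low`: real part: `(1/2η) ∫_{-η}^{η} cos(bv) dv ≥ cos 1 ≥ 1/2` for `|b| η ≤ 1` (`Real.cos_one_pos`, `Real.cos_one_le` or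
  `Real.one_sub_sq_div_two_le_cos`: `cos x ≥ 1 - x²/2 ≥ 1/2` for `|x| ≤ 1`).
* `cv_up`: `‖FT f τ‖² ≤ 4 ‖FT (cv f) τ‖²` on the interval (`FT_cv`, `ker_low`), then `LH.planch` for `cv f`.
* `cv_bd`: from the definition, `∫_{-η}^{η} M = 2ηM`.
* `cv_sum_split`: linearity of the interval integral.
* `cv_refl`: `conj`, substitution `v → -v` in the interval integral.
-/

open MeasureTheory Set Filter Topology
open Pool.Agent.Helper57.LH

namespace Pool.Agent.Helper57.DS

private lemma norm_e34 (x y : ℝ) : ‖Complex.exp (Complex.I * (x : ℂ) * (y : ℂ))‖ = 1 := by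
  rw [show Complex.I * (x : ℂ) * (y : ℂ) = ((x * y : ℝ) : ℂ) * Complex.I by push_cast; ring]
  exact Complex.norm_exp_ofReal_mul_I _

private lemma norm_c34 {η : ℝ} (hη : 0 < η) : ‖((1 / (2 * η) : ℝ) : ℂ)‖ = 1 / (2 * η) := by
  rw [Complex.norm_real, Real.norm_of_nonneg (by positivity)]

lemma cv_norm_le {η a : ℝ} (hη : 0 < η) {f : ℝ → ℂ} (hf : Integrable f) (u : ℝ) :
    ‖cv η a f u‖ ≤ 1 / (2 * η) * ∫ x, ‖f x‖ := by
  unfold cv
  rw [norm_mul, norm_c34 hη]
  refine mul_le_mul_of_nonneg_left ?_ (by positivity)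
  refine (intervalIntegral.norm_integral_le_integral_norm (by linarith)).trans ?_
  have h1 : ∀ v : ℝ, ‖Complex.exp (Complex.I * a * v) * f (u - v)‖ = ‖f (u - v)‖ := fun v => by
    rw [norm_mul, norm_e34, one_mul]
  simp only [h1]
  rw [intervalIntegral.integral_of_le (by linarith), ← integral_sub_left_eq_self (fun x => ‖f x‖) volume u]
  exact setIntegral_le_integral (hf.norm.comp_sub_left u) (Eventually.of_forall fun v => norm_nonneg _)

private lemma conv34 {η b : ℝ} {g : ℝ → ℂ} (hg : Integrable g) :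
    Integrable (fun p : ℝ × ℝ => Complex.exp (Complex.I * (b : ℂ) * (p.2 : ℂ)) * g (p.1 - p.2))
      (volume.prod (volume.restrict (Ioc (-η) η))) := by
  have h1 : Integrable (fun v : ℝ => Complex.exp (Complex.I * (b : ℂ) * (v : ℂ))) (volume.restrict (Ioc (-η) η)) := by
    refine (integrable_const (1 : ℝ)).mono' ?_ (Eventually.of_forall fun v => (norm_e34 b v).le)
    exact (by fun_prop : Continuous fun v : ℝ => Complex.exp (Complex.I * (b : ℂ) * (v : ℂ))).aestronglyMeasurable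
  exact Integrable.convolution_integrand (ContinuousLinearMap.mul ℝ ℂ) h1 hg

private lemma cv_eq34 {η a : ℝ} (hη : 0 < η) (f : ℝ → ℂ) (u : ℝ) :
    cv η a f u = ((1 / (2 * η) : ℝ) : ℂ) * ∫ v in Ioc (-η) η, Complex.exp (Complex.I * a * v) * f (u - v) := by
  unfold cv
  rw [intervalIntegral.integral_of_le (by linarith)]

theorem cv_int {η a : ℝ} (hη : 0 < η) {f : ℝ → ℂ} (hf : Integrable f) : Integrable (cv η a f) := by
  have h1 := (conv34 (η := η) (b := a) hf).integral_prod_left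
  have h2 := h1.const_mul ((1 / (2 * η) : ℝ) : ℂ)
  refine h2.congr (Eventually.of_forall fun u => ?_)
  exact (cv_eq34 hη f u).symm

theorem cv_sq_int {η a : ℝ} (hη : 0 < η) {f : ℝ → ℂ} (hf : Integrable f) : Integrable (fun u => ‖cv η a f u‖ ^ 2) := by
  have h1 := cv_int (a := a) hη hf
  refine (h1.norm.const_mul (1 / (2 * η) * ∫ x, ‖f x‖)).mono' (h1.aestronglyMeasurable.norm.pow 2)
    (Eventually.of_forall fun u => ?_)
  rw [Real.norm_of_nonneg (by positivity), sq]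
  exact mul_le_mul_of_nonneg_right (cv_norm_le hη hf u) (norm_nonneg _)

theorem FT_cv {η a : ℝ} (hη : 0 < η) {f : ℝ → ℂ} (hf : Integrable f) (τ : ℝ) :
    FT (cv η a f) τ = FT f τ * (((1 / (2 * η) : ℝ) : ℂ) * ∫ v in (-η)..η, Complex.exp (Complex.I * ((τ + a : ℝ) : ℂ) * v)) := by
  have hg : Integrable (fun u : ℝ => Complex.exp (Complex.I * τ * u) * f u) := integrable_FT hf τ
  have h1 := conv34 (η := η) (b := τ + a) hg
  have h2 : FT (cv η a f) τ = ((1 / (2 * η) : ℝ) : ℂ) * ∫ u : ℝ, ∫ v in Ioc (-η) η,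
      Complex.exp (Complex.I * ((τ + a : ℝ) : ℂ) * (v : ℂ)) * (Complex.exp (Complex.I * τ * ((u - v : ℝ) : ℂ)) * f (u - v)) := by
    unfold FT
    rw [← integral_const_mul]
    refine integral_congr_ae (Eventually.of_forall fun u => ?_)
    show Complex.exp (Complex.I * τ * u) * cv η a f u = _
    rw [cv_eq34 hη, mul_left_comm]
    congr 1
    rw [← integral_const_mul]
    refine integral_congr_ae (Eventually.of_forall fun v => ?_)
    show Complex.exp (Complex.I * τ * u) * (Complex.exp (Complex.I * a * v) * f (u - v)) =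
      Complex.exp (Complex.I * ((τ + a : ℝ) : ℂ) * (v : ℂ)) * (Complex.exp (Complex.I * τ * ((u - v : ℝ) : ℂ)) * f (u - v))
    rw [← mul_assoc, ← mul_assoc, ← Complex.exp_add, ← Complex.exp_add]
    congr 2
    push_cast
    ring
  have h3 : ∫ u : ℝ, ∫ v in Ioc (-η) η,
      Complex.exp (Complex.I * ((τ + a : ℝ) : ℂ) * (v : ℂ)) * (Complex.exp (Complex.I * τ * ((u - v : ℝ) : ℂ)) * f (u - v)) =
      ∫ v in Ioc (-η) η, ∫ u : ℝ,
      Complex.exp (Complex.I * ((τ + a : ℝ) : ℂ) * (v : ℂ)) * (Complex.exp (Complex.I * τ * ((u - v : ℝ) : ℂ)) * f (u - v)) :=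
    integral_integral_swap h1
  have h4 : ∀ v : ℝ, ∫ u : ℝ,
      Complex.exp (Complex.I * ((τ + a : ℝ) : ℂ) * (v : ℂ)) * (Complex.exp (Complex.I * τ * ((u - v : ℝ) : ℂ)) * f (u - v)) =
      Complex.exp (Complex.I * ((τ + a : ℝ) : ℂ) * (v : ℂ)) * FT f τ := fun v => by
    rw [integral_const_mul]
    congr 1
    exact integral_sub_right_eq_self (fun u : ℝ => Complex.exp (Complex.I * τ * (u : ℂ)) * f u) v
  rw [h2, h3, intervalIntegral.integral_of_le (by linarith)]
  simp only [h4]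
  rw [integral_mul_const]
  ring

lemma ker_low {η b : ℝ} (hη : 0 < η) (hb : |b| * η ≤ 1) :
    1 / 2 ≤ ‖((1 / (2 * η) : ℝ) : ℂ) * ∫ v in (-η)..η, Complex.exp (Complex.I * (b : ℂ) * v)‖ := by
  refine le_trans ?_ (Complex.re_le_norm _)
  rw [Complex.re_ofReal_mul]
  have hc : Continuous fun v : ℝ => Complex.exp (Complex.I * (b : ℂ) * (v : ℂ)) := by fun_prop
  have h1 : (∫ v in (-η)..η, Complex.exp (Complex.I * (b : ℂ) * v)).re = ∫ v in (-η)..η, Real.cos (b * v) := by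
    have h2 := Complex.reCLM.intervalIntegral_comp_comm (μ := volume) (hc.intervalIntegrable (-η) η)
    rw [Complex.reCLM_apply] at h2
    rw [← h2]
    refine intervalIntegral.integral_congr fun v _ => ?_
    show (Complex.exp (Complex.I * (b : ℂ) * (v : ℂ))).re = _
    rw [show Complex.I * (b : ℂ) * (v : ℂ) = ((b * v : ℝ) : ℂ) * Complex.I by push_cast; ring, Complex.exp_ofReal_mul_I_re]
  rw [h1]
  have h3 : ∫ v in (-η)..η, (1 / 2 : ℝ) ≤ ∫ v in (-η)..η, Real.cos (b * v) := by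
    refine intervalIntegral.integral_mono_on (by linarith) intervalIntegrable_const
      ((by fun_prop : Continuous fun v : ℝ => Real.cos (b * v)).intervalIntegrable _ _) fun v hv => ?_
    have h4 : |b * v| ≤ 1 := by
      rw [abs_mul]
      refine le_trans (mul_le_mul_of_nonneg_left (abs_le.2 ⟨hv.1, hv.2⟩) (abs_nonneg _)) hb
    have h5 : (b * v) ^ 2 ≤ 1 := by
      rw [← sq_abs]
      have := abs_nonneg (b * v)
      nlinarith
    have h6 := Real.one_sub_sq_div_two_le_cos (x := b * v)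
    linarith
  rw [intervalIntegral.integral_const, smul_eq_mul] at h3
  calc (1 / 2 : ℝ) = 1 / (2 * η) * ((η - -η) * (1 / 2)) := by field_simp; ring
    _ ≤ _ := mul_le_mul_of_nonneg_left h3 (by positivity)

theorem cv_up {η a : ℝ} (hη : 0 < η) {f : ℝ → ℂ} (hf : Integrable f) :
    ∫ τ in (-a - 1 / η)..(-a + 1 / η), ‖FT f τ‖ ^ 2 ≤ 8 * Real.pi * ∫ u, ‖cv η a f u‖ ^ 2 := by
  have hη' : 0 < 1 / η := by positivity
  have h1 := cv_int (a := a) hη hf
  have h2 := cv_sq_int (a := a) hη hf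
  have h3 := planch h1 h2 (a := -a - 1 / η) (b := -a + 1 / η) (by linarith)
  have h4 : ∫ τ in (-a - 1 / η)..(-a + 1 / η), ‖FT f τ‖ ^ 2 ≤
      ∫ τ in (-a - 1 / η)..(-a + 1 / η), 4 * ‖FT (cv η a f) τ‖ ^ 2 := by
    refine intervalIntegral.integral_mono_on (by linarith)
      (((continuous_FT hf).norm.pow 2).intervalIntegrable _ _)
      ((continuous_const.mul ((continuous_FT h1).norm.pow 2)).intervalIntegrable _ _) fun τ hτ => ?_
    have h5 : |τ + a| * η ≤ 1 := by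
      rw [← le_div_iff₀ hη, abs_le]
      constructor <;> linarith [hτ.1, hτ.2]
    have h6 := ker_low hη h5
    have h7 : ‖FT f τ‖ * (1 / 2) ≤ ‖FT (cv η a f) τ‖ := by
      rw [FT_cv hη hf, norm_mul]
      exact mul_le_mul_of_nonneg_left h6 (norm_nonneg _)
    have h8 : 0 ≤ ‖FT f τ‖ := norm_nonneg _
    nlinarith
  refine h4.trans ?_
  rw [intervalIntegral.integral_const_mul]
  calc 4 * ∫ τ in (-a - 1 / η)..(-a + 1 / η), ‖FT (cv η a f) τ‖ ^ 2 ≤ 4 * (2 * Real.pi * ∫ u, ‖cv η a f u‖ ^ 2) :=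
        mul_le_mul_of_nonneg_left h3 (by norm_num)
    _ = _ := by ring

end Pool.Agent.Helper57.DS
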