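import Pool.Agent.Helper57.DS.Def

/-!
# DS-1: the averaging operator `cv` (project DS, see Def.lean)

`cv η a f u = (1/2η) ∫_{-η}^{η} e^{iav} f(u - v) dv`. Three lemmas:
* `cv_bd`: from the definition, `∫_{-η}^{η} M = 2ηM`.
* `cv_split`: linearity of the interval integral.
* `cv_refl`: `conj`, substitution `v → -v` in the interval integral.
-/

open MeasureTheory Set Filter Topology
open Pool.Agent.Helper57.LH

namespace Pool.Agent.Helper57.DS

private lemma norm_e88 (a v : ℝ) : ‖Complex.exp (Complex.I * a * v)‖ = 1 := by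
  rw [show Complex.I * (a : ℂ) * v = ((a * v : ℝ) : ℂ) * Complex.I by push_cast; ring,
    Complex.norm_exp_ofReal_mul_I]

lemma cv_bd {η a u M : ℝ} (hη : 0 < η) {f : ℝ → ℂ} (hf : ∀ v, |v| ≤ η → ‖f (u - v)‖ ≤ M) : ‖cv η a f u‖ ≤ M := by
  unfold cv
  have h1 : ‖∫ v in (-η)..η, Complex.exp (Complex.I * a * v) * f (u - v)‖ ≤ M * |η - (-η)| := by
    apply intervalIntegral.norm_integral_le_of_norm_le_const
    intro v hv
    rw [uIoc_of_le (by linarith)] at hv
    rw [norm_mul, norm_e88, one_mul]
    exact hf v (abs_le.mpr ⟨hv.1.le, hv.2⟩)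
  rw [norm_mul, Complex.norm_real, Real.norm_of_nonneg (by positivity)]
  have h2 : |η - (-η)| = 2 * η := by
    rw [sub_neg_eq_add, abs_of_pos (by linarith)]
    ring
  rw [h2] at h1
  calc 1 / (2 * η) * ‖∫ v in (-η)..η, Complex.exp (Complex.I * a * v) * f (u - v)‖
      ≤ 1 / (2 * η) * (M * (2 * η)) := by gcongr
    _ = M := by field_simp

/-- If `f = w g + r` on `[u-η, u+η]`, `g` continuous, then the same for `cv`. -/
lemma cv_split {η a u : ℝ} (hη : 0 < η) (w : ℂ) {f g : ℝ → ℂ} (hf : Integrable f) (hg : Continuous g) :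
    cv η a f u = w * cv η a g u + cv η a (fun x => f x - w * g x) u := by
  have he : Continuous fun v : ℝ => Complex.exp (Complex.I * a * v) := by fun_prop
  have h1 : IntervalIntegrable (fun v : ℝ => Complex.exp (Complex.I * a * v) * f (u - v)) volume (-η) η := by
    have h3 : Integrable fun v : ℝ => f (u - v) := hf.comp_sub_left u
    have h4 : Integrable (fun v : ℝ => Complex.exp (Complex.I * a * v) * f (u - v)) :=
      h3.bdd_mul (c := 1) he.aestronglyMeasurable (Eventually.of_forall fun v => (norm_e88 a v).le)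
    exact h4.intervalIntegrable
  have h2 : IntervalIntegrable (fun v : ℝ => w * (Complex.exp (Complex.I * a * v) * g (u - v))) volume (-η) η := by
    apply Continuous.intervalIntegrable
    fun_prop
  unfold cv
  have h3 : (∫ v in (-η)..η, Complex.exp (Complex.I * a * v) * (f (u - v) - w * g (u - v))) =
      (∫ v in (-η)..η, Complex.exp (Complex.I * a * v) * f (u - v)) -
        w * ∫ v in (-η)..η, Complex.exp (Complex.I * a * v) * g (u - v) := by
    rw [← intervalIntegral.integral_const_mul, ← intervalIntegral.integral_sub h1 h2]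
    congr 1
    ext v
    ring
  rw [h3]
  ring

/-- The reflection `u → -u` and complex conjugation. -/
lemma cv_refl (η a : ℝ) (f : ℝ → ℂ) (u : ℝ) :
    ‖cv η a f (-u)‖ = ‖cv η a (fun x => starRingEnd ℂ (f (-x))) u‖ := by
  unfold cv
  rw [norm_mul, norm_mul]
  congr 1
  have h1 : (∫ v in (-η)..η, Complex.exp (Complex.I * a * v) * f (-u - v)) =
      ∫ v in (-η)..η, Complex.exp (Complex.I * a * ((-v : ℝ) : ℂ)) * f (-u - -v) := by
    rw [intervalIntegral.integral_comp_neg (fun v : ℝ => Complex.exp (Complex.I * a * v) * f (-u - v)), neg_neg]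
  have h2 : (∫ v in (-η)..η, Complex.exp (Complex.I * a * v) * starRingEnd ℂ (f (-(u - v)))) =
      starRingEnd ℂ (∫ v in (-η)..η, Complex.exp (Complex.I * a * ((-v : ℝ) : ℂ)) * f (-u - -v)) := by
    simp only [intervalIntegral, map_sub]
    rw [← integral_conj, ← integral_conj]
    congr 2 <;>
    · ext v
      rw [map_mul, ← Complex.exp_conj, map_mul, map_mul, Complex.conj_I, Complex.conj_ofReal, Complex.conj_ofReal]
      congr 2
      · push_cast
        ring
      · congr 1
        ring
  rw [h1, h2, Complex.norm_conj]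

end Pool.Agent.Helper57.DS
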