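import Pool.Agent.Helper57.M.D

/-!
# DS: density of the zeros in short intervals `[x, x + x^b]`, `b > 1/2`: definitions
-/

open MeasureTheory Set Filter Topology
open Pool.Agent.Helper57.LH

namespace Pool.Agent.Helper57.DS

/-- Mean over `[-η, η]` with the phase `e^{i a v}`. -/
noncomputable def cv (η a : ℝ) (f : ℝ → ℂ) (u : ℝ) : ℂ :=
  ((1 / (2 * η) : ℝ) : ℂ) * ∫ v in (-η)..η, Complex.exp (Complex.I * a * v) * f (u - v)

/-- The atom `e^{-u/4} exp(-π λ² e^{-u} z)`. -/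
noncomputable def atm (lam : ℝ) (z : ℂ) (u : ℝ) : ℂ :=
  (Real.exp (-(1/4) * u) : ℂ) * Complex.exp (-(Real.pi * (lam : ℂ) ^ 2 * (Real.exp (-u) : ℝ) * z))

/-- Finite sums of atoms. -/
noncomputable def atS {ι : Type*} (I : Finset ι) (lam c : ι → ℝ) (z : ℂ) (u : ℝ) : ℂ := ∑ i ∈ I, (c i : ℂ) * atm (lam i) z u

lemma atm_cont (lam : ℝ) (z : ℂ) : Continuous (atm lam z) := by unfold atm; fun_prop

lemma atS_cont {ι : Type*} (I : Finset ι) (lam c : ι → ℝ) (z : ℂ) : Continuous (atS I lam c z) := by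
  unfold atS
  exact continuous_finsetSum _ fun i _ => continuous_const.mul (atm_cont _ _)

lemma norm_atm {lam : ℝ} {z : ℂ} (u : ℝ) :
    ‖atm lam z u‖ = Real.exp (-(1/4) * u) * Real.exp (-(Real.pi * lam ^ 2 * Real.exp (-u) * z.re)) := by
  unfold atm
  rw [norm_mul, Complex.norm_real, Real.norm_of_nonneg (Real.exp_pos _).le, Complex.norm_exp]
  congr 2
  rw [show (Real.pi * (lam : ℂ) ^ 2 * (Real.exp (-u) : ℝ) * z : ℂ) = ((Real.pi * lam ^ 2 * Real.exp (-u) : ℝ) : ℂ) * z by push_cast; ring,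
    Complex.neg_re, Complex.re_ofReal_mul]

lemma norm_atm_le {lam : ℝ} {z : ℂ} (hz : 0 ≤ z.re) (u : ℝ) : ‖atm lam z u‖ ≤ Real.exp (-(1/4) * u) := by
  rw [norm_atm]
  have h1 : Real.exp (-(Real.pi * lam ^ 2 * Real.exp (-u) * z.re)) ≤ 1 := by
    apply Real.exp_le_one_iff.mpr
    have : 0 ≤ Real.pi * lam ^ 2 * Real.exp (-u) * z.re := by positivity
    linarith
  exact mul_le_of_le_one_right (Real.exp_pos _).le h1

/-- Continuity facts on the twist parameter. -/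
lemma zT_facts {T : ℝ} (hT : 2 ≤ T) : 0 < (zT T).re ∧ 1 / (2 * T) ≤ (zT T).re ∧ (zT T).re ≤ 1 / T ∧
    1 - 1 / T ^ 2 ≤ (zT T).im ∧ (zT T).im ≤ 1 := by
  have hT0 : 0 < T := by linarith
  have hTi : 1 / T ≤ 1 / 2 := one_div_le_one_div_of_le (by norm_num) hT
  have hTi0 : 0 < 1 / T := by positivity
  have hsin1 : Real.sin (1 / T) ≤ 1 / T := Real.sin_le hTi0.le
  have hsin2 : 1 / (2 * T) ≤ Real.sin (1 / T) := by
    have h1 := Real.mul_le_sin hTi0.le (by linarith [Real.pi_gt_three])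
    have h2 : 1 / 2 ≤ 2 / Real.pi := by
      rw [div_le_div_iff₀ (by norm_num) Real.pi_pos]
      linarith [Real.pi_lt_d2]
    calc 1 / (2 * T) = 1 / 2 * (1 / T) := by ring
      _ ≤ 2 / Real.pi * (1 / T) := by gcongr
      _ ≤ _ := h1
  rw [zT_re, zT_im]
  refine ⟨lt_of_lt_of_le (by positivity) hsin2, hsin2, hsin1, ?_, Real.cos_le_one _⟩
  have h1 := Real.one_sub_sq_div_two_le_cos (x := 1 / T)
  have h2 : (1 / T) ^ 2 = 1 / T ^ 2 := by rw [div_pow, one_pow]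
  have h3 : 0 ≤ 1 / T ^ 2 := by positivity
  rw [h2] at h1
  linarith

end Pool.Agent.Helper57.DS
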