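import Pool.Agent.Helper57.DS.Def

/-!
# DS-2: the diagonal terms (project DS, see Def.lean)

`T ≥ 100`, `2/T ≤ η ≤ 1/24`, `η² T ≤ 1`, `lam > 0`, `z = zT T` (`zT_facts`), `y = π lam² e^{-u}`, `D = |y - T/2|`.

`cv_atm_triv`: `‖atm (u-v)‖ ≤ e^{-(u-v)/4} ≤ 2 e^{-u/4}` (`norm_atm_le`).

`cv_atm_osc`: `cv η (T/2) (atm lam z) u = e^{-u/4} (1/2η) ∫_{-η}^{η} e^{φ(v)} dv`, `φ(v) = v/4 + iTv/2 - y e^v z`,
`φ' = 1/4 + iT/2 - y e^v z`, `φ'' = -y e^v z`, `‖e^{φ(v)}‖ = e^{v/4} exp(-y e^v Re z) ≤ 2`.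
`|Im φ'| = |T/2 - y e^v Im z| ≥ D - y|e^v Im z - 1| ≥ D - 3ηy ≥ D - 3η(T/2 + D) ≥ D/2` for `D ≥ 4/η` (`ηT ≤ 1/η ≤ D/4`, `3ηD ≤ D/8`).
Integrate by parts (`intervalIntegral.integral_mul_deriv_eq_deriv_mul`, or differentiate `e^φ/φ'` and use
`intervalIntegral.integral_eq_sub_of_hasDerivAt`: `(e^φ/φ')' = e^φ - e^φ φ''/φ'²`):
`‖∫ e^φ‖ ≤ 2·2/(D/2) + 2η·2·2y/(D/2)² = 8/D + 32ηy/D²`, `ηy ≤ ηT/2 + ηD ≤ D/8 + D/24 ≤ D/6`, so `≤ 14/D`,
`‖cv‖ ≤ e^{-u/4} 7/(ηD)` for `D ≥ 4/η`.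

`cv_atm_pt`: both together: `‖cv‖² ≤ e^{-u/2} · 900/(1 + η²D²)`: if `ηD ≤ 4` then `4 ≤ 4·17/(1+η²D²)`; else `49/(ηD)² ≤ 49·(17/16)/(1+η²D²)`.

`dia`: `y = π lam² x²` with `x = e^{-u/2}`, `|y - T/2| = |√π lam x - √(T/2)| (√π lam x + √(T/2)) ≥ |√π lam x - √(T/2)| √(T/2)`, so
`‖cv‖² ≤ 900 e^{-u/2}/(1 + (A e^{-u/2} - B)²)`, `A = η √(T/2) √π lam`, `B = η T/2`; antiderivative `-(2/A) arctan(A e^{-u/2} - B)`, or
substitution `x = e^{-u/2}`: `∫_ℝ e^{-u/2}/(1+(A e^{-u/2}-B)²) du = 2∫_0^∞ dx/(1+(Ax-B)²) ≤ 2π/A` (`integral_univ_inv_one_add_sq`).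
`2π·900/(√(π/2)) ≤ 5000`.
-/

open MeasureTheory Set Filter Topology
open Pool.Agent.Helper57.LH

namespace Pool.Agent.Helper57.DS

private lemma exp_near63 {v η : ℝ} (hη1 : η ≤ 1 / 24) (hv : |v| ≤ η) : |Real.exp v - 1| ≤ 25 / 24 * η := by
  have h0 := abs_nonneg v
  have h1 := Real.abs_exp_sub_one_sub_id_le (x := v) (by linarith)
  have h2 : |Real.exp v - 1| ≤ |Real.exp v - 1 - v| + |v| := by
    have e : Real.exp v - 1 = (Real.exp v - 1 - v) + v := by ring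
    rw [e]
    exact (abs_add_le _ _).trans (le_of_eq (by ring_nf))
  have h3 : v ^ 2 ≤ η * (1 / 24) := by
    rw [← sq_abs]
    nlinarith
  linarith

private lemma exp_le_two63 {v η : ℝ} (hη1 : η ≤ 1 / 24) (hv : |v| ≤ η) : Real.exp v ≤ 2 := by
  have h := (abs_le.1 (exp_near63 hη1 hv)).2
  linarith

private lemma mem63 {η v : ℝ} (hη : 0 < η) (hv : v ∈ Set.uIcc (-η) η) : |v| ≤ η := by
  rw [Set.uIcc_of_le (by linarith)] at hv
  exact abs_le.2 ⟨hv.1, hv.2⟩

lemma cv_atm_triv {T η lam a : ℝ} (hT : 100 ≤ T) (hη : 0 < η) (hη1 : η ≤ 1 / 24) (u : ℝ) :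
    ‖cv η a (atm lam (zT T)) u‖ ≤ 2 * Real.exp (-(1/4) * u) := by
  have hz := (zT_facts (T := T) (by linarith)).1
  unfold cv
  have h1 : ‖∫ v in (-η)..η, Complex.exp (Complex.I * a * v) * atm lam (zT T) (u - v)‖ ≤
      (2 * Real.exp (-(1/4) * u)) * |η - (-η)| := by
    refine intervalIntegral.norm_integral_le_of_norm_le_const fun v hv => ?_
    have hv' := mem63 hη (Set.uIoc_subset_uIcc hv)
    have e1 : ‖Complex.exp (Complex.I * a * v)‖ = 1 := by
      have : Complex.I * a * v = ((a * v : ℝ) : ℂ) * Complex.I := by push_cast; ring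
      rw [this, Complex.norm_exp_ofReal_mul_I]
    rw [norm_mul, e1, one_mul]
    refine (norm_atm_le hz.le _).trans ?_
    have e2 : -(1/4) * (u - v) = -(1/4) * u + (1/4) * v := by ring
    rw [e2, Real.exp_add, mul_comm]
    refine mul_le_mul_of_nonneg_right ?_ (Real.exp_pos _).le
    refine exp_le_two63 hη1 ?_
    rw [abs_mul]
    have : |(1 : ℝ) / 4| = 1 / 4 := abs_of_pos (by norm_num)
    rw [this]
    linarith [abs_nonneg v]
  rw [norm_mul, Complex.norm_real, Real.norm_of_nonneg (by positivity)]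
  have e3 : |η - (-η)| = 2 * η := by rw [sub_neg_eq_add, ← two_mul, abs_of_pos (by positivity)]
  rw [e3] at h1
  calc 1 / (2 * η) * ‖∫ v in (-η)..η, Complex.exp (Complex.I * a * v) * atm lam (zT T) (u - v)‖
      ≤ 1 / (2 * η) * ((2 * Real.exp (-(1/4) * u)) * (2 * η)) := mul_le_mul_of_nonneg_left h1 (by positivity)
    _ = 2 * Real.exp (-(1/4) * u) := by field_simp

/-- the phase -/
private noncomputable def Ph63 (T y : ℝ) (z : ℂ) (v : ℝ) : ℂ :=
  ((1/4 * v : ℝ) : ℂ) + Complex.I * ((T / 2 : ℝ) : ℂ) * (v : ℂ) - ((y * Real.exp v : ℝ) : ℂ) * z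

/-- its derivative -/
private noncomputable def P63 (T y : ℝ) (z : ℂ) (v : ℝ) : ℂ :=
  ((1/4 : ℝ) : ℂ) + Complex.I * ((T / 2 : ℝ) : ℂ) - ((y * Real.exp v : ℝ) : ℂ) * z

private lemma hd_exp63 (y : ℝ) (z : ℂ) (v : ℝ) :
    HasDerivAt (fun v : ℝ => ((y * Real.exp v : ℝ) : ℂ) * z) (((y * Real.exp v : ℝ) : ℂ) * z) v :=
  (((Real.hasDerivAt_exp v).const_mul y).ofReal_comp).mul_const z

private lemma hd_Ph63 (T y : ℝ) (z : ℂ) (v : ℝ) : HasDerivAt (Ph63 T y z) (P63 T y z v) v := by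
  unfold Ph63 P63
  have h1 : HasDerivAt (fun v : ℝ => ((1/4 * v : ℝ) : ℂ)) ((1/4 * 1 : ℝ) : ℂ) v :=
    ((hasDerivAt_id v).const_mul (1/4 : ℝ)).ofReal_comp
  have h2 : HasDerivAt (fun v : ℝ => Complex.I * ((T / 2 : ℝ) : ℂ) * (v : ℂ)) (Complex.I * ((T / 2 : ℝ) : ℂ) * ((1 : ℝ) : ℂ)) v :=
    ((hasDerivAt_id v).ofReal_comp).const_mul _
  have h3 := (h1.add h2).sub (hd_exp63 y z v)
  rw [mul_one, Complex.ofReal_one, mul_one] at h3
  exact h3

private lemma hd_P63 (T y : ℝ) (z : ℂ) (v : ℝ) : HasDerivAt (P63 T y z) (-(((y * Real.exp v : ℝ) : ℂ) * z)) v := by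
  unfold P63
  have h3 := (hasDerivAt_const v (((1/4 : ℝ) : ℂ) + Complex.I * ((T / 2 : ℝ) : ℂ))).sub (hd_exp63 y z v)
  rw [zero_sub] at h3
  exact h3

private lemma norm_Ph63 {T y : ℝ} {z : ℂ} (hy : 0 ≤ y) (hz : 0 ≤ z.re) (v : ℝ) :
    ‖Complex.exp (Ph63 T y z v)‖ ≤ Real.exp (1/4 * v) := by
  rw [Complex.norm_exp]
  refine Real.exp_le_exp.2 ?_
  unfold Ph63
  rw [Complex.sub_re, Complex.add_re, Complex.ofReal_re, Complex.re_ofReal_mul]
  have e : (Complex.I * ((T / 2 : ℝ) : ℂ) * (v : ℂ)).re = 0 := by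
    have : Complex.I * ((T / 2 : ℝ) : ℂ) * (v : ℂ) = ((T / 2 * v : ℝ) : ℂ) * Complex.I := by push_cast; ring
    rw [this, Complex.re_ofReal_mul, Complex.I_re, mul_zero]
  rw [e]
  have : 0 ≤ y * Real.exp v * z.re := by positivity
  linarith

private lemma key63 {T η y : ℝ} (hT : 100 ≤ T) (hη : 2 / T ≤ η) (hη1 : η ≤ 1 / 24) (hηT : η ^ 2 * T ≤ 1) (hy : 0 < y)
    (hD : 4 / η ≤ |y - T / 2|) : ‖∫ v in (-η)..η, Complex.exp (Ph63 T y (zT T) v)‖ ≤ 14 / |y - T / 2| := by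
  have hT0 : 0 < T := by linarith
  have hη0 : 0 < η := lt_of_lt_of_le (by positivity) hη
  obtain ⟨hz0, -, hz2, hz3, hz4⟩ := zT_facts (T := T) (by linarith)
  have hzn : ‖zT T‖ = 1 := zT_norm T
  set z := zT T with hz
  set D := |y - T / 2| with hDdef
  have hD0 : 0 < D := lt_of_lt_of_le (by positivity) hD
  have hDη : 4 ≤ D * η := by rwa [div_le_iff₀ hη0] at hD
  have hηT1 : η * T ≤ D / 4 := by
    have h1 : η * (η * T) ≤ 1 := by nlinarith
    have h2 : η * (η * T) ≤ η * (D / 4) := by linarith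
    exact le_of_mul_le_mul_left h2 hη0
  have hyD : y ≤ T / 2 + D := by
    have := le_abs_self (y - T / 2)
    linarith
  have hηy : η * y ≤ D / 6 := by
    have h1 : η * y ≤ η * (T / 2 + D) := mul_le_mul_of_nonneg_left hyD hη0.le
    have h2 : η * D ≤ 1 / 24 * D := mul_le_mul_of_nonneg_right hη1 hD0.le
    nlinarith
  -- lower bound of the derivative of the phase
  have hP : ∀ v : ℝ, |v| ≤ η → D / 2 ≤ ‖P63 T y z v‖ := by
    intro v hv
    have h1 := exp_near63 hη1 hv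
    have h2 : |Real.exp v * z.im - 1| ≤ 3 * η := by
      have h3 : |Real.exp v * z.im - 1| ≤ |Real.exp v - 1| + Real.exp v * |z.im - 1| := by
        have e : Real.exp v * z.im - 1 = (Real.exp v - 1) + Real.exp v * (z.im - 1) := by ring
        rw [e]
        refine (abs_add_le _ _).trans ?_
        rw [abs_mul, abs_of_pos (Real.exp_pos v)]
      have h4 : |z.im - 1| ≤ 1 / T ^ 2 := by rw [abs_le]; constructor <;> linarith [show 0 ≤ 1 / T ^ 2 by positivity]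
      have h5 : 1 / T ^ 2 ≤ η / 200 := by
        have h6 : 2 / T * (1 / 200) ≤ η * (1 / 200) := mul_le_mul_of_nonneg_right hη (by norm_num)
        have h7 : 1 / T ^ 2 ≤ 2 / T * (1 / 200) := by
          rw [div_mul_div_comm, div_le_div_iff₀ (by positivity) (by positivity)]
          nlinarith
        linarith
      have h6 := exp_le_two63 hη1 hv
      have h7 : Real.exp v * |z.im - 1| ≤ 2 * (η / 200) :=
        mul_le_mul h6 (h4.trans h5) (abs_nonneg _) (by norm_num)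
      linarith
    have h3 : (P63 T y z v).im = T / 2 - y * (Real.exp v * z.im) := by
      unfold P63
      rw [Complex.sub_im, Complex.add_im, Complex.ofReal_im, Complex.im_ofReal_mul]
      have : (Complex.I * ((T / 2 : ℝ) : ℂ)).im = T / 2 := by
        rw [mul_comm, Complex.im_ofReal_mul, Complex.I_im, mul_one]
      rw [this]
      ring
    refine le_trans ?_ (Complex.abs_im_le_norm _)
    rw [h3]
    have h4 : D ≤ |T / 2 - y * (Real.exp v * z.im)| + y * |Real.exp v * z.im - 1| := by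
      have e : y - T / 2 = -(T / 2 - y * (Real.exp v * z.im)) + -(y * (Real.exp v * z.im - 1)) := by ring
      rw [hDdef, e]
      refine (abs_add_le _ _).trans ?_
      rw [abs_neg, abs_neg, abs_mul, abs_of_pos hy]
    have h5 : y * |Real.exp v * z.im - 1| ≤ y * (3 * η) := mul_le_mul_of_nonneg_left h2 hy.le
    nlinarith
  have hPne : ∀ v ∈ Set.uIcc (-η) η, P63 T y z v ≠ 0 := by
    intro v hv h0
    have h1 := hP v (mem63 hη0 hv)
    rw [h0, norm_zero] at h1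
    linarith
  have cPh : Continuous (Ph63 T y z) := by unfold Ph63; fun_prop
  have cP : Continuous (P63 T y z) := by unfold P63; fun_prop
  have cE : Continuous fun v => Complex.exp (Ph63 T y z v) := Complex.continuous_exp.comp cPh
  have cQ : Continuous fun v : ℝ => -(((y * Real.exp v : ℝ) : ℂ) * z) := by fun_prop
  -- the antiderivative
  have hG : ∀ v ∈ Set.uIcc (-η) η, HasDerivAt (fun v => Complex.exp (Ph63 T y z v) / P63 T y z v)
      (Complex.exp (Ph63 T y z v) - Complex.exp (Ph63 T y z v) * (-(((y * Real.exp v : ℝ) : ℂ) * z)) / P63 T y z v ^ 2) v := by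
    intro v hv
    have hne := hPne v hv
    have h1 : HasDerivAt (fun v => Complex.exp (Ph63 T y z v) / P63 T y z v)
        ((Complex.exp (Ph63 T y z v) * P63 T y z v * P63 T y z v -
          Complex.exp (Ph63 T y z v) * (-(((y * Real.exp v : ℝ) : ℂ) * z))) / P63 T y z v ^ 2) v :=
      ((hd_Ph63 T y z v).cexp).div (hd_P63 T y z v) hne
    have e : Complex.exp (Ph63 T y z v) - Complex.exp (Ph63 T y z v) * (-(((y * Real.exp v : ℝ) : ℂ) * z)) / P63 T y z v ^ 2 =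
        (Complex.exp (Ph63 T y z v) * P63 T y z v * P63 T y z v -
          Complex.exp (Ph63 T y z v) * (-(((y * Real.exp v : ℝ) : ℂ) * z))) / P63 T y z v ^ 2 := by
      rw [sub_div, mul_assoc, ← sq, mul_div_cancel_right₀ _ (pow_ne_zero 2 hne)]
    rw [e]
    exact h1
  have i1 : IntervalIntegrable (fun v => Complex.exp (Ph63 T y z v)) volume (-η) η := cE.intervalIntegrable _ _
  have i2 : IntervalIntegrable (fun v => Complex.exp (Ph63 T y z v) * (-(((y * Real.exp v : ℝ) : ℂ) * z)) / P63 T y z v ^ 2)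
      volume (-η) η := by
    refine ContinuousOn.intervalIntegrable ?_
    exact (cE.mul cQ).continuousOn.div (cP.pow 2).continuousOn fun v hv => pow_ne_zero 2 (hPne v hv)
  have hmain := intervalIntegral.integral_eq_sub_of_hasDerivAt hG (i1.sub i2)
  rw [intervalIntegral.integral_sub i1 i2] at hmain
  have hle : ∀ v : ℝ, |v| ≤ η → ‖Complex.exp (Ph63 T y z v)‖ ≤ 2 := by
    intro v hv
    refine (norm_Ph63 hy.le hz0.le v).trans (exp_le_two63 hη1 ?_)
    rw [abs_mul]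
    have : |(1 : ℝ) / 4| = 1 / 4 := abs_of_pos (by norm_num)
    rw [this]
    linarith [abs_nonneg v]
  have hb : ∀ v : ℝ, |v| ≤ η → ‖Complex.exp (Ph63 T y z v) / P63 T y z v‖ ≤ 4 / D := by
    intro v hv
    rw [norm_div, div_le_div_iff₀ (lt_of_lt_of_le (by positivity) (hP v hv)) hD0]
    have h1 := hle v hv
    have h2 := hP v hv
    have h3 := mul_le_mul_of_nonneg_right h1 hD0.le
    nlinarith
  have hint : ‖∫ v in (-η)..η, Complex.exp (Ph63 T y z v) * (-(((y * Real.exp v : ℝ) : ℂ) * z)) / P63 T y z v ^ 2‖ ≤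
      (16 * y / D ^ 2) * |η - (-η)| := by
    refine intervalIntegral.norm_integral_le_of_norm_le_const fun v hv => ?_
    have hv' := mem63 hη0 (Set.uIoc_subset_uIcc hv)
    have h1 := hle v hv'
    have h2 := hP v hv'
    have h3 : ‖-(((y * Real.exp v : ℝ) : ℂ) * z)‖ ≤ 2 * y := by
      rw [norm_neg, norm_mul, hzn, mul_one, Complex.norm_real, Real.norm_of_nonneg (by positivity)]
      have := exp_le_two63 hη1 hv'
      nlinarith
    have h4 : D ^ 2 / 4 ≤ ‖P63 T y z v‖ ^ 2 := by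
      have := pow_le_pow_left₀ (by positivity) h2 2
      linarith
    rw [norm_div, norm_mul, norm_pow]
    calc ‖Complex.exp (Ph63 T y z v)‖ * ‖-(((y * Real.exp v : ℝ) : ℂ) * z)‖ / ‖P63 T y z v‖ ^ 2
        ≤ (2 * (2 * y)) / (D ^ 2 / 4) := by
          refine div_le_div₀ (by positivity) (mul_le_mul h1 h3 (norm_nonneg _) (by norm_num)) (by positivity) h4
      _ = 16 * y / D ^ 2 := by field_simp; ring
  have e3 : |η - (-η)| = 2 * η := by rw [sub_neg_eq_add, ← two_mul, abs_of_pos (by positivity)]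
  rw [e3] at hint
  have hsum : ∫ v in (-η)..η, Complex.exp (Ph63 T y z v) =
      Complex.exp (Ph63 T y z η) / P63 T y z η - Complex.exp (Ph63 T y z (-η)) / P63 T y z (-η) +
      ∫ v in (-η)..η, Complex.exp (Ph63 T y z v) * (-(((y * Real.exp v : ℝ) : ℂ) * z)) / P63 T y z v ^ 2 := by
    rw [← hmain]
    ring
  rw [hsum]
  have h5 := hb η (by rw [abs_of_pos hη0])
  have h6 := hb (-η) (by rw [abs_neg, abs_of_pos hη0])
  have h7 : 16 * y / D ^ 2 * (2 * η) ≤ 6 / D := by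
    rw [div_mul_eq_mul_div, div_le_div_iff₀ (by positivity) hD0]
    nlinarith [mul_le_mul_of_nonneg_right hηy hD0.le]
  calc ‖Complex.exp (Ph63 T y z η) / P63 T y z η - Complex.exp (Ph63 T y z (-η)) / P63 T y z (-η) +
      ∫ v in (-η)..η, Complex.exp (Ph63 T y z v) * (-(((y * Real.exp v : ℝ) : ℂ) * z)) / P63 T y z v ^ 2‖
      ≤ (4 / D + 4 / D) + 6 / D := by
        refine (norm_add_le _ _).trans (add_le_add ((norm_sub_le _ _).trans (add_le_add h5 h6)) (hint.trans h7))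
    _ = 14 / D := by ring

lemma cv_atm_osc {T η lam : ℝ} (hT : 100 ≤ T) (hη : 2 / T ≤ η) (hη1 : η ≤ 1 / 24) (hηT : η ^ 2 * T ≤ 1) (hlam : 0 < lam) (u : ℝ)
    (hD : 4 / η ≤ |Real.pi * lam ^ 2 * Real.exp (-u) - T / 2|) :
    ‖cv η (T / 2) (atm lam (zT T)) u‖ ≤ 7 * Real.exp (-(1/4) * u) / (η * |Real.pi * lam ^ 2 * Real.exp (-u) - T / 2|) := by
  have hT0 : 0 < T := by linarith
  have hη0 : 0 < η := lt_of_lt_of_le (by positivity) hη
  have hk := key63 hT hη hη1 hηT (y := Real.pi * lam ^ 2 * Real.exp (-u)) (by positivity) hD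
  have hD0 : 0 < |Real.pi * lam ^ 2 * Real.exp (-u) - T / 2| := lt_of_lt_of_le (by positivity) hD
  set D := |Real.pi * lam ^ 2 * Real.exp (-u) - T / 2| with hDdef
  have e1 : ∀ v : ℝ, Complex.exp (Complex.I * ((T / 2 : ℝ) : ℂ) * v) * atm lam (zT T) (u - v) =
      ((Real.exp (-(1/4) * u) : ℝ) : ℂ) * Complex.exp (Ph63 T (Real.pi * lam ^ 2 * Real.exp (-u)) (zT T) v) := by
    intro v
    unfold atm Ph63
    have e2 : Real.exp (-(1/4) * (u - v)) = Real.exp (-(1/4) * u) * Real.exp (1/4 * v) := by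
      rw [← Real.exp_add]
      congr 1
      ring
    have e3 : Real.exp (-(u - v)) = Real.exp (-u) * Real.exp v := by
      rw [← Real.exp_add]
      congr 1
      ring
    rw [e2, e3, Complex.ofReal_mul, Complex.ofReal_exp (1/4 * v)]
    have e4 : Complex.exp (((1/4 * v : ℝ) : ℂ) + Complex.I * ((T / 2 : ℝ) : ℂ) * (v : ℂ) -
        ((Real.pi * lam ^ 2 * Real.exp (-u) * Real.exp v : ℝ) : ℂ) * zT T) =
        Complex.exp ((1/4 * v : ℝ) : ℂ) * (Complex.exp (Complex.I * ((T / 2 : ℝ) : ℂ) * (v : ℂ)) *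
          Complex.exp (-((Real.pi * lam ^ 2 * Real.exp (-u) * Real.exp v : ℝ) : ℂ) * zT T)) := by
      rw [← Complex.exp_add, ← Complex.exp_add]
      congr 1
      ring
    rw [e4]
    have e5 : -(Real.pi * (lam : ℂ) ^ 2 * ((Real.exp (-u) * Real.exp v : ℝ) : ℂ) * zT T) =
        -((Real.pi * lam ^ 2 * Real.exp (-u) * Real.exp v : ℝ) : ℂ) * zT T := by
      push_cast
      ring
    rw [e5]
    ring
  unfold cv
  rw [intervalIntegral.integral_congr (g := fun v : ℝ => ((Real.exp (-(1/4) * u) : ℝ) : ℂ) *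
    Complex.exp (Ph63 T (Real.pi * lam ^ 2 * Real.exp (-u)) (zT T) v)) (fun v _ => e1 v),
    intervalIntegral.integral_const_mul, norm_mul, norm_mul, Complex.norm_real, Complex.norm_real,
    Real.norm_of_nonneg (by positivity), Real.norm_of_nonneg (Real.exp_pos _).le]
  calc 1 / (2 * η) * (Real.exp (-(1/4) * u) *
      ‖∫ v in (-η)..η, Complex.exp (Ph63 T (Real.pi * lam ^ 2 * Real.exp (-u)) (zT T) v)‖)
      ≤ 1 / (2 * η) * (Real.exp (-(1/4) * u) * (14 / D)) :=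
        mul_le_mul_of_nonneg_left (mul_le_mul_of_nonneg_left hk (Real.exp_pos _).le) (by positivity)
    _ = 7 * Real.exp (-(1/4) * u) / (η * D) := by field_simp; ring

lemma cv_atm_pt {T η lam : ℝ} (hT : 100 ≤ T) (hη : 2 / T ≤ η) (hη1 : η ≤ 1 / 24) (hηT : η ^ 2 * T ≤ 1) (hlam : 0 < lam) (u : ℝ) :
    ‖cv η (T / 2) (atm lam (zT T)) u‖ ^ 2 ≤
      900 * (Real.exp (-(1/2) * u) / (1 + η ^ 2 * (Real.pi * lam ^ 2 * Real.exp (-u) - T / 2) ^ 2)) := by
  have hT0 : 0 < T := by linarith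
  have hη0 : 0 < η := lt_of_lt_of_le (by positivity) hη
  have eu : Real.exp (-(1/4) * u) ^ 2 = Real.exp (-(1/2) * u) := by
    rw [sq, ← Real.exp_add]
    congr 1
    ring
  have hE0 : 0 < Real.exp (-(1/2) * u) := Real.exp_pos _
  set E := Real.pi * lam ^ 2 * Real.exp (-u) - T / 2 with hE
  have hden : 0 < 1 + η ^ 2 * E ^ 2 := by positivity
  rw [← mul_div_assoc, le_div_iff₀ hden]
  rcases le_or_gt (4 / η) |E| with h | h
  · have h1 := cv_atm_osc hT hη hη1 hηT hlam u h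
    rw [← hE] at h1
    have hE1 : 0 < |E| := lt_of_lt_of_le (by positivity) h
    have hηE : 4 ≤ η * |E| := by
      rw [div_le_iff₀ hη0] at h
      linarith
    have h2 : ‖cv η (T / 2) (atm lam (zT T)) u‖ ^ 2 ≤ 49 * Real.exp (-(1/2) * u) / (η * |E|) ^ 2 := by
      refine (pow_le_pow_left₀ (norm_nonneg _) h1 2).trans (le_of_eq ?_)
      rw [div_pow, mul_pow, eu]
      norm_num
    have h3 : η ^ 2 * E ^ 2 = (η * |E|) ^ 2 := by rw [mul_pow, sq_abs]
    rw [h3]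
    have h4 : 0 < (η * |E|) ^ 2 := by positivity
    have h5 : 16 ≤ (η * |E|) ^ 2 := by nlinarith
    calc ‖cv η (T / 2) (atm lam (zT T)) u‖ ^ 2 * (1 + (η * |E|) ^ 2)
        ≤ 49 * Real.exp (-(1/2) * u) / (η * |E|) ^ 2 * (1 + (η * |E|) ^ 2) :=
          mul_le_mul_of_nonneg_right h2 (by positivity)
      _ ≤ 49 * Real.exp (-(1/2) * u) / (η * |E|) ^ 2 * (2 * (η * |E|) ^ 2) :=
          mul_le_mul_of_nonneg_left (by linarith) (by positivity)
      _ = 98 * Real.exp (-(1/2) * u) := by field_simp; ring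
      _ ≤ 900 * Real.exp (-(1/2) * u) := by linarith
  · have h1 := cv_atm_triv (a := T / 2) (lam := lam) hT hη0 hη1 u
    have h2 : ‖cv η (T / 2) (atm lam (zT T)) u‖ ^ 2 ≤ 4 * Real.exp (-(1/2) * u) := by
      refine (pow_le_pow_left₀ (norm_nonneg _) h1 2).trans (le_of_eq ?_)
      rw [mul_pow, eu]
      norm_num
    have hηE : η * |E| ≤ 4 := by
      rw [lt_div_iff₀ hη0] at h
      linarith
    have h3 : η ^ 2 * E ^ 2 ≤ 16 := by
      have e : η ^ 2 * E ^ 2 = (η * |E|) ^ 2 := by rw [mul_pow, sq_abs]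
      rw [e]
      have : 0 ≤ η * |E| := by positivity
      nlinarith
    calc ‖cv η (T / 2) (atm lam (zT T)) u‖ ^ 2 * (1 + η ^ 2 * E ^ 2)
        ≤ 4 * Real.exp (-(1/2) * u) * 17 := mul_le_mul h2 (by linarith) hden.le (by positivity)
      _ ≤ 900 * Real.exp (-(1/2) * u) := by linarith

end Pool.Agent.Helper57.DS
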