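import Pool.Agent.Helper57.DS.Dia

/-!
# DS-2: the diagonal terms (project DS, see Def.lean)

`T ≥ 100`, `2/T ≤ η ≤ 1/24`, `η² T ≤ 1`, `lam > 0`, `z = zT T` (`zT_facts`), `y = π lam² e^{-u}`, `D = |y - T/2|`.

`cv_atm_triv`: `‖atm (u-v)‖ ≤ e^{-(u-v)/4} ≤ 2 e^{-u/4}` (`norm_atm_le`).

`cv_atm_osc`: `cv η (T/2) (atm lam z) u = e^{-u/4} (1/2η) ∫_{-η}^{η} e^{φ(v)} dv`, `φ(v) = v/4 + iTv/2 - y e^v z`,
`φ' = 1/4 + iT/2 - y e^v z`, `φ'' = -y e^v z`, `‖e^{φ(v)}‖ = e^{v/4} exp(-y e^v Re z) ≤ 2`.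
`|Im φ'| = |T/2 - y e^v Im z| ≥ D - y|e^v Im z - 1| ≥ D - 3ηy ≥ D - 3η(T/2 + D) ≥ D/2` for `D ≥ 4/η` (`ηT ≤ 1/η ≤ D/4`, `3ηD ≤ D/8`).
Integrate by parts (`intervalIntegral.integral_mul_deriv_eq_deriv_mul`, or differentiate `e^φ/φ'` and use
`intervalIntegral.integral_eq_sub_of_hasDerivAt`: `(e^φ/φ')' = e^φ - e^φ φ''/φ'²`):
`‖∫ e^φ‖ ≤ 2·2/(D/2) + 2η·2·2y/(D/2)² = 8/D + 32ηy/D²`, `ηy ≤ ηT/2 + ηD ≤ D/8 + D/24 ≤ D/6`, so `≤ 14/D`,
`‖cv‖ ≤ e^{-u/4} 7/(ηD)` for `D ≥ 4/η`.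

`cv_atm_pt`: both together: `‖cv‖² ≤ e^{-u/2} · 900/(1 + η²D²)`: if `ηD ≤ 4` then `4 ≤ 4·17/(1+η²D²)`; else `49/(ηD)² ≤ 49·(17/16)/(1+η²D²)`.

`dia`: `y = π lam² x²` with `x = e^{-u/2}`, `|y - T/2| = |√π lam x - √(T/2)| (√π lam x + √(T/2)) ≥ |√π lam x - √(T/2)| √(T/2)`, so
`‖cv‖² ≤ 900 e^{-u/2}/(1 + (A e^{-u/2} - B)²)`, `A = η √(T/2) √π lam`, `B = η T/2`; antiderivative `-(2/A) arctan(A e^{-u/2} - B)`, or
substitution `x = e^{-u/2}`: `∫_ℝ e^{-u/2}/(1+(A e^{-u/2}-B)²) du = 2∫_0^∞ dx/(1+(Ax-B)²) ≤ 2π/A` (`integral_univ_inv_one_add_sq`).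
`2π·900/(√(π/2)) ≤ 5000`.
-/

open MeasureTheory Set Filter Topology
open Pool.Agent.Helper57.LH

namespace Pool.Agent.Helper57.DS

private lemma cv_continuous24 (η a : ℝ) {f : ℝ → ℂ} (hf : Continuous f) : Continuous (cv η a f) := by
  unfold cv
  refine continuous_const.mul ?_
  refine intervalIntegral.continuous_parametric_intervalIntegral_of_continuous' (f := fun u v : ℝ => Complex.exp (Complex.I * a * v) * f (u - v)) ?_ _ _
  fun_prop

/-- the integral of the model -/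
private lemma model24 {A : ℝ} (B : ℝ) (hA : 0 < A) :
    Integrable (fun u : ℝ => Real.exp (-(1/2) * u) / (1 + (A * Real.exp (-(1/2) * u) - B) ^ 2)) ∧
    ∫ u : ℝ, Real.exp (-(1/2) * u) / (1 + (A * Real.exp (-(1/2) * u) - B) ^ 2) ≤ 2 * Real.pi / A := by
  set F : ℝ → ℝ := fun u => -(2 / A) * Real.arctan (A * Real.exp (-(1/2) * u) - B) with hF
  have hd : ∀ u : ℝ, HasDerivAt F (Real.exp (-(1/2) * u) / (1 + (A * Real.exp (-(1/2) * u) - B) ^ 2)) u := by
    intro u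
    have h1 : HasDerivAt (fun u : ℝ => -(1/2) * u) (-(1/2)) u := by
      simpa using (hasDerivAt_id u).const_mul (-(1/2) : ℝ)
    have h2 := ((h1.exp.const_mul A).sub_const B).arctan.const_mul (-(2 / A))
    refine h2.congr_deriv ?_
    have h3 : (1 + (A * Real.exp (-(1/2) * u) - B) ^ 2) ≠ 0 := by positivity
    field_simp
  have hpos : ∀ u : ℝ, 0 ≤ Real.exp (-(1/2) * u) / (1 + (A * Real.exp (-(1/2) * u) - B) ^ 2) := fun u => by positivity
  have htop : Tendsto F atTop (𝓝 (-(2 / A) * Real.arctan (-B))) := by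
    have h1 : Tendsto (fun u : ℝ => Real.exp (-(1/2) * u)) atTop (𝓝 0) := by
      refine Real.tendsto_exp_atBot.comp ?_
      exact tendsto_id.const_mul_atTop_of_neg (by norm_num)
    have h2 : Tendsto (fun u : ℝ => A * Real.exp (-(1/2) * u) - B) atTop (𝓝 (A * 0 - B)) := (h1.const_mul A).sub_const B
    rw [mul_zero, zero_sub] at h2
    exact ((Real.continuous_arctan.tendsto _).comp h2).const_mul _
  have hbot : Tendsto F atBot (𝓝 (-(2 / A) * (Real.pi / 2))) := by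
    have h1 : Tendsto (fun u : ℝ => Real.exp (-(1/2) * u)) atBot atTop := by
      refine Real.tendsto_exp_atTop.comp ?_
      exact tendsto_id.const_mul_atBot_of_neg (by norm_num)
    have h2 : Tendsto (fun u : ℝ => A * Real.exp (-(1/2) * u) - B) atBot atTop :=
      tendsto_atTop_add_const_right _ (-B) (h1.const_mul_atTop hA)
    exact ((tendsto_nhds_of_tendsto_nhdsWithin Real.tendsto_arctan_atTop).comp h2).const_mul _
  have hcont : Continuous (fun u : ℝ => Real.exp (-(1/2) * u) / (1 + (A * Real.exp (-(1/2) * u) - B) ^ 2)) := by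
    refine Continuous.div (by fun_prop) (by fun_prop) fun u => ?_
    positivity
  have hint : Integrable (fun u : ℝ => Real.exp (-(1/2) * u) / (1 + (A * Real.exp (-(1/2) * u) - B) ^ 2)) := by
    refine integrable_of_intervalIntegral_norm_bounded (a := fun i : ℝ => -i) (b := fun i : ℝ => i) (l := atTop) (2 * Real.pi / A)
      (fun i => (hcont.integrableOn_Icc).mono_set Ioc_subset_Icc_self) tendsto_neg_atTop_atBot tendsto_id
      (Eventually.of_forall fun i => ?_)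
    have h1 : ∫ x in (-i)..i, ‖Real.exp (-(1/2) * x) / (1 + (A * Real.exp (-(1/2) * x) - B) ^ 2)‖ = F i - F (-i) := by
      have h2 : ∀ x : ℝ, ‖Real.exp (-(1/2) * x) / (1 + (A * Real.exp (-(1/2) * x) - B) ^ 2)‖ =
          Real.exp (-(1/2) * x) / (1 + (A * Real.exp (-(1/2) * x) - B) ^ 2) := fun x => Real.norm_of_nonneg (hpos x)
      simp only [h2]
      exact intervalIntegral.integral_eq_sub_of_hasDerivAt (fun x _ => hd x) (hcont.intervalIntegrable _ _)
    rw [h1]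
    have h2 : -(Real.pi / 2) < Real.arctan (A * Real.exp (-(1/2) * i) - B) := Real.neg_pi_div_two_lt_arctan _
    have h3 : Real.arctan (A * Real.exp (-(1/2) * (-i)) - B) < Real.pi / 2 := Real.arctan_lt_pi_div_two _
    have h4 : 0 < 2 / A := by positivity
    have h5 : 2 * Real.pi / A = 2 / A * Real.pi := by ring
    rw [h5]
    simp only [hF]
    nlinarith
  refine ⟨hint, ?_⟩
  rw [integral_of_hasDerivAt_of_tendsto hd hint hbot htop]
  have h1 : Real.arctan (-B) > -(Real.pi / 2) := Real.neg_pi_div_two_lt_arctan _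
  have h2 : 0 < 2 / A := by positivity
  have h3 : 2 * Real.pi / A = 2 / A * Real.pi := by ring
  rw [h3]
  nlinarith

/-- The diagonal bound. -/
theorem dia {T η lam : ℝ} (hT : 100 ≤ T) (hη : 2 / T ≤ η) (hη1 : η ≤ 1 / 24) (hηT : η ^ 2 * T ≤ 1) (hlam : 0 < lam) :
    Integrable (fun u => ‖cv η (T / 2) (atm lam (zT T)) u‖ ^ 2) ∧
    ∫ u, ‖cv η (T / 2) (atm lam (zT T)) u‖ ^ 2 ≤ 5000 / (lam * η * Real.sqrt T) := by
  have hT0 : 0 < T := by linarith
  have hη0 : 0 < η := lt_of_lt_of_le (by positivity) hη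
  have hsT : 0 < Real.sqrt T := Real.sqrt_pos.2 hT0
  set s := Real.sqrt (T / 2) with hs
  have hs0 : 0 < s := Real.sqrt_pos.2 (by positivity)
  have hs2 : s ^ 2 = T / 2 := Real.sq_sqrt (by positivity)
  set q := Real.sqrt Real.pi with hq
  have hq0 : 0 < q := Real.sqrt_pos.2 Real.pi_pos
  have hq2 : q ^ 2 = Real.pi := Real.sq_sqrt Real.pi_pos.le
  have hA : 0 < η * s * (q * lam) := by positivity
  obtain ⟨hm1, hm2⟩ := model24 (η * s ^ 2) hA
  have hle : ∀ u : ℝ, ‖cv η (T / 2) (atm lam (zT T)) u‖ ^ 2 ≤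
      900 * (Real.exp (-(1/2) * u) / (1 + (η * s * (q * lam) * Real.exp (-(1/2) * u) - η * s ^ 2) ^ 2)) := by
    intro u
    refine (cv_atm_pt hT hη hη1 hηT hlam u).trans ?_
    refine mul_le_mul_of_nonneg_left ?_ (by norm_num)
    refine div_le_div_of_nonneg_left (Real.exp_pos _).le (by positivity) ?_
    have h1 : Real.exp (-u) = Real.exp (-(1/2) * u) ^ 2 := by
      rw [← Real.exp_nat_mul]
      congr 1
      push_cast
      ring
    rw [h1, ← hq2, ← hs2]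
    set x := Real.exp (-(1/2) * u) with hx
    have hx0 : 0 < x := Real.exp_pos _
    have h2 : (η * s * (q * lam) * x - η * s ^ 2) ^ 2 = η ^ 2 * ((q * lam * x - s) ^ 2 * s ^ 2) := by ring
    have h3 : η ^ 2 * (q ^ 2 * lam ^ 2 * x ^ 2 - s ^ 2) ^ 2 = η ^ 2 * ((q * lam * x - s) ^ 2 * (q * lam * x + s) ^ 2) := by ring
    rw [h2, h3]
    have h4 : s ^ 2 ≤ (q * lam * x + s) ^ 2 := by
      refine pow_le_pow_left₀ hs0.le ?_ 2
      have : 0 < q * lam * x := by positivity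
      linarith
    have h5 : (q * lam * x - s) ^ 2 * s ^ 2 ≤ (q * lam * x - s) ^ 2 * (q * lam * x + s) ^ 2 :=
      mul_le_mul_of_nonneg_left h4 (sq_nonneg _)
    have h6 := mul_le_mul_of_nonneg_left h5 (sq_nonneg η)
    linarith
  have hi : Integrable (fun u => ‖cv η (T / 2) (atm lam (zT T)) u‖ ^ 2) := by
    refine (hm1.const_mul 900).mono' ?_ (Eventually.of_forall fun u => ?_)
    · exact (((cv_continuous24 η (T / 2) (atm_cont lam (zT T))).norm).pow 2).aestronglyMeasurable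
    · rw [Real.norm_of_nonneg (by positivity)]
      exact hle u
  refine ⟨hi, ?_⟩
  refine (integral_mono hi (hm1.const_mul 900) hle).trans ?_
  rw [integral_const_mul]
  refine (mul_le_mul_of_nonneg_left hm2 (by norm_num : (0 : ℝ) ≤ 900)).trans ?_
  have hsT2 : s = Real.sqrt T / Real.sqrt 2 := by rw [hs, Real.sqrt_div hT0.le]
  have h2 : 0 < Real.sqrt 2 := by positivity
  have h22 : Real.sqrt 2 ^ 2 = 2 := Real.sq_sqrt (by norm_num)
  have hval : 900 * (2 * Real.pi / (η * s * (q * lam))) = 1800 * (q * Real.sqrt 2) / (lam * η * Real.sqrt T) := by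
    rw [hsT2, ← hq2]
    field_simp
    ring
  rw [hval]
  refine div_le_div_of_nonneg_right ?_ (by positivity)
  have h3 : (q * Real.sqrt 2) ^ 2 ≤ (5000 / 1800) ^ 2 := by
    rw [mul_pow, hq2, h22]
    have := Real.pi_lt_d2
    norm_num
    linarith
  have h4 := abs_le_of_sq_le_sq h3 (by norm_num)
  have h5 := (abs_le.1 (abs_le_of_sq_le_sq' h3 (by norm_num) |> fun h => abs_le.2 h)).2
  linarith

end Pool.Agent.Helper57.DS
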