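import Pool.Agent.Helper57.DS.OffA

/-!
# DS-3: the off-diagonal terms (project DS, see Def.lean)

`z = zT T`, `lam, mu > 0`, `12 η max(lam², mu²) ≤ |lam² - mu²|`, `η ≤ 1/24`.

For fixed `v, v' ∈ [-η, η]`: substituting `x = e^{-u}` (`u ≤ 0` is `x ≥ 1`, as in `LH/SecMom` `lint_Fu`, `en_deriv`):
`∫_{u ≤ 0} atm lam z (u-v) conj(atm mu z (u-v')) du = e^{(v+v')/4} ∫_1^∞ x^{-1/2} exp(-w x) dx`, `w = π(lam² e^v z + mu² e^{v'} z̄)`,
`Re w > 0`, `‖w‖ ≥ |Im w| = π Im z |lam² e^v - mu² e^{v'}| ≥ π (1/2)(2/3)|lam² - mu²|` (`|e^v - 1| ≤ 2η`), so by `LH.osc_int` the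
modulus is `≤ e^{η/2}·2/‖w‖ ≤ 4/|lam² - mu²|`.
`off`: Fubini on `[-η,η]² × (-∞, 0]` (`‖atm lam z (u-v)‖ ≤ e^{1/96}·e^{-u/4} exp(-π lam² e^{-1/24} e^{-u} Re z)`, which is bounded by
an integrable function of `u ≤ 0`; everything is continuous), the phases have modulus one, `(1/2η)² ∫∫ 4/|lam²-mu²| = 4/|lam²-mu²|`.
-/

open MeasureTheory Set Filter Topology
open Pool.Agent.Helper57.LH

namespace Pool.Agent.Helper57.DS

private lemma atm_bound_h4 {η lam v u : ℝ} {z : ℂ} (hη1 : η ≤ 1 / 24) (hlam : 0 < lam) (hz : 0 < z.re)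
    (hv : |v| ≤ η) :
    ‖atm lam z (u - v)‖ ≤ 2 * Real.exp (-(1/4) * u) ∧
    ‖atm lam z (u - v)‖ ≤ 2 * Real.exp (-(1/4) * u) * (2 / (Real.pi * lam ^ 2 * z.re) * Real.exp u) := by
  have hv1 : v ≤ 1 / 24 := (le_abs_self v).trans (hv.trans hη1)
  have hv2 : -(1 / 24) ≤ v := by have := neg_abs_le v; linarith
  have hpi := Real.pi_pos
  have hK : 0 < Real.pi * lam ^ 2 * z.re := by positivity
  have hE : Real.exp (1 / 24 : ℝ) ≤ 2 := by
    calc Real.exp (1 / 24 : ℝ) ≤ Real.exp (1 / 2) := Real.exp_le_exp.2 (by norm_num)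
      _ ≤ 2 := by
        have h3 : Real.exp (1 / 2) ^ 2 = Real.exp 1 := by rw [← Real.exp_nat_mul]; norm_num
        have h4 := Real.exp_one_lt_d9
        nlinarith [Real.exp_pos (1 / 2)]
  have h1 : Real.exp (-(1/4) * (u - v)) ≤ 2 * Real.exp (-(1/4) * u) := by
    have e : -(1/4) * (u - v) = v / 4 + -(1/4) * u := by ring
    rw [e, Real.exp_add]
    refine mul_le_mul_of_nonneg_right ?_ (Real.exp_pos _).le
    exact (Real.exp_le_exp.2 (by linarith)).trans hE
  constructor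
  · exact (norm_atm_le hz.le _).trans h1
  · rw [norm_atm]
    refine mul_le_mul h1 ?_ (Real.exp_pos _).le (by positivity)
    have ht : 0 < Real.pi * lam ^ 2 * Real.exp (-(u - v)) * z.re := by positivity
    have h2 : Real.exp (-(Real.pi * lam ^ 2 * Real.exp (-(u - v)) * z.re)) ≤
        1 / (Real.pi * lam ^ 2 * Real.exp (-(u - v)) * z.re) := by
      rw [Real.exp_neg, ← one_div]
      exact one_div_le_one_div_of_le ht (by linarith [Real.add_one_le_exp (Real.pi * lam ^ 2 * Real.exp (-(u - v)) * z.re)])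
    refine h2.trans ?_
    have e1 : Real.exp (-(u - v)) = Real.exp v * Real.exp (-u) := by rw [← Real.exp_add]; ring_nf
    have e2 : Real.exp u * Real.exp (-u) = 1 := by rw [← Real.exp_add]; simp
    have h3 : 1 / 2 ≤ Real.exp v := by
      have h4 := Real.add_one_le_exp v
      linarith
    rw [e1, div_le_iff₀ (by positivity)]
    calc (1:ℝ) = (Real.exp u * Real.exp (-u)) * 1 := by rw [e2]; ring
      _ ≤ (Real.exp u * Real.exp (-u)) * (2 * Real.exp v) := by
          rw [e2]; linarith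
      _ = 2 / (Real.pi * lam ^ 2 * z.re) * Real.exp u * (Real.pi * lam ^ 2 * (Real.exp v * Real.exp (-u)) * z.re) := by
          field_simp

private noncomputable def G_h4 (a lam mu : ℝ) (z : ℂ) (u : ℝ) (p : ℝ × ℝ) : ℂ :=
  (Complex.exp (Complex.I * a * p.1) * atm lam z (u - p.1)) *
    starRingEnd ℂ (Complex.exp (Complex.I * a * p.2) * atm mu z (u - p.2))

private lemma phase_h4 (a v : ℝ) : ‖Complex.exp (Complex.I * a * v)‖ = 1 := by
  rw [show Complex.I * (a:ℂ) * (v:ℂ) = ((a * v : ℝ) : ℂ) * Complex.I by push_cast; ring]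
  exact Complex.norm_exp_ofReal_mul_I _

private lemma G_norm_h4 {η a lam mu u : ℝ} {z : ℂ} (hη1 : η ≤ 1 / 24) (hlam : 0 < lam) (hmu : 0 < mu) (hz : 0 < z.re)
    {p : ℝ × ℝ} (hp1 : |p.1| ≤ η) (hp2 : |p.2| ≤ η) :
    ‖G_h4 a lam mu z u p‖ ≤ 8 / (Real.pi * lam ^ 2 * z.re) * Real.exp ((1/2) * u) := by
  unfold G_h4
  rw [norm_mul, norm_mul, RCLike.norm_conj, norm_mul, phase_h4, phase_h4, one_mul, one_mul]
  have h1 := (atm_bound_h4 (u := u) hη1 hlam hz hp1).2
  have h2 := (atm_bound_h4 (u := u) hη1 hmu hz hp2).1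
  have hpi := Real.pi_pos
  refine (mul_le_mul h1 h2 (norm_nonneg _) (by positivity)).trans (le_of_eq ?_)
  have e : Real.exp ((1/2) * u) = Real.exp (-(1/4) * u) * Real.exp u * Real.exp (-(1/4) * u) := by
    rw [← Real.exp_add, ← Real.exp_add]; congr 1; ring
  rw [e]
  ring

private lemma G_cont_h4 (a lam mu : ℝ) (z : ℂ) : Continuous (fun q : ℝ × (ℝ × ℝ) => G_h4 a lam mu z q.1 q.2) := by
  unfold G_h4 atm
  fun_prop

/-- The off-diagonal bound. -/
theorem off {T η a lam mu : ℝ} (hT : 100 ≤ T) (hη : 0 < η) (hη1 : η ≤ 1 / 24) (hlam : 0 < lam) (hmu : 0 < mu) (hne : lam ≠ mu)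
    (hsep : 12 * η * max (lam ^ 2) (mu ^ 2) ≤ |lam ^ 2 - mu ^ 2|) :
    IntegrableOn (fun u => cv η a (atm lam (zT T)) u * starRingEnd ℂ (cv η a (atm mu (zT T)) u)) (Iic 0) ∧
    ‖∫ u in Iic (0:ℝ), cv η a (atm lam (zT T)) u * starRingEnd ℂ (cv η a (atm mu (zT T)) u)‖ ≤ 4 / |lam ^ 2 - mu ^ 2| := by
  obtain ⟨hz0, -, -, -, -⟩ := zT_facts (T := T) (by linarith)
  obtain ⟨z, hz⟩ : ∃ z, z = zT T := ⟨_, rfl⟩
  obtain ⟨P, hP⟩ : ∃ P : Measure (ℝ × ℝ), P = (volume.restrict (Ioc (-η) η)).prod (volume.restrict (Ioc (-η) η)) := ⟨_, rfl⟩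
  have hbox : ∀ᵐ p ∂P, |p.1| ≤ η ∧ |p.2| ≤ η := by
    rw [hP, Measure.prod_restrict]
    refine ae_restrict_of_forall_mem (measurableSet_Ioc.prod measurableSet_Ioc) ?_
    rintro ⟨x, y⟩ ⟨h1, h2⟩
    exact ⟨abs_le.2 ⟨h1.1.le, h1.2⟩, abs_le.2 ⟨h2.1.le, h2.2⟩⟩
  have hfin : IsFiniteMeasure P := by rw [hP]; infer_instance
  have hPr : P.real univ = (2 * η) * (2 * η) := by
    have h1 : ((volume.restrict (Ioc (-η) η)).prod (volume.restrict (Ioc (-η) η))).real univ =
        (volume.restrict (Ioc (-η) η)).real univ * (volume.restrict (Ioc (-η) η)).real univ := by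
      rw [← univ_prod_univ]
      exact measureReal_prod_prod univ univ
    have h2 : (volume.restrict (Ioc (-η) η)).real univ = 2 * η := by
      rw [measureReal_restrict_apply_univ, Real.volume_real_Ioc_of_le (by linarith)]
      ring
    rw [hP, h1, h2]
  have hcont := G_cont_h4 a lam mu z
  have hInt : Integrable (fun q : ℝ × (ℝ × ℝ) => G_h4 a lam mu z q.1 q.2) ((volume.restrict (Iic (0:ℝ))).prod P) := by
    have hb : Integrable (fun q : ℝ × (ℝ × ℝ) => (8 / (Real.pi * lam ^ 2 * z.re) * Real.exp ((1/2) * q.1)) * (1:ℝ))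
        ((volume.restrict (Iic (0:ℝ))).prod P) := by
      refine Integrable.mul_prod (f := fun u : ℝ => 8 / (Real.pi * lam ^ 2 * z.re) * Real.exp ((1/2) * u))
        (g := fun _ : ℝ × ℝ => (1:ℝ)) ?_ (integrable_const _)
      exact (integrableOn_exp_mul_Iic (by norm_num) 0).const_mul _
    refine hb.mono' hcont.aestronglyMeasurable ?_
    have h2 : ∀ᵐ q ∂((volume.restrict (Iic (0:ℝ))).prod P), |q.2.1| ≤ η ∧ |q.2.2| ≤ η :=
      Measure.quasiMeasurePreserving_snd.ae hbox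
    filter_upwards [h2] with q hq2
    rw [mul_one]
    exact G_norm_h4 hη1 hlam hmu (by rw [hz]; exact hz0) hq2.1 hq2.2
  have hcv : (fun u => cv η a (atm lam (zT T)) u * starRingEnd ℂ (cv η a (atm mu (zT T)) u)) = fun u =>
      (((1 / (2 * η) : ℝ) : ℂ) * ((1 / (2 * η) : ℝ) : ℂ)) * ∫ p, G_h4 a lam mu z u p ∂P := by
    funext u
    have h1 : ∫ p, G_h4 a lam mu z u p ∂P =
        (∫ v in Ioc (-η) η, Complex.exp (Complex.I * a * v) * atm lam z (u - v)) *
        ∫ v in Ioc (-η) η, starRingEnd ℂ (Complex.exp (Complex.I * a * v) * atm mu z (u - v)) := by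
      rw [hP]
      exact integral_prod_mul (μ := volume.restrict (Ioc (-η) η)) (ν := volume.restrict (Ioc (-η) η))
        (fun v : ℝ => Complex.exp (Complex.I * a * v) * atm lam z (u - v))
        (fun v : ℝ => starRingEnd ℂ (Complex.exp (Complex.I * a * v) * atm mu z (u - v)))
    rw [h1, integral_conj]
    unfold cv
    rw [intervalIntegral.integral_of_le (by linarith), intervalIntegral.integral_of_le (by linarith), map_mul,
      Complex.conj_ofReal, ← hz]
    ring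
  have hΔ : 0 < |lam ^ 2 - mu ^ 2| := by
    rw [abs_pos, sub_ne_zero]
    intro h
    exact hne ((sq_eq_sq₀ hlam.le hmu.le).1 h)
  rw [hcv]
  constructor
  · exact (hInt.integral_prod_left).const_mul _
  · rw [integral_const_mul, integral_integral_swap hInt]
    have hp : ∀ᵐ p ∂P, ‖∫ u in Iic (0:ℝ), G_h4 a lam mu z u p‖ ≤ 4 / |lam ^ 2 - mu ^ 2| := by
      filter_upwards [hbox] with p hp
      have h1 := pair_int (v := p.1) (v' := p.2) hT hlam hmu (hp.1.trans hη1) (hp.2.trans hη1) hne (by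
        refine le_trans ?_ hsep
        refine mul_le_mul_of_nonneg_right ?_ (le_max_of_le_left (sq_nonneg _))
        exact mul_le_mul_of_nonneg_left (max_le hp.1 hp.2) (by norm_num))
      have h2 : (fun u : ℝ => G_h4 a lam mu z u p) = fun u : ℝ =>
          (Complex.exp (Complex.I * a * p.1) * starRingEnd ℂ (Complex.exp (Complex.I * a * p.2))) *
            (atm lam z (u - p.1) * starRingEnd ℂ (atm mu z (u - p.2))) := by
        funext u
        unfold G_h4
        rw [map_mul]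
        ring
      rw [h2, integral_const_mul, norm_mul, norm_mul, RCLike.norm_conj, phase_h4, phase_h4, one_mul, one_mul, hz]
      exact h1.2
    have h3 := norm_integral_le_of_norm_le_const hp
    rw [norm_mul, norm_mul, Complex.norm_real, Real.norm_of_nonneg (by positivity)]
    rw [hPr] at h3
    calc 1 / (2 * η) * (1 / (2 * η)) * ‖∫ p, (∫ u in Iic (0:ℝ), G_h4 a lam mu z u p) ∂P‖
        ≤ 1 / (2 * η) * (1 / (2 * η)) * (4 / |lam ^ 2 - mu ^ 2| * (2 * η * (2 * η))) :=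
          mul_le_mul_of_nonneg_left h3 (by positivity)
      _ = 4 / |lam ^ 2 - mu ^ 2| := by field_simp

end Pool.Agent.Helper57.DS
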