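import Pool.Agent.Helper57.DS.CvA
import Pool.Agent.Helper57.DS.CvB
import Pool.Agent.Helper57.DS.DiaI
import Pool.Agent.Helper57.DS.Off

/-!
# DS-4: the finite L² bound on the half line (project DS, see Def.lean)

`L2_half`: expand the square, `dia` and `off` (same proof as `LH.L2_fin`, which is the model: there `g i j x`).
`half_gen`: `G = 2ω S + R` on `(-∞, 1]`, `cv_split`, `cv_bd` (`‖R(u-v)‖ ≤ M e^{(u+η)/4} ≤ 1.1 M e^{u/4}`), `‖a+b‖² ≤ 2‖a‖²+2‖b‖²`,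
`∫_{u ≤ 0} e^{u/2} = 2`.
-/

open MeasureTheory Set Filter Topology
open Pool.Agent.Helper57.LH

namespace Pool.Agent.Helper57.DS

/-- The finite bound. -/
noncomputable def fb {ι : Type*} [DecidableEq ι] (I : Finset ι) (lam c : ι → ℝ) (η T : ℝ) : ℝ :=
  ∑ i ∈ I, c i ^ 2 * (5000 / (lam i * η * Real.sqrt T)) +
    ∑ i ∈ I, ∑ j ∈ I, (if i = j then 0 else |c i| * |c j| * (4 / |lam i ^ 2 - lam j ^ 2|))

/-- `cv` of a finite sum of atoms. -/
lemma cv_atS33 {ι : Type*} (I : Finset ι) (lam c : ι → ℝ) (z : ℂ) (η a u : ℝ) :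
    cv η a (atS I lam c z) u = ∑ i ∈ I, (c i : ℂ) * cv η a (atm (lam i) z) u := by
  unfold cv atS
  have h1 : (fun v : ℝ => Complex.exp (Complex.I * a * v) * ∑ i ∈ I, (c i : ℂ) * atm (lam i) z (u - v)) =
      fun v : ℝ => ∑ i ∈ I, (c i : ℂ) * (Complex.exp (Complex.I * a * v) * atm (lam i) z (u - v)) := by
    funext v
    rw [Finset.mul_sum]
    exact Finset.sum_congr rfl fun i _ => by ring
  rw [h1, intervalIntegral.integral_finsetSum]
  · rw [Finset.mul_sum]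
    refine Finset.sum_congr rfl fun i _ => ?_
    rw [intervalIntegral.integral_const_mul]
    ring
  · intro i _
    apply Continuous.intervalIntegrable
    have h2 := atm_cont (lam i) z
    fun_prop

theorem L2_half {ι : Type*} [DecidableEq ι] (I : Finset ι) (lam c : ι → ℝ) {T η : ℝ}
    (hT : 100 ≤ T) (hη : 2 / T ≤ η) (hη1 : η ≤ 1 / 24) (hηT : η ^ 2 * T ≤ 1) (hlam : ∀ i ∈ I, 0 < lam i)
    (hinj : ∀ i ∈ I, ∀ j ∈ I, i ≠ j → lam i ≠ lam j)
    (hsep : ∀ i ∈ I, ∀ j ∈ I, i ≠ j → 12 * η * max (lam i ^ 2) (lam j ^ 2) ≤ |lam i ^ 2 - lam j ^ 2|) :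
    IntegrableOn (fun u => ‖cv η (T / 2) (atS I lam c (zT T)) u‖ ^ 2) (Iic 0) ∧
    ∫ u in Iic (0:ℝ), ‖cv η (T / 2) (atS I lam c (zT T)) u‖ ^ 2 ≤ fb I lam c η T := by
  have hη0 : 0 < η := lt_of_lt_of_le (by positivity) hη
  set q : ι → ℝ → ℂ := fun i u => cv η (T / 2) (atm (lam i) (zT T)) u with hq
  set g : ι → ι → ℝ → ℂ := fun i j u => ((c i * c j : ℝ) : ℂ) * (q i u * starRingEnd ℂ (q j u)) with hg
  have hexp : ∀ u : ℝ, ((‖cv η (T / 2) (atS I lam c (zT T)) u‖ ^ 2 : ℝ) : ℂ) = ∑ i ∈ I, ∑ j ∈ I, g i j u := by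
    intro u
    rw [cv_atS33]
    push_cast
    rw [← Complex.mul_conj', map_sum, Finset.sum_mul_sum]
    refine Finset.sum_congr rfl fun i _ => Finset.sum_congr rfl fun j _ => ?_
    rw [hg, hq]
    simp only [map_mul, Complex.conj_ofReal]
    push_cast
    ring
  have hii : ∀ i u, g i i u = ((c i ^ 2 * ‖q i u‖ ^ 2 : ℝ) : ℂ) := by
    intro i u
    rw [hg]
    simp only
    rw [Complex.mul_conj']
    push_cast
    ring
  have hdi : ∀ i ∈ I, IntegrableOn (g i i) (Iic 0) ∧ ‖∫ u in Iic (0:ℝ), g i i u‖ ≤ c i ^ 2 * (5000 / (lam i * η * Real.sqrt T)) := by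
    intro i hi
    obtain ⟨h1, h2⟩ := dia hT hη hη1 hηT (hlam i hi)
    have e : g i i = fun u => ((c i ^ 2 * ‖q i u‖ ^ 2 : ℝ) : ℂ) := funext (hii i)
    refine ⟨?_, ?_⟩
    · rw [e]
      exact (h1.integrableOn.const_mul (c i ^ 2)).ofReal
    · rw [e, integral_complex_ofReal, Complex.norm_real, integral_const_mul]
      have h3 : ∫ u in Iic (0:ℝ), ‖q i u‖ ^ 2 ≤ ∫ u, ‖q i u‖ ^ 2 :=
        setIntegral_le_integral h1 (Eventually.of_forall fun u => sq_nonneg _)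
      have h4 : 0 ≤ ∫ u in Iic (0:ℝ), ‖q i u‖ ^ 2 := integral_nonneg fun u => sq_nonneg _
      rw [Real.norm_of_nonneg (mul_nonneg (sq_nonneg _) h4)]
      exact mul_le_mul_of_nonneg_left (h3.trans h2) (sq_nonneg _)
  have hof : ∀ i ∈ I, ∀ j ∈ I, i ≠ j → IntegrableOn (g i j) (Iic 0) ∧
      ‖∫ u in Iic (0:ℝ), g i j u‖ ≤ |c i| * |c j| * (4 / |lam i ^ 2 - lam j ^ 2|) := by
    intro i hi j hj hij
    obtain ⟨h1, h2⟩ := off (a := T / 2) hT hη0 hη1 (hlam i hi) (hlam j hj) (hinj i hi j hj hij) (hsep i hi j hj hij)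
    refine ⟨h1.const_mul _, ?_⟩
    have e : ∫ u in Iic (0:ℝ), g i j u = ((c i * c j : ℝ) : ℂ) * ∫ u in Iic (0:ℝ), q i u * starRingEnd ℂ (q j u) :=
      integral_const_mul _ _
    rw [e, norm_mul, Complex.norm_real, Real.norm_eq_abs, abs_mul]
    exact mul_le_mul_of_nonneg_left h2 (by positivity)
  have hgi : ∀ i ∈ I, ∀ j ∈ I, IntegrableOn (g i j) (Iic 0) := by
    intro i hi j hj
    by_cases hij : i = j
    · subst hij
      exact (hdi i hi).1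
    · exact (hof i hi j hj hij).1
  have hSi : IntegrableOn (fun x => ∑ i ∈ I, ∑ j ∈ I, g i j x) (Iic 0) := by
    apply integrable_finsetSum
    intro i hi
    apply integrable_finsetSum
    intro j hj
    exact hgi i hi j hj
  have hmain : IntegrableOn (fun u : ℝ => ((‖cv η (T / 2) (atS I lam c (zT T)) u‖ ^ 2 : ℝ) : ℂ)) (Iic 0) := by
    have : (fun u : ℝ => ((‖cv η (T / 2) (atS I lam c (zT T)) u‖ ^ 2 : ℝ) : ℂ)) = fun x => ∑ i ∈ I, ∑ j ∈ I, g i j x := funext hexp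
    rw [this]
    exact hSi
  have hre : IntegrableOn (fun u => ‖cv η (T / 2) (atS I lam c (zT T)) u‖ ^ 2) (Iic 0) :=
    hmain.re.congr (Eventually.of_forall fun x => Complex.ofReal_re _)
  refine ⟨hre, ?_⟩
  have hval : ((∫ u in Iic (0:ℝ), ‖cv η (T / 2) (atS I lam c (zT T)) u‖ ^ 2 : ℝ) : ℂ)
      = ∑ i ∈ I, ∑ j ∈ I, ∫ x in Iic (0:ℝ), g i j x := by
    rw [← integral_complex_ofReal]
    rw [integral_congr_ae (Eventually.of_forall hexp), integral_finsetSum]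
    · refine Finset.sum_congr rfl fun i hi => ?_
      rw [integral_finsetSum]
      intro j hj
      exact hgi i hi j hj
    · intro i hi
      apply integrable_finsetSum
      intro j hj
      exact hgi i hi j hj
  have hnn : 0 ≤ ∫ u in Iic (0:ℝ), ‖cv η (T / 2) (atS I lam c (zT T)) u‖ ^ 2 := integral_nonneg fun u => sq_nonneg _
  rw [← Real.norm_of_nonneg hnn, ← Complex.norm_real, hval]
  refine (norm_sum_le _ _).trans ?_
  unfold fb
  rw [← Finset.sum_add_distrib]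
  refine Finset.sum_le_sum fun i hi => ?_
  refine (norm_sum_le _ _).trans ?_
  rw [← Finset.add_sum_erase I _ hi]
  refine add_le_add (hdi i hi).2 ?_
  rw [← Finset.add_sum_erase I (fun j => if i = j then (0:ℝ) else |c i| * |c j| * (4 / |lam i ^ 2 - lam j ^ 2|)) hi, if_pos rfl, zero_add]
  refine Finset.sum_le_sum fun j hj => ?_
  have hij : i ≠ j := fun h => (Finset.mem_erase.1 hj).1 h.symm
  rw [if_neg hij]
  exact (hof i hi j (Finset.mem_erase.1 hj).2 hij).2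

theorem half_gen {ι : Type*} [DecidableEq ι] (I : Finset ι) (lam c : ι → ℝ) {T η M : ℝ}
    (hT : 100 ≤ T) (hη : 2 / T ≤ η) (hη1 : η ≤ 1 / 24) (hηT : η ^ 2 * T ≤ 1) (hlam : ∀ i ∈ I, 0 < lam i)
    (hinj : ∀ i ∈ I, ∀ j ∈ I, i ≠ j → lam i ≠ lam j)
    (hsep : ∀ i ∈ I, ∀ j ∈ I, i ≠ j → 12 * η * max (lam i ^ 2) (lam j ^ 2) ≤ |lam i ^ 2 - lam j ^ 2|)
    {ω : ℂ} (hω : ‖ω‖ = 1) {G : ℝ → ℂ} (hG : Integrable G)
    (hR : ∀ u : ℝ, u ≤ 1 → ‖G u - 2 * ω * atS I lam c (zT T) u‖ ≤ M * Real.exp (1 / 4 * u)) :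
    ∫ u in Iic (0:ℝ), ‖cv η (T / 2) G u‖ ^ 2 ≤ 8 * fb I lam c η T + 5 * M ^ 2 := by
  have hη0 : 0 < η := lt_of_lt_of_le (by positivity) hη
  obtain ⟨h1, h2⟩ := L2_half I lam c hT hη hη1 hηT hlam hinj hsep
  have hM : 0 ≤ M := by
    have h3 := (norm_nonneg _).trans (hR 0 zero_le_one)
    rw [mul_zero, Real.exp_zero, mul_one] at h3
    exact h3
  have hexpi : IntegrableOn (fun u : ℝ => Real.exp ((1 / 2 : ℝ) * u)) (Iic 0) := integrableOn_exp_mul_Iic (by norm_num) 0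
  have hexpv : ∫ u in Iic (0:ℝ), Real.exp ((1 / 2 : ℝ) * u) = 2 := by
    rw [integral_exp_mul_Iic (by norm_num) 0]
    norm_num
  have hpt : ∀ u ∈ Iic (0:ℝ), ‖cv η (T / 2) G u‖ ^ 2 ≤
      8 * ‖cv η (T / 2) (atS I lam c (zT T)) u‖ ^ 2 + 5 / 2 * M ^ 2 * Real.exp ((1 / 2 : ℝ) * u) := by
    intro u hu
    have hu0 : u ≤ 0 := hu
    rw [cv_split hη0 (2 * ω) hG (atS_cont I lam c (zT T))]
    set A := cv η (T / 2) (atS I lam c (zT T)) u with hA
    have h4 : ‖cv η (T / 2) (fun x => G x - 2 * ω * atS I lam c (zT T) x) u‖ ≤ M * Real.exp (1 / 4 * (u + η)) := by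
      apply cv_bd hη0
      intro v hv
      have hv1 := abs_le.1 hv
      refine (hR (u - v) (by linarith)).trans ?_
      refine mul_le_mul_of_nonneg_left (Real.exp_le_exp.2 ?_) hM
      linarith
    set B := cv η (T / 2) (fun x => G x - 2 * ω * atS I lam c (zT T) x) u with hB
    have h5 : ‖2 * ω * A + B‖ ^ 2 ≤ 2 * ‖2 * ω * A‖ ^ 2 + 2 * ‖B‖ ^ 2 := by
      have h6 := norm_add_le (2 * ω * A) B
      have h7 : ‖2 * ω * A + B‖ ^ 2 ≤ (‖2 * ω * A‖ + ‖B‖) ^ 2 := by gcongr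
      nlinarith [sq_nonneg (‖2 * ω * A‖ - ‖B‖)]
    have h8 : ‖2 * ω * A‖ = 2 * ‖A‖ := by
      rw [norm_mul, norm_mul, hω, Complex.norm_ofNat, mul_one]
    have h9 : ‖B‖ ^ 2 ≤ 5 / 4 * M ^ 2 * Real.exp ((1 / 2 : ℝ) * u) := by
      have h10 : ‖B‖ ^ 2 ≤ (M * Real.exp (1 / 4 * (u + η))) ^ 2 := by gcongr
      have h11 : (M * Real.exp (1 / 4 * (u + η))) ^ 2 = M ^ 2 * (Real.exp (1 / 2 * η) * Real.exp ((1 / 2 : ℝ) * u)) := by
        rw [mul_pow, ← Real.exp_nat_mul, ← Real.exp_add]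
        congr 2
        push_cast
        ring
      have h12 : Real.exp (1 / 2 * η) ≤ 5 / 4 := by
        have h13 : Real.exp (1 / 2 * η) ≤ 1 / (1 - 1 / 2 * η) := by
          have := Real.exp_bound_div_one_sub_of_interval (x := 1 / 2 * η) (by positivity) (by linarith)
          exact this
        refine h13.trans ?_
        rw [div_le_iff₀ (by linarith)]
        linarith
      rw [h11] at h10
      refine h10.trans ?_
      have h14 : 0 ≤ M ^ 2 * Real.exp ((1 / 2 : ℝ) * u) := by positivity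
      nlinarith
    rw [h8] at h5
    nlinarith
  have hadd : IntegrableOn (fun u => 8 * ‖cv η (T / 2) (atS I lam c (zT T)) u‖ ^ 2 + 5 / 2 * M ^ 2 * Real.exp ((1 / 2 : ℝ) * u)) (Iic 0) :=
    (h1.const_mul 8).add (hexpi.const_mul (5 / 2 * M ^ 2))
  calc ∫ u in Iic (0:ℝ), ‖cv η (T / 2) G u‖ ^ 2
      ≤ ∫ u in Iic (0:ℝ), (8 * ‖cv η (T / 2) (atS I lam c (zT T)) u‖ ^ 2 + 5 / 2 * M ^ 2 * Real.exp ((1 / 2 : ℝ) * u)) :=
        setIntegral_mono_on (cv_sq_int hη0 hG).integrableOn hadd measurableSet_Iic hpt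
    _ = 8 * (∫ u in Iic (0:ℝ), ‖cv η (T / 2) (atS I lam c (zT T)) u‖ ^ 2) + 5 / 2 * M ^ 2 * 2 := by
        rw [integral_add (h1.const_mul 8) (hexpi.const_mul _), integral_const_mul, integral_const_mul, hexpv]
    _ ≤ 8 * fb I lam c η T + 5 * M ^ 2 := by linarith

end Pool.Agent.Helper57.DS
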