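import Pool.Agent.Helper57.DS.HSd

/-!
# DS-8: elementary facts on `HS` (project DS)

Everything is an adaptation of `LH/Conv.lean` (`HT_diff`, `HT_eq`, `HT_crude0`, `HT_crude`, `norm_exp_sq`), `LH/Energy.lean` (`HT_cont`,
`gauss_T`, `HT_int`, `edge_quarter`, `edge_right`, `exp162` with `T := W`) and `LH/LocA.lean` (`ET_le`). Here
`‖exp((σ + it - ic)²/W²)‖² = exp(2(σ² - (t-c)²)/W²)`.
* `HS_crude`: `‖(..)/(s+2)‖ ≤ 10 (1+‖s‖) XT P` (`HT_crude0` with `T := P`), `1+‖s‖ ≤ 10 + c + |t-c|`,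
  `(10 + c + |t-c|)² exp(-((t-c)/W)²) ≤ 2(10+c)² + 2W² ≤ 7c²`, `exp(162/W²) ≤ 3`.
* `HS_right`: `HS_eq`, `right_bound`, `∫ exp(-((t-c)/W)²) dt ≤ 2W` (`gauss_T` and translation).
* `HS_dom`: as `ET_le` (`|s.im| ≥ 1` since `|s.im - c| ≤ W + 5`, `W + 15 ≤ c`); the exponential factor is `≥ exp(-2(W+5)²/W²) ≥ e^{-32}`.
-/

open MeasureTheory Set Filter Topology Complex
open Pool.Agent.Helper57.LH Pool.Agent.Helper57.Zeta

namespace Pool.Agent.Helper57.DS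

lemma HS_diff (P c W : ℝ) : DifferentiableOn ℂ (HS P c W) {s | (-1:ℝ) < s.re} := by
  unfold HS
  have h1 := differentiable_Zt
  have h2 := differentiable_Mol (XT P)
  have h3 : ∀ s ∈ {s : ℂ | (-1:ℝ) < s.re}, s + 2 ≠ 0 := by
    intro s hs h
    have hs' : (-1:ℝ) < s.re := hs
    have := congrArg Complex.re h
    simp at this
    linarith
  apply DifferentiableOn.mul
  · apply DifferentiableOn.div
    · exact ((h1.mul h2).sub (by fun_prop)).differentiableOn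
    · fun_prop
    · exact h3
  · fun_prop

lemma HS_cont (P c W : ℝ) {σ : ℝ} (hσ : -1 < σ) : Continuous (fun t : ℝ => HS P c W (σ + t * I)) := by
  have hU : IsOpen {s : ℂ | (-1:ℝ) < s.re} := isOpen_lt continuous_const Complex.continuous_re
  rw [continuous_iff_continuousAt]
  intro t
  have h1 : ContinuousAt (HS P c W) (σ + t * I) := ((HS_diff P c W).continuousOn).continuousAt (hU.mem_nhds (by
    show -1 < (σ + t * I : ℂ).re
    simpa using hσ))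
  exact ContinuousAt.comp (f := fun t : ℝ => (σ + t * I : ℂ)) h1 (by fun_prop)

lemma norm_expS (c W σ t : ℝ) : ‖cexp ((σ + t * I - I * c) ^ 2 / W ^ 2)‖ = Real.exp ((σ ^ 2 - (t - c) ^ 2) / W ^ 2) := by
  have e : (σ + t * I - I * c : ℂ) = (σ : ℂ) + ((t - c : ℝ) : ℂ) * I := by
    push_cast
    ring
  rw [e]
  exact norm_exp_sq W σ (t - c)

lemma HS_eq {P c W : ℝ} {s : ℂ} (h0 : 0 < s.re) (h1 : s ≠ 1) :
    HS P c W s = (s - 1) / (s + 2) * (riemannZeta s * Mol (XT P) s - 1) * cexp ((s - I * c) ^ 2 / W ^ 2) := by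
  unfold HS
  rw [Zt_eq h0 h1]
  ring

/-- the square of the exponential factor -/
private lemma exp_sq45 {c W σ t : ℝ} (hW : 20 ≤ W) (h1 : 1 / 4 ≤ σ) (h2 : σ ≤ 9) :
    Real.exp ((σ ^ 2 - (t - c) ^ 2) / W ^ 2) ^ 2 ≤
      3 * (Real.exp (-((t - c) / W) ^ 2) * Real.exp (-((t - c) / W) ^ 2)) := by
  have hW0 : 0 < W := by linarith only [hW]
  refine le_trans ?_ (mul_le_mul_of_nonneg_right (exp162 hW) (by positivity))
  rw [← Real.exp_nat_mul, ← Real.exp_add, ← Real.exp_add]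
  apply Real.exp_le_exp.mpr
  have : σ ^ 2 ≤ 81 := by nlinarith only [h1, h2]
  have e : ((2:ℕ):ℝ) * ((σ ^ 2 - (t - c) ^ 2) / W ^ 2) =
      (2 * σ ^ 2) / W ^ 2 + (-((t - c) / W) ^ 2 + -((t - c) / W) ^ 2) := by
    push_cast; field_simp; ring
  rw [e]
  gcongr
  linarith only [this]

lemma HS_crude {P c W : ℝ} (hP : 1 < P) (hW : 20 ≤ W) (hc : W ≤ c) {σ t : ℝ} (h1 : 1 / 4 ≤ σ) (h2 : σ ≤ 9) :
    ‖HS P c W (σ + t * I)‖ ^ 2 ≤ 10 ^ 4 * XT P ^ 2 * c ^ 2 * Real.exp (-((t - c) / W) ^ 2) := by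
  have hW0 : 0 < W := by linarith only [hW]
  have hc0 : 0 < c := by linarith only [hW0, hc]
  have hX1 : 1 < XT P := Real.one_lt_rpow hP (by norm_num)
  have hX0 : 0 < XT P := by linarith only [hX1]
  have hre : (σ + t * I : ℂ).re = σ := by simp
  have him : (σ + t * I : ℂ).im = t := by simp
  have hA := HT_crude0 hP (s := σ + t * I) (by rw [hre]; exact h1)
  have hns : 1 + ‖(σ + t * I : ℂ)‖ ≤ 10 + c + |t - c| := by
    have h3 := Complex.norm_le_abs_re_add_abs_im (σ + t * I : ℂ)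
    rw [hre, him, abs_of_nonneg (by linarith only [h1] : 0 ≤ σ)] at h3
    have h4 : |t| ≤ |t - c| + |c| := by
      have h5 := abs_add_le (t - c) c
      rwa [sub_add_cancel] at h5
    rw [abs_of_pos hc0] at h4
    linarith only [h2, h3, h4]
  have hpoly : (10 + c + |t - c|) ^ 2 * Real.exp (-((t - c) / W) ^ 2) ≤ 7 * c ^ 2 := by
    have e1 : Real.exp (-((t - c) / W) ^ 2) ≤ 1 := Real.exp_le_one_iff.mpr (by
      have := sq_nonneg ((t - c) / W); linarith only [this])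
    have e2 : ((t - c) / W) ^ 2 * Real.exp (-((t - c) / W) ^ 2) ≤ 1 := by
      have h3 := Real.add_one_le_exp (((t - c) / W) ^ 2)
      rw [Real.exp_neg, ← div_eq_mul_inv, div_le_one (Real.exp_pos _)]
      linarith only [h3]
    have e3 : (10 + c + |t - c|) ^ 2 ≤ 2 * (10 + c) ^ 2 + 2 * (t - c) ^ 2 := by
      have := sq_abs (t - c)
      nlinarith only [this, sq_nonneg (10 + c - |t - c|)]
    have e4 : (t - c) ^ 2 * Real.exp (-((t - c) / W) ^ 2) ≤ W ^ 2 := by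
      have : (t - c) ^ 2 * Real.exp (-((t - c) / W) ^ 2) = W ^ 2 * (((t - c) / W) ^ 2 * Real.exp (-((t - c) / W) ^ 2)) := by
        field_simp
      rw [this]
      nlinarith only [e2, sq_nonneg W]
    have e5 := Real.exp_pos (-((t - c) / W) ^ 2)
    have e6 : W ^ 2 ≤ c ^ 2 := by nlinarith only [hW0, hc]
    have e7 : (10 + c) ^ 2 ≤ 9 / 4 * c ^ 2 := by nlinarith only [hW, hc]
    calc (10 + c + |t - c|) ^ 2 * Real.exp (-((t - c) / W) ^ 2)
        ≤ (2 * (10 + c) ^ 2 + 2 * (t - c) ^ 2) * Real.exp (-((t - c) / W) ^ 2) := by gcongr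
      _ = 2 * (10 + c) ^ 2 * Real.exp (-((t - c) / W) ^ 2) + 2 * ((t - c) ^ 2 * Real.exp (-((t - c) / W) ^ 2)) := by ring
      _ ≤ 2 * (10 + c) ^ 2 * 1 + 2 * W ^ 2 := by gcongr
      _ ≤ _ := by nlinarith only [e6, e7, sq_nonneg c]
  have he := exp_sq45 (c := c) (t := t) hW h1 h2
  unfold HS
  rw [norm_mul, mul_pow, norm_expS]
  have hu := Real.exp_pos (-((t - c) / W) ^ 2)
  calc ‖(Zt (σ + t * I) * Mol (XT P) (σ + t * I) - (σ + t * I - 1)) / (σ + t * I + 2)‖ ^ 2 *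
        Real.exp ((σ ^ 2 - (t - c) ^ 2) / W ^ 2) ^ 2
      ≤ (10 * (10 + c + |t - c|) * XT P) ^ 2 *
        (3 * (Real.exp (-((t - c) / W) ^ 2) * Real.exp (-((t - c) / W) ^ 2))) := by
        gcongr
        exact hA.trans (by gcongr)
    _ = 300 * XT P ^ 2 * ((10 + c + |t - c|) ^ 2 * Real.exp (-((t - c) / W) ^ 2)) * Real.exp (-((t - c) / W) ^ 2) := by ring
    _ ≤ 300 * XT P ^ 2 * (7 * c ^ 2) * Real.exp (-((t - c) / W) ^ 2) := by gcongr
    _ ≤ _ := by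
        have : 0 ≤ XT P ^ 2 * c ^ 2 * Real.exp (-((t - c) / W) ^ 2) := by positivity
        nlinarith only [this]

lemma gauss_c {c W : ℝ} (hW : 0 < W) : Integrable (fun t : ℝ => Real.exp (-((t - c) / W) ^ 2)) ∧
    ∫ t : ℝ, Real.exp (-((t - c) / W) ^ 2) ≤ 2 * W := by
  have hg := gauss_T hW
  refine ⟨hg.1.comp_sub_right c, ?_⟩
  rw [integral_sub_right_eq_self (fun t : ℝ => Real.exp (-(t / W) ^ 2)) c]
  exact hg.2

lemma HS_int {P c W : ℝ} (hP : 1 < P) (hW : 20 ≤ W) (hc : W ≤ c) {σ : ℝ} (h1 : 1 / 4 ≤ σ) (h2 : σ ≤ 9) :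
    Integrable (fun t : ℝ => ‖HS P c W (σ + t * I)‖ ^ 2) := by
  refine (((gauss_c (c := c) (W := W) (by linarith only [hW])).1).const_mul (10 ^ 4 * XT P ^ 2 * c ^ 2)).mono' ?_ ?_
  · exact ((HS_cont P c W (by linarith only [h1])).norm.pow 2).aestronglyMeasurable
  · refine Eventually.of_forall fun t => ?_
    rw [Real.norm_of_nonneg (by positivity)]
    exact HS_crude hP hW hc h1 h2

lemma HS_quarter {P c W : ℝ} (hP : 1 < P) (hW : 20 ≤ W) (hc : W ≤ c) :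
    ∫ t : ℝ, ‖HS P c W ((1 / 4 : ℝ) + t * I)‖ ^ 2 ≤ 2 * 10 ^ 4 * XT P ^ 2 * c ^ 2 * W := by
  have hg := gauss_c (c := c) (W := W) (by linarith only [hW])
  calc ∫ t : ℝ, ‖HS P c W ((1/4 : ℝ) + t * I)‖ ^ 2
      ≤ ∫ t : ℝ, (10 ^ 4 * XT P ^ 2 * c ^ 2) * Real.exp (-((t - c) / W) ^ 2) := by
        apply integral_mono (HS_int hP hW hc le_rfl (by norm_num)) (hg.1.const_mul _)
        intro t
        exact HS_crude hP hW hc le_rfl (by norm_num)
    _ = (10 ^ 4 * XT P ^ 2 * c ^ 2) * ∫ t : ℝ, Real.exp (-((t - c) / W) ^ 2) := integral_const_mul _ _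
    _ ≤ (10 ^ 4 * XT P ^ 2 * c ^ 2) * (2 * W) := by
        gcongr
        exact hg.2
    _ = _ := by ring

lemma HS_right {P c W : ℝ} (hP : 1 < P) (hW : 20 ≤ W) (hc : W ≤ c) {σ : ℝ} (h1 : 2 ≤ σ) (h2 : σ ≤ 9) :
    ∫ t : ℝ, ‖HS P c W (σ + t * I)‖ ^ 2 ≤ 6 * Z32 ^ 4 * (W * XT P ^ (-(1/2) : ℝ)) := by
  have hX1 : 1 < XT P := Real.one_lt_rpow hP (by norm_num)
  have hX0 : 0 < XT P := by linarith only [hX1]
  have hg := gauss_c (c := c) (W := W) (by linarith only [hW])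
  have hpt : ∀ t : ℝ, ‖HS P c W (σ + t * I)‖ ^ 2 ≤ (3 * Z32 ^ 4 * XT P ^ (-(1/2) : ℝ)) * Real.exp (-((t - c) / W) ^ 2) := by
    intro t
    have hne : (σ + t * I : ℂ) ≠ 1 := by
      intro h
      have := congrArg Complex.re h
      simp at this
      linarith only [h1, this]
    rw [HS_eq (by simp; linarith only [h1]) hne, norm_mul, norm_mul, norm_expS, norm_div]
    have hb := right_bound hX1 (s := σ + t * I) (by simpa using h1)
    have hs1 : ‖(σ + t * I : ℂ) - 1‖ ≤ ‖(σ + t * I : ℂ) + 2‖ := norm_sub_one_le_add_two (by simp; linarith only [h1])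
    have hs2 : ‖(σ + t * I : ℂ) - 1‖ / ‖(σ + t * I : ℂ) + 2‖ ≤ 1 := div_le_one_of_le₀ hs1 (norm_nonneg _)
    have hu := Real.exp_pos (-((t - c) / W) ^ 2)
    have he : Real.exp ((σ ^ 2 - (t - c) ^ 2) / W ^ 2) ^ 2 ≤ 3 * Real.exp (-((t - c) / W) ^ 2) := by
      refine (exp_sq45 (c := c) (t := t) hW (by linarith only [h1]) h2).trans ?_
      have e1 : Real.exp (-((t - c) / W) ^ 2) ≤ 1 := Real.exp_le_one_iff.mpr (by
        have := sq_nonneg ((t - c) / W); linarith only [this])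
      nlinarith only [hu, e1]
    calc (‖(σ + t * I : ℂ) - 1‖ / ‖(σ + t * I : ℂ) + 2‖ * ‖riemannZeta (σ + t * I) * Mol (XT P) (σ + t * I) - 1‖ *
          Real.exp ((σ ^ 2 - (t - c) ^ 2) / W ^ 2)) ^ 2
        ≤ (1 * (Z32 ^ 2 * XT P ^ (-(1/4) : ℝ)) * Real.exp ((σ ^ 2 - (t - c) ^ 2) / W ^ 2)) ^ 2 := by gcongr
      _ = Z32 ^ 4 * (XT P ^ (-(1/4) : ℝ)) ^ 2 * Real.exp ((σ ^ 2 - (t - c) ^ 2) / W ^ 2) ^ 2 := by ring
      _ ≤ Z32 ^ 4 * (XT P ^ (-(1/4) : ℝ)) ^ 2 * (3 * Real.exp (-((t - c) / W) ^ 2)) := by gcongr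
      _ = _ := by
          have : (XT P ^ (-(1/4) : ℝ)) ^ 2 = XT P ^ (-(1/2) : ℝ) := by
            rw [← Real.rpow_natCast, ← Real.rpow_mul hX0.le]; norm_num
          rw [this]; ring
  calc ∫ t : ℝ, ‖HS P c W (σ + t * I)‖ ^ 2
      ≤ ∫ t : ℝ, (3 * Z32 ^ 4 * XT P ^ (-(1/2) : ℝ)) * Real.exp (-((t - c) / W) ^ 2) := by
        exact integral_mono (HS_int hP hW hc (by linarith only [h1]) h2) (hg.1.const_mul _) hpt
    _ = (3 * Z32 ^ 4 * XT P ^ (-(1/2) : ℝ)) * ∫ t : ℝ, Real.exp (-((t - c) / W) ^ 2) := integral_const_mul _ _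
    _ ≤ (3 * Z32 ^ 4 * XT P ^ (-(1/2) : ℝ)) * (2 * W) := by
        gcongr
        exact hg.2
    _ = _ := by ring

lemma HS_dom {P c W : ℝ} (hP : 1 < P) (hW : 20 ≤ W) (hc : W + 15 ≤ c) {s : ℂ} (h0 : 0 < s.re) (h9 : s.re ≤ 9)
    (h : |s.im - c| ≤ W + 5) : ‖ET P s‖ ^ 2 ≤ KK * ‖HS P c W s‖ ^ 2 := by
  have hW0 : 0 < W := by linarith only [hW]
  have him : 10 ≤ s.im := by
    have := neg_abs_le (s.im - c)
    linarith only [this, h, hc]
  have hs1 : s ≠ 1 := by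
    intro h1
    have := congrArg Complex.im h1
    simp at this
    linarith only [him, this]
  have him2 : 1 ≤ s.im ^ 2 := by nlinarith only [him]
  have hA : ‖s + 2‖ ^ 2 ≤ 122 * ‖s - 1‖ ^ 2 := by
    rw [← Complex.normSq_eq_norm_sq, ← Complex.normSq_eq_norm_sq, Complex.normSq_apply, Complex.normSq_apply]
    simp only [Complex.add_re, Complex.add_im, Complex.re_ofNat, Complex.im_ofNat, add_zero,
      Complex.sub_re, Complex.sub_im, Complex.one_re, Complex.one_im, sub_zero]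
    nlinarith only [h9, him2, sq_nonneg (s.re - 1)]
  have hs2 : 0 < ‖s + 2‖ := by
    rw [norm_pos_iff]
    intro h
    have := congrArg Complex.re h
    simp at this
    linarith
  have hexp : Real.exp (-32) ≤ ‖cexp ((s - I * c) ^ 2 / W ^ 2)‖ ^ 2 := by
    have hse : s = (s.re : ℂ) + (s.im : ℂ) * I := (Complex.re_add_im s).symm
    have e1 : ‖cexp ((s - I * c) ^ 2 / W ^ 2)‖ = Real.exp ((s.re ^ 2 - (s.im - c) ^ 2) / W ^ 2) := by
      conv_lhs => rw [hse]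
      exact norm_expS c W s.re s.im
    rw [e1, ← Real.exp_nat_mul]
    apply Real.exp_le_exp.mpr
    have h5 : (s.im - c) ^ 2 ≤ 16 * W ^ 2 := by
      rw [← sq_abs]
      nlinarith only [hW, h, abs_nonneg (s.im - c)]
    have h6 : -16 ≤ (s.re ^ 2 - (s.im - c) ^ 2) / W ^ 2 := by
      rw [le_div_iff₀ (by positivity)]
      nlinarith only [h5, sq_nonneg s.re]
    push_cast
    linarith only [h6]
  rw [HS_eq h0 hs1]
  have e1 : ‖(s - 1) / (s + 2) * (riemannZeta s * Mol (XT P) s - 1) * cexp ((s - I * c) ^ 2 / W ^ 2)‖ ^ 2 =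
      (‖s - 1‖ ^ 2 / ‖s + 2‖ ^ 2) * ‖ET P s‖ ^ 2 * ‖cexp ((s - I * c) ^ 2 / W ^ 2)‖ ^ 2 := by
    rw [norm_mul, norm_mul, norm_div]
    unfold ET
    rw [mul_pow, mul_pow, div_pow]
  rw [e1]
  have hr : 1 / 122 ≤ ‖s - 1‖ ^ 2 / ‖s + 2‖ ^ 2 := by
    rw [le_div_iff₀ (by positivity)]
    linarith only [hA]
  unfold KK
  calc ‖ET P s‖ ^ 2 = 122 * (Real.exp 32 * Real.exp (-32)) * (1 / 122 * ‖ET P s‖ ^ 2) := by
        rw [← Real.exp_add]; norm_num; ring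
    _ = 122 * Real.exp 32 * (1 / 122 * ‖ET P s‖ ^ 2 * Real.exp (-32)) := by ring
    _ ≤ 122 * Real.exp 32 * (‖s - 1‖ ^ 2 / ‖s + 2‖ ^ 2 * ‖ET P s‖ ^ 2 * ‖cexp ((s - I * c) ^ 2 / W ^ 2)‖ ^ 2) := by
        gcongr

end Pool.Agent.Helper57.DS
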