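import Pool.Agent.Helper57.M.D

/-!
# DS-8a: the localised auxiliary function and the abstract energy structure (project DS)
-/

open MeasureTheory Set Filter Topology
open Pool.Agent.Helper57.LH Pool.Agent.Helper57.Zeta

namespace Pool.Agent.Helper57.DS

/-- The auxiliary function, localised at the height `c` with width `W`; the mollifier has length `X = XT P`, `P = X^40`. -/
noncomputable def HS (P c W : ℝ) (s : ℂ) : ℂ :=
  (Zt s * Mol (XT P) s - (s - 1)) / (s + 2) * Complex.exp ((s - Complex.I * c) ^ 2 / W ^ 2)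

/-- The hypotheses under which everything is proved. -/
structure Hyp (T0 A P c W : ℝ) : Prop where
  hc : T0 ≤ c
  hX : 3 ≤ XT P
  hXl : Real.log (2 * c) ^ 2 ≤ XT P
  hP1 : 3 ^ 40 ≤ P
  hP : P ≤ c / 2
  hW : Real.sqrt (2 * c) * XT P ^ 9 ≤ W
  hWc : W * Real.log c ≤ c
  hA : Real.log c ≤ A * Real.log (XT P)

/-- Abstract form of the energy bound. -/
structure En (P : ℝ) (H : ℂ → ℂ) (c W C : ℝ) : Prop where
  hP : 3 ^ 40 ≤ P
  hW : 1 ≤ W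
  hc : W + 15 ≤ c
  hC : 1 ≤ C
  diff : DifferentiableOn ℂ H {s | (-1:ℝ) < s.re}
  dom : ∀ s : ℂ, 0 < s.re → s.re ≤ 9 → |s.im - c| ≤ W + 5 → ‖ET P s‖ ^ 2 ≤ KK * ‖H s‖ ^ 2
  int : ∀ σ : ℝ, 1 / 4 ≤ σ → σ ≤ 9 → Integrable (fun t : ℝ => ‖H (σ + t * Complex.I)‖ ^ 2)
  ene : ∀ σ : ℝ, 1 / 2 - 1 / Real.log P ≤ σ → σ ≤ 9 → ∫ t : ℝ, ‖H (σ + t * Complex.I)‖ ^ 2 ≤ C * W * dec P σ

end Pool.Agent.Helper57.DS
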