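import Pool.Agent.Helper57.DS.HSh

/-!
# DS-10: the energy bound (project DS)

Copy of `LH.energy`: `three_lines` between `1/4`, `1/2` and `2`, with `HS_quarter`, `HS_half`, `HS_right`, `HS_crude` (bounded on the strip),
`HS_int`, `le_of_int`. Left of `1/2`: `(2·10⁴ X² c² W)^{1-θ} (C A W)^θ ≤ D W (c⁴)^{1-θ}`, `1-θ ≤ 4/log P`, `log P = 40 log X`,
`c^{16/log P} = exp(16 log c/(40 log X)) ≤ e^{0.4 A}`. Right of `1/2` as there (`dec`, `log P/120`, `XT P = exp(log P/40)`).
`en_HS`: the structure `En` from `HS_diff`, `HS_dom`, `HS_int`, `energyS` (the numerical side conditions `20 ≤ W`, `W + 15 ≤ c` follow from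
`Hyp` for `T0` large: `W ≥ √(2c)`, `W log c ≤ c`).
-/

open MeasureTheory Set Filter Topology Complex
open Pool.Agent.Helper57.LH Pool.Agent.Helper57.Zeta

namespace Pool.Agent.Helper57.DS

/-- the numerical side conditions -/
private lemma side74 {A P c W T0 : ℝ} (hT0 : 200 ≤ T0) (h : Hyp T0 A P c W) :
    20 ≤ W ∧ W + 15 ≤ c ∧ W ≤ c ∧ 1 < P ∧ 200 ≤ c := by
  have hc : 200 ≤ c := hT0.trans h.hc
  have hX : 1 ≤ XT P := by linarith only [h.hX]
  have h1 : 20 ≤ Real.sqrt (2 * c) := by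
    apply Real.le_sqrt_of_sq_le
    linarith only [hc]
  have h2 : (1:ℝ) ≤ XT P ^ 9 := one_le_pow₀ hX
  have h3 : 20 ≤ W := by
    calc (20:ℝ) ≤ Real.sqrt (2 * c) * 1 := by linarith only [h1]
      _ ≤ Real.sqrt (2 * c) * XT P ^ 9 := by gcongr
      _ ≤ W := h.hW
  have h4 : 2 ≤ Real.log c := by
    rw [Real.le_log_iff_exp_le (by linarith only [hc])]
    have e1 : Real.exp 2 = Real.exp 1 ^ 2 := by rw [← Real.exp_nat_mul]; norm_num
    have e2 := Real.exp_one_lt_d9
    have e3 := Real.exp_pos 1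
    rw [e1]
    nlinarith only [e2, e3, hc]
  have h5 : W * 2 ≤ c := by
    calc W * 2 ≤ W * Real.log c := by gcongr
      _ ≤ c := h.hWc
  have h6 : (3:ℝ) ^ 40 ≤ P := h.hP1
  have h7 : (1:ℝ) < 3 ^ 40 := by norm_num
  refine ⟨h3, by linarith only [h5, hc], by linarith only [h5, h3], by linarith only [h6, h7], hc⟩

theorem energyS (A : ℝ) (hA : 1 ≤ A) : ∃ C T0 : ℝ, 1 ≤ C ∧ ∀ P c W : ℝ, Hyp T0 A P c W →
    ∀ σ : ℝ, 1 / 2 - 1 / Real.log P ≤ σ → σ ≤ 9 → ∫ t : ℝ, ‖HS P c W (σ + t * I)‖ ^ 2 ≤ C * W * dec P σ := by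
  obtain ⟨C1, T1, hC1, hh⟩ := HS_half
  set D := 2 * 10 ^ 4 + C1 * A + 6 * Z32 ^ 4 with hD
  have hZ := Z32_pos
  have hCA : 0 < C1 * A := by positivity
  have hZ4 : 0 < 6 * Z32 ^ 4 := by positivity
  have hD1 : 1 ≤ D := by rw [hD]; linarith only [hCA, hZ4]
  have hD0 : 0 < D := by linarith only [hD1]
  have heA : 1 ≤ Real.exp (0.4 * A) := Real.one_le_exp (by linarith only [hA])
  refine ⟨D * Real.exp (0.4 * A), max T1 200, by nlinarith only [hD1, heA], ?_⟩
  intro P c W hyp σ h1 h2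
  obtain ⟨hW20, hc15, hWc, hP1, hc200⟩ := side74 (le_max_right _ _) hyp
  have hyp1 : Hyp T1 A P c W :=
    ⟨(le_max_left _ _).trans hyp.hc, hyp.hX, hyp.hXl, hyp.hP1, hyp.hP, hyp.hW, hyp.hWc, hyp.hA⟩
  have hhalf := hh A P c W hA hyp1
  have hW0 : 0 < W := by linarith only [hW20]
  have hc0 : 0 < c := by linarith only [hc200]
  have hP0 : 0 < P := by linarith only [hP1]
  have hlP : 40 ≤ Real.log P := by
    have h3 : Real.log (3 ^ 40) ≤ Real.log P := Real.log_le_log (by norm_num) hyp.hP1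
    rw [Real.log_pow] at h3
    have h4 : 1 ≤ Real.log 3 := by
      rw [Real.le_log_iff_exp_le (by norm_num)]
      have := Real.exp_one_lt_d9
      linarith only [this]
    push_cast at h3
    linarith only [h3, h4]
  have hlP0 : 0 < Real.log P := by linarith only [hlP]
  have hLinv : 1 / Real.log P ≤ 1 / 4 := one_div_le_one_div_of_le (by norm_num) (by linarith only [hlP])
  have hX1 : 1 < XT P := by linarith only [hyp.hX]
  have hX0 : 0 < XT P := by linarith only [hX1]
  have hXlog : XT P = Real.exp (Real.log P / 40) := by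
    unfold XT
    rw [Real.rpow_def_of_pos hP0]; ring_nf
  have hlX : Real.log (XT P) = Real.log P / 40 := by rw [hXlog, Real.log_exp]
  have hXc : XT P ≤ c := by
    have h3 : XT P ≤ P := by
      calc XT P = P ^ (1/40 : ℝ) := rfl
        _ ≤ P ^ (1:ℝ) := Real.rpow_le_rpow_of_exponent_le hP1.le (by norm_num)
        _ = P := Real.rpow_one P
    have h4 := hyp.hP
    linarith only [h3, h4, hc0]
  have hbd : ∀ s : ℂ, 1 / 4 ≤ s.re → s.re ≤ 9 → ‖HS P c W s‖ ≤ Real.sqrt (10 ^ 4 * XT P ^ 2 * c ^ 2) := by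
    intro s hs1 hs2
    apply Real.le_sqrt_of_sq_le
    have := HS_crude hP1 hW20 hWc (σ := s.re) (t := s.im) hs1 hs2
    rw [Complex.re_add_im] at this
    refine this.trans ?_
    have : Real.exp (-((s.im - c) / W) ^ 2) ≤ 1 :=
      Real.exp_le_one_iff.mpr (by have := sq_nonneg ((s.im - c) / W); linarith only [this])
    calc _ ≤ (10 ^ 4 * XT P ^ 2 * c ^ 2) * 1 := by gcongr
      _ = _ := mul_one _
  rcases le_or_gt σ (1/2) with hs | hs
  · -- left of the critical line
    have hdec : dec P σ = 1 := by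
      unfold dec
      rw [max_eq_right (by linarith only [hs]), min_eq_left (by norm_num)]
      simp
    rw [hdec, mul_one]
    apply le_of_int (HS_int hP1 hW20 hWc (by linarith only [h1, hLinv]) h2)
    intro K hK
    have h3 := three_lines (H := HS P c W) (c := -1) (l := 1/4) (u := 1/2) (by norm_num) (by norm_num) (HS_diff P c W)
      (Bd := Real.sqrt (10 ^ 4 * XT P ^ 2 * c ^ 2)) (fun s hs1 hs2 => hbd s hs1 (by linarith only [hs2]))
      (A := 2 * 10 ^ 4 * XT P ^ 2 * c ^ 2 * W) (B := C1 * A * W)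
      (HS_int hP1 hW20 hWc le_rfl (by norm_num)) (HS_quarter hP1 hW20 hWc)
      (HS_int hP1 hW20 hWc (by norm_num) (by norm_num)) hhalf
      (σ := σ) (by linarith only [h1, hLinv]) hs (K := K) (by linarith only [hK])
    refine h3.trans ?_
    set θ := (σ - 1/4) / (1/2 - 1/4) with hθ
    have hθ0 : 0 ≤ θ := div_nonneg (by linarith only [h1, hLinv]) (by norm_num)
    have hθ1 : θ ≤ 1 := by rw [hθ, div_le_one (by norm_num)]; linarith only [hs]
    have hθ2 : 1 - θ ≤ 4 / Real.log P := by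
      rw [hθ]
      have : (σ - 1/4) / (1/2 - 1/4) = 4 * σ - 1 := by ring
      rw [this]
      have : 4 / Real.log P = 4 * (1 / Real.log P) := by ring
      rw [this]; linarith only [h1]
    have hb1 : 2 * 10 ^ 4 * XT P ^ 2 * c ^ 2 * W ≤ D * W * c ^ (4:ℝ) := by
      have e1 : c ^ (4:ℝ) = c ^ 2 * c ^ 2 := by
        rw [show (c ^ (4:ℝ) : ℝ) = c ^ 4 by norm_cast]; ring
      rw [e1]
      have e2 : XT P ^ 2 ≤ c ^ 2 := by gcongr
      have e3 : 2 * 10 ^ 4 ≤ D := by rw [hD]; linarith only [hCA, hZ4]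
      calc 2 * 10 ^ 4 * XT P ^ 2 * c ^ 2 * W ≤ D * c ^ 2 * c ^ 2 * W := by gcongr
        _ = _ := by ring
    have hb2 : C1 * A * W ≤ D * W := by
      have e3 : C1 * A ≤ D := by rw [hD]; linarith only [hZ4]
      gcongr
    calc (2 * 10 ^ 4 * XT P ^ 2 * c ^ 2 * W) ^ (1 - θ) * (C1 * A * W) ^ θ
        ≤ (D * W * c ^ (4:ℝ)) ^ (1 - θ) * (D * W) ^ θ := by
          have : 0 ≤ 1 - θ := by linarith only [hθ1]
          gcongr
      _ = D * W * c ^ (4 * (1 - θ)) := by
          rw [Real.mul_rpow (by positivity) (by positivity), ← Real.rpow_mul hc0.le]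
          have e2 : (D * W) ^ (1 - θ) * (D * W) ^ θ = D * W := by
            rw [← Real.rpow_add (by positivity)]; simp
          calc (D * W) ^ (1 - θ) * c ^ (4 * (1 - θ)) * (D * W) ^ θ = ((D * W) ^ (1 - θ) * (D * W) ^ θ) * c ^ (4 * (1 - θ)) := by ring
            _ = _ := by rw [e2]
      _ ≤ D * W * Real.exp (0.4 * A) := by
          gcongr
          rw [Real.rpow_def_of_pos hc0]
          apply Real.exp_le_exp.mpr
          have hlc : 0 ≤ Real.log c := Real.log_nonneg (by linarith only [hc200])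
          have e4 : Real.log c ≤ A * (Real.log P / 40) := by
            have := hyp.hA
            rwa [hlX] at this
          calc Real.log c * (4 * (1 - θ)) ≤ Real.log c * (4 * (4 / Real.log P)) := by gcongr
            _ ≤ (A * (Real.log P / 40)) * (4 * (4 / Real.log P)) := by gcongr
            _ = 0.4 * A := by field_simp; norm_num
      _ = _ := by ring
  · rcases le_or_gt σ 2 with hs2 | hs2
    · have hdec : dec P σ = Real.exp (-(Real.log P / 120 * (σ - 1/2))) := by
        unfold dec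
        rw [max_eq_left (by linarith only [hs]), min_eq_left (by linarith only [hs2])]
      apply le_of_int (HS_int hP1 hW20 hWc (by linarith only [h1, hLinv]) h2)
      intro K hK
      have h3 := three_lines (H := HS P c W) (c := -1) (l := 1/2) (u := 2) (by norm_num) (by norm_num) (HS_diff P c W)
        (Bd := Real.sqrt (10 ^ 4 * XT P ^ 2 * c ^ 2))
        (fun s hs1 hs2 => hbd s (by linarith only [hs1]) (by linarith only [hs2]))
        (A := C1 * A * W) (B := 6 * Z32 ^ 4 * (W * XT P ^ (-(1/2) : ℝ)))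
        (HS_int hP1 hW20 hWc (by norm_num) (by norm_num)) hhalf
        (HS_int hP1 hW20 hWc (by norm_num) (by norm_num)) (HS_right hP1 hW20 hWc le_rfl (by norm_num))
        (σ := σ) (by linarith only [hs]) hs2 (K := K) (by linarith only [hK])
      refine h3.trans ?_
      set θ := (σ - 1/2) / (2 - 1/2) with hθ
      have hθ0 : 0 ≤ θ := div_nonneg (by linarith only [hs]) (by norm_num)
      have hθ1 : θ ≤ 1 := by rw [hθ, div_le_one (by norm_num)]; linarith only [hs2]
      have hb2 : C1 * A * W ≤ D * W := by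
        have e3 : C1 * A ≤ D := by rw [hD]; linarith only [hZ4]
        gcongr
      have hb3 : 6 * Z32 ^ 4 * (W * XT P ^ (-(1/2) : ℝ)) ≤ D * (W * XT P ^ (-(1/2) : ℝ)) := by
        have e3 : 6 * Z32 ^ 4 ≤ D := by rw [hD]; linarith only [hCA]
        gcongr
      calc (C1 * A * W) ^ (1 - θ) * (6 * Z32 ^ 4 * (W * XT P ^ (-(1/2) : ℝ))) ^ θ
          ≤ (D * W) ^ (1 - θ) * (D * (W * XT P ^ (-(1/2) : ℝ))) ^ θ := by
            have : 0 ≤ 1 - θ := by linarith only [hθ1]
            gcongr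
        _ = D * W * (XT P ^ (-(1/2) : ℝ)) ^ θ := by
            rw [show D * (W * XT P ^ (-(1/2) : ℝ)) = (D * W) * XT P ^ (-(1/2) : ℝ) by ring,
              Real.mul_rpow (x := D * W) (y := XT P ^ (-(1/2) : ℝ)) (by positivity) (by positivity)]
            have e2 : (D * W) ^ (1 - θ) * (D * W) ^ θ = D * W := by
              rw [← Real.rpow_add (by positivity)]; simp
            calc (D * W) ^ (1 - θ) * ((D * W) ^ θ * (XT P ^ (-(1/2) : ℝ)) ^ θ) = ((D * W) ^ (1 - θ) * (D * W) ^ θ) * (XT P ^ (-(1/2) : ℝ)) ^ θ := by ring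
              _ = _ := by rw [e2]
        _ = D * W * dec P σ := by
            rw [hdec, ← Real.rpow_mul hX0.le, hXlog, ← Real.exp_mul]
            congr 2
            rw [hθ]; ring
        _ ≤ D * Real.exp (0.4 * A) * W * dec P σ := by
            have : 0 < dec P σ := Real.exp_pos _
            have h7 : D * W ≤ D * Real.exp (0.4 * A) * W := by nlinarith only [hW0, heA, hD0, mul_pos hD0 hW0]
            gcongr
    · have hdec : dec P σ = Real.exp (-(Real.log P / 120 * (3/2))) := by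
        unfold dec
        rw [max_eq_left (by linarith only [hs]), min_eq_right (by linarith only [hs2])]
      refine (HS_right hP1 hW20 hWc hs2.le h2).trans ?_
      have hXX : XT P ^ (-(1/2) : ℝ) = dec P σ := by
        rw [hdec, hXlog, ← Real.exp_mul]
        congr 1
        ring
      rw [hXX]
      have : 0 < dec P σ := Real.exp_pos _
      have hz2 : 6 * Z32 ^ 4 ≤ D * Real.exp (0.4 * A) := by
        calc 6 * Z32 ^ 4 ≤ D * 1 := by rw [hD]; linarith only [hCA]
          _ ≤ D * Real.exp (0.4 * A) := by gcongr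
      calc 6 * Z32 ^ 4 * (W * dec P σ) ≤ (D * Real.exp (0.4 * A)) * (W * dec P σ) := by
            gcongr
        _ = _ := by ring

theorem en_HS (A : ℝ) (hA : 1 ≤ A) : ∃ C T0 : ℝ, 1 ≤ C ∧ ∀ P c W : ℝ, Hyp T0 A P c W → En P (HS P c W) c W C := by
  obtain ⟨C, T1, hC, h⟩ := energyS A hA
  refine ⟨C, max T1 200, hC, ?_⟩
  intro P c W hyp
  obtain ⟨hW20, hc15, hWc, hP1, hc200⟩ := side74 (le_max_right _ _) hyp
  have hyp1 : Hyp T1 A P c W :=
    ⟨(le_max_left _ _).trans hyp.hc, hyp.hX, hyp.hXl, hyp.hP1, hyp.hP, hyp.hW, hyp.hWc, hyp.hA⟩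
  exact ⟨hyp.hP1, by linarith only [hW20], hc15, hC, HS_diff P c W,
    fun s h0 h9 him => HS_dom hP1 hW20 hc15 h0 h9 him,
    fun σ h1 h2 => HS_int hP1 hW20 hWc h1 h2, fun σ h1 h2 => h P c W hyp1 σ h1 h2⟩

end Pool.Agent.Helper57.DS
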