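import Pool.Agent.Helper57.DS.Sec
import Pool.Agent.Helper57.DS.CvA

/-!
# DS-7: the mollified second moment in short intervals (project DS, see Def.lean)

Put `K = ⌈√T X⌉`, `a = T/2`, `z = zT T`. `∫_ℝ ‖cv (Fu X z)‖² = ∫_{u ≤ 0} ‖cv (Fu X z) u‖² + ∫_{u ≤ 0} ‖cv (Fu X z) (-u)‖²` and
`‖cv (Fu X z) (-u)‖ = ‖cv G u‖`, `G u = conj (Fu X z (-u))` (`cv_refl`).
Apply `half_gen` to `Fu X z` (`tail1`, `ω = 1`) and to `G` (`tail2`; conjugation: `conj (atm lam z⁻¹ u) = atm lam z u` because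
`z⁻¹ = conj z`; `ω = conj (z^{-1/2})`, norm one by `LH.norm_z_pow`); integrability `LH.Fu_integrable`.
Separation: `N ≠ M ≤ K`: `|N² - M²| ≥ N + M ≥ max`, and `12 η K ≤ 1`; for `Iq`: `|λ² - μ²| = |λ-μ|(λ+μ) ≥ max(λ,μ)/X²` (`Iq_inj`),
`max(λ, μ) ≤ K`, `12 η K X² ≤ 1` because `η √T X⁹ ≤ 1`, `K ≤ 2√T X`, `X⁶ ≥ 3⁶ ≥ 24`.
`fb ≤ (C/(η√T)) (log T/log X) + C X⁸ log² T` by the sums; `X⁸ log² T ≤ X⁹ ≤ 1/(η√T)`.
Then `cv_up` (`a = T/2`), `LH.FT_lower` (`t ∈ [T - 1/η, T + 1/η] ⊆ [T/2, 3T/2]`, `e^{-2(t/T)²} ≥ e^{-9/2}`), substitution `τ = -t/2`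
as in `LH.second_moment`.
-/

open MeasureTheory Set Filter Topology
open Pool.Agent.Helper57.LH

namespace Pool.Agent.Helper57.DS

/-- **The mollified second moment in short intervals.** -/
theorem sec : ∃ C T0 : ℝ, 0 < C ∧ ∀ T X η : ℝ, T0 ≤ T → 3 ≤ X → Real.log T ^ 2 ≤ X → X ^ 40 ≤ T → 2 / T ≤ η →
    η * Real.sqrt T * X ^ 9 ≤ 1 →
    ∫ t in (T - 1 / η)..(T + 1 / η), ‖riemannZeta (1 / 2 + Complex.I * t) * Mol X (1 / 2 + Complex.I * t)‖ ^ 2 ≤
      C * (1 / η) * (Real.log T / Real.log X) := by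
  obtain ⟨C1, T1, hC1, h1⟩ := cvF_sq
  refine ⟨16 * Real.pi * Real.exp (9 / 2) * C1, max T1 2, by positivity, ?_⟩
  intro T X η hT hX hlog hX40 hη hηX
  have hT1 : T1 ≤ T := (le_max_left _ _).trans hT
  have hT2 : 2 ≤ T := (le_max_right _ _).trans hT
  have hT0 : 0 < T := by linarith
  have hη0 : 0 < η := lt_of_lt_of_le (by positivity) hη
  have hηi0 : 0 < 1 / η := by positivity
  have hηi : 1 / η ≤ T / 2 := by
    rw [div_le_iff₀ hη0]
    have h2 := mul_le_mul_of_nonneg_left hη hT0.le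
    have h3 : T * (2 / T) = 2 := by field_simp
    nlinarith
  have hre : 0 < (zT T).re := (zT_facts hT2).1
  have hFi := Fu_integrable hre X
  have hcv := cv_up (a := T / 2) hη0 hFi
  have hsq := h1 T X η hT1 hX hlog hX40 hη hηX
  have hcont : Continuous (fun t : ℝ => ‖FT (Fu X (zT T)) (-(t / 2))‖ ^ 2) := by
    have := continuous_FT hFi
    fun_prop
  have hcontτ : Continuous (fun τ : ℝ => ‖FT (Fu X (zT T)) τ‖ ^ 2) := by
    have := continuous_FT hFi
    fun_prop
  have hle : T - 1 / η ≤ T + 1 / η := by linarith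
  have hsub : ∫ t in (T - 1 / η)..(T + 1 / η), ‖FT (Fu X (zT T)) (-(t / 2))‖ ^ 2 =
      2 * ∫ τ in (-((T + 1 / η) / 2))..(-((T - 1 / η) / 2)), ‖FT (Fu X (zT T)) τ‖ ^ 2 := by
    have h1 := intervalIntegral.integral_comp_mul_left (a := T - 1 / η) (b := T + 1 / η)
      (fun τ => ‖FT (Fu X (zT T)) τ‖ ^ 2) (c := -(1/2)) (by norm_num)
    have h2 : ∀ t : ℝ, -(1/2) * t = -(t / 2) := fun t => by ring
    simp_rw [h2] at h1
    rw [h1, intervalIntegral.integral_symm]
    rw [smul_eq_mul]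
    norm_num
  have hmono : ∫ τ in (-((T + 1 / η) / 2))..(-((T - 1 / η) / 2)), ‖FT (Fu X (zT T)) τ‖ ^ 2 ≤
      ∫ τ in (-(T / 2) - 1 / η)..(-(T / 2) + 1 / η), ‖FT (Fu X (zT T)) τ‖ ^ 2 := by
    apply intervalIntegral.integral_mono_interval
    · linarith
    · linarith
    · linarith
    · exact Filter.Eventually.of_forall fun τ => by positivity
    · exact hcontτ.intervalIntegrable _ _
  have hL : ∫ t in (T - 1 / η)..(T + 1 / η),
        ‖riemannZeta (1 / 2 + Complex.I * t) * Mol X (1 / 2 + Complex.I * t)‖ ^ 2 ≤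
      ∫ t in (T - 1 / η)..(T + 1 / η),
        (Real.exp (9 / 2) * Real.sqrt T) * ‖FT (Fu X (zT T)) (-(t / 2))‖ ^ 2 := by
    apply intervalIntegral.integral_mono_on hle
    · apply ContinuousOn.intervalIntegrable
      intro t _
      apply ContinuousAt.continuousWithinAt
      have hne : (1 / 2 + Complex.I * t : ℂ) ≠ 1 := by
        intro h
        have := congrArg Complex.re h
        simp at this
      have hz : ContinuousAt (fun t : ℝ => riemannZeta (1 / 2 + Complex.I * t)) t :=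
        ContinuousAt.comp (f := fun t : ℝ => (1 / 2 + Complex.I * t : ℂ)) (differentiableAt_riemannZeta hne).continuousAt
          (by fun_prop)
      have hm : ContinuousAt (fun t : ℝ => Mol X (1 / 2 + Complex.I * t)) t := by
        unfold Mol
        apply tendsto_finsetSum
        intro h hh
        rw [Finset.mem_Ioc] at hh
        have hh0 : (h:ℂ) ≠ 0 := by exact_mod_cast hh.1.ne'
        apply Tendsto.const_mul
        exact ContinuousAt.const_cpow (f := fun t : ℝ => -(1 / 2 + Complex.I * t : ℂ)) (by fun_prop) (Or.inl hh0)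
      exact ((hz.mul hm).norm).pow 2
    · exact (hcont.const_mul _).intervalIntegrable _ _
    · intro t ht
      have ht1 : 1 ≤ t := by linarith [ht.1]
      have hlow := FT_lower (X := X) hT2 ht1
      have ht0 : 0 ≤ t / T := by positivity
      have hq : t / T ≤ 3 / 2 := by
        rw [div_le_iff₀ hT0]
        linarith [ht.2]
      have hq2 : 2 * (t / T) ^ 2 ≤ 9 / 2 := by nlinarith
      have hexp : 1 ≤ Real.exp (9 / 2) * Real.exp (-(2 * (t / T) ^ 2)) := by
        rw [← Real.exp_add]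
        exact Real.one_le_exp (by linarith)
      set N := ‖riemannZeta (1 / 2 + Complex.I * t) * Mol X (1 / 2 + Complex.I * t)‖ ^ 2 with hN
      have hN0 : 0 ≤ N := by positivity
      calc N = N * 1 := (mul_one _).symm
        _ ≤ N * (Real.exp (9 / 2) * Real.exp (-(2 * (t / T) ^ 2))) := mul_le_mul_of_nonneg_left hexp hN0
        _ = Real.exp (9 / 2) * (N * Real.exp (-(2 * (t / T) ^ 2))) := by ring
        _ ≤ Real.exp (9 / 2) * (Real.sqrt T * ‖FT (Fu X (zT T)) (-(t / 2))‖ ^ 2) :=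
            mul_le_mul_of_nonneg_left hlow (Real.exp_pos _).le
        _ = _ := by ring
  rw [intervalIntegral.integral_const_mul, hsub] at hL
  refine hL.trans ?_
  have hs0 : 0 < Real.sqrt T := Real.sqrt_pos.mpr hT0
  have hpi := Real.pi_pos
  have h5 : ∫ τ in (-((T + 1 / η) / 2))..(-((T - 1 / η) / 2)), ‖FT (Fu X (zT T)) τ‖ ^ 2 ≤
      8 * Real.pi * (C1 * (1 / (η * Real.sqrt T)) * (Real.log T / Real.log X)) :=
    hmono.trans (hcv.trans (mul_le_mul_of_nonneg_left hsq (by positivity)))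
  calc Real.exp (9 / 2) * Real.sqrt T * (2 * ∫ τ in (-((T + 1 / η) / 2))..(-((T - 1 / η) / 2)), ‖FT (Fu X (zT T)) τ‖ ^ 2)
      ≤ Real.exp (9 / 2) * Real.sqrt T *
          (2 * (8 * Real.pi * (C1 * (1 / (η * Real.sqrt T)) * (Real.log T / Real.log X)))) := by
        gcongr
    _ = 16 * Real.pi * Real.exp (9 / 2) * C1 * (1 / η) * (Real.log T / Real.log X) * (Real.sqrt T / Real.sqrt T) := by
        field_simp
        ring
    _ = _ := by rw [div_self hs0.ne', mul_one]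

end Pool.Agent.Helper57.DS
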