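import Pool.Agent.Helper57.DS.HSa
import Pool.Agent.Helper57.DS.SecM

/-!
# DS-9: the critical line (project DS)

`HS_half`: `Q(t) = ζ(1/2+it) Mol(1/2+it)`, `X = XT P`. As in `LH.edge_half`, `‖HS(1/2+it)‖² ≤ 4‖Q‖² e^{-2((t-c)/W)²} + 4 e^{-((t-c)/W)²}`.
* The part `|t - c| > c/4`: `HS_crude`, `exp(-((t-c)/W)²) ≤ exp(-((t-c)/(2W))²) exp(-3(log c)²/64)` (`(c/4W)² ≥ (log c)²/16`), and
  `X² c² exp(-3(log c)²/64) ≤ 1` for `c` large (`X ≤ P ≤ c`).
* The part near `c`: for `t₁ ∈ [c/2, 3c/2]` the theorem `sec` with `T := t₁`, `η := 1/W` gives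
  `∫_{|t-t₁| ≤ W} ‖Q‖² ≤ C W log t₁/log X ≤ 2CAW` (hypotheses from `Hyp`: `log t₁ ≤ log 2c`, `X^40 = P ≤ c/2 ≤ t₁`, `4W ≤ c` because
  `W log c ≤ c`, `√t₁ X⁹ ≤ √(2c) X⁹ ≤ W`; `log t₁ ≤ 2 log c ≤ 2A log X`).
  Cut `[c - 2KW, c + 2KW]` into intervals of length `2W` and sum the Gaussian weights.
-/

open MeasureTheory Set Filter Topology Complex
open Pool.Agent.Helper57.LH Pool.Agent.Helper57.Zeta

namespace Pool.Agent.Helper57.DS

/-- pieces with geometric weights, right half -/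
private lemma half21 {q : ℝ → ℝ} (hq : Continuous q) (hq0 : ∀ t, 0 ≤ q t) {c W B : ℝ} (hW : 0 < W) (K : ℕ)
    (hB0 : 0 ≤ B) (hB : ∀ n : ℕ, n < K → ∫ t in (c + 2 * n * W)..(c + 2 * (n + 1 : ℕ) * W), q t ≤ B) :
    ∫ t in c..(c + 2 * K * W), q t * Real.exp (-(2 * ((t - c) / W) ^ 2)) ≤ 2 * B := by
  have hcont : Continuous fun t : ℝ => q t * Real.exp (-(2 * ((t - c) / W) ^ 2)) := by fun_prop
  have h1 := intervalIntegral.sum_integral_adjacent_intervals (a := fun n : ℕ => c + 2 * n * W) (n := K)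
    (f := fun t => q t * Real.exp (-(2 * ((t - c) / W) ^ 2))) (μ := volume)
    (fun n _ => hcont.intervalIntegrable _ _)
  simp only [Nat.cast_zero, mul_zero, zero_mul, add_zero] at h1
  rw [← h1]
  have h2 : ∀ n ∈ Finset.range K, ∫ t in (c + 2 * (n : ℕ) * W)..(c + 2 * (n + 1 : ℕ) * W),
      q t * Real.exp (-(2 * ((t - c) / W) ^ 2)) ≤ (1 / 2 : ℝ) ^ n * B := by
    intro n hn
    rw [Finset.mem_range] at hn
    have hle : c + 2 * (n : ℕ) * W ≤ c + 2 * (n + 1 : ℕ) * W := by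
      push_cast
      nlinarith
    have h3 : ∫ t in (c + 2 * (n : ℕ) * W)..(c + 2 * (n + 1 : ℕ) * W), q t * Real.exp (-(2 * ((t - c) / W) ^ 2)) ≤
        ∫ t in (c + 2 * (n : ℕ) * W)..(c + 2 * (n + 1 : ℕ) * W), (1 / 2 : ℝ) ^ n * q t := by
      apply intervalIntegral.integral_mono_on hle (hcont.intervalIntegrable _ _)
        ((continuous_const.mul hq).intervalIntegrable _ _)
      intro t ht
      rw [mul_comm]
      apply mul_le_mul_of_nonneg_right _ (hq0 t)
      have e1 : (2 : ℝ) * n ≤ (t - c) / W := by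
        rw [le_div_iff₀ hW]
        linarith [ht.1]
      have hn0 : (0 : ℝ) ≤ n := Nat.cast_nonneg n
      have e2 : (n : ℝ) ≤ 2 * ((t - c) / W) ^ 2 := by
        rcases Nat.eq_zero_or_pos n with h0 | h0
        · rw [h0]
          push_cast
          positivity
        · have e3 : (1 : ℝ) ≤ n := by exact_mod_cast h0
          have e4 : (2 * (n : ℝ)) ^ 2 ≤ ((t - c) / W) ^ 2 := by gcongr
          nlinarith
      have e5 : Real.exp (-(2 * ((t - c) / W) ^ 2)) ≤ Real.exp (-(n : ℝ)) := Real.exp_le_exp.mpr (by linarith)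
      refine e5.trans ?_
      have e6 : Real.exp (-(n : ℝ)) = Real.exp (-1) ^ n := by
        rw [← Real.exp_nat_mul]
        congr 1
        ring
      rw [e6]
      apply pow_le_pow_left₀ (Real.exp_pos _).le
      rw [Real.exp_neg, ← one_div]
      apply one_div_le_one_div_of_le (by norm_num)
      linarith [Real.add_one_le_exp (1 : ℝ)]
    refine h3.trans ?_
    rw [intervalIntegral.integral_const_mul]
    exact mul_le_mul_of_nonneg_left (hB n hn) (by positivity)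
  refine (Finset.sum_le_sum h2).trans ?_
  rw [← Finset.sum_mul]
  exact mul_le_mul_of_nonneg_right (sum_geometric_two_le K) hB0

/-- the mollified zeta function on the critical line -/
private noncomputable def qf21 (X t : ℝ) : ℝ := ‖riemannZeta (1 / 2 + I * t) * Mol X (1 / 2 + I * t)‖ ^ 2

private lemma qf_cont21 (X : ℝ) : Continuous (qf21 X) := by
  rw [continuous_iff_continuousAt]
  intro t
  have hne : (1 / 2 + I * t : ℂ) ≠ 1 := by
    intro h
    have := congrArg Complex.re h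
    simp at this
  have hz : ContinuousAt (fun t : ℝ => riemannZeta (1 / 2 + I * t)) t :=
    ContinuousAt.comp (f := fun t : ℝ => (1 / 2 + I * t : ℂ)) (differentiableAt_riemannZeta hne).continuousAt (by fun_prop)
  have hm : ContinuousAt (fun t : ℝ => Mol X (1 / 2 + I * t)) t :=
    ContinuousAt.comp (f := fun t : ℝ => (1 / 2 + I * t : ℂ)) ((differentiable_Mol _).continuous.continuousAt) (by fun_prop)
  exact ((hz.mul hm).norm).pow 2

private lemma qf_nonneg21 (X t : ℝ) : 0 ≤ qf21 X t := by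
  unfold qf21
  positivity

/-- the numerical side conditions -/
private lemma side21 {A P c W T0 : ℝ} (hT0 : Real.exp 100 ≤ T0) (h : Hyp T0 A P c W) :
    20 ≤ W ∧ 100 ≤ Real.log c ∧ 100 * W ≤ c ∧ 1 < P ∧ 200 ≤ c ∧ XT P ≤ c := by
  have hc1 : Real.exp 100 ≤ c := hT0.trans h.hc
  have hc0 : 0 < c := lt_of_lt_of_le (Real.exp_pos _) hc1
  have hlc : 100 ≤ Real.log c := by
    rw [Real.le_log_iff_exp_le hc0]
    exact hc1
  have hc : 200 ≤ c := by
    have h1 : (200 : ℝ) ≤ Real.exp 100 := by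
      have e1 : Real.exp 100 = Real.exp 1 ^ 100 := by rw [← Real.exp_nat_mul]; norm_num
      have e2 : (2 : ℝ) ≤ Real.exp 1 := by linarith [Real.add_one_le_exp (1 : ℝ)]
      rw [e1]
      calc (200 : ℝ) ≤ 2 ^ 100 := by norm_num
        _ ≤ _ := pow_le_pow_left₀ (by norm_num) e2 _
    linarith
  have hX : 1 ≤ XT P := by linarith only [h.hX]
  have h1 : 20 ≤ Real.sqrt (2 * c) := by
    apply Real.le_sqrt_of_sq_le
    linarith only [hc]
  have h2 : (1:ℝ) ≤ XT P ^ 9 := one_le_pow₀ hX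
  have h3 : 20 ≤ W := by
    calc (20:ℝ) ≤ Real.sqrt (2 * c) * 1 := by linarith only [h1]
      _ ≤ Real.sqrt (2 * c) * XT P ^ 9 := by gcongr
      _ ≤ W := h.hW
  have h5 : W * 100 ≤ c := by
    calc W * 100 ≤ W * Real.log c := by gcongr
      _ ≤ c := h.hWc
  have h6 : (3:ℝ) ^ 40 ≤ P := h.hP1
  have h7 : (1:ℝ) < 3 ^ 40 := by norm_num
  have hP1 : 1 < P := by linarith only [h6, h7]
  have h8 : XT P ≤ P := by
    calc XT P = P ^ (1/40 : ℝ) := rfl
      _ ≤ P ^ (1:ℝ) := Real.rpow_le_rpow_of_exponent_le hP1.le (by norm_num)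
      _ = P := Real.rpow_one P
  exact ⟨h3, hlc, by linarith only [h5], hP1, hc, by linarith [h.hP]⟩

/-- the second moment over an interval of length `2W` near `c` -/
private lemma piece21 : ∃ C T0 : ℝ, 0 < C ∧ ∀ A P c W : ℝ, 1 ≤ A → Hyp T0 A P c W → ∀ t₁ : ℝ, c / 2 ≤ t₁ →
    t₁ ≤ 3 * c / 2 → ∫ t in (t₁ - W)..(t₁ + W), qf21 (XT P) t ≤ C * A * W := by
  obtain ⟨C, T1, hC, h⟩ := sec
  refine ⟨2 * C, max (2 * T1) (Real.exp 100), by positivity, ?_⟩
  intro A P c W hA hyp t₁ h1 h2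
  obtain ⟨hW20, hlc, hWc, hP1, hc200, hXc⟩ := side21 (le_max_right _ _) hyp
  have hT1 : T1 ≤ t₁ := by
    have := (le_max_left (2 * T1) (Real.exp 100)).trans hyp.hc
    linarith
  have hW0 : 0 < W := by linarith
  have hc0 : 0 < c := by linarith
  have ht0 : 0 < t₁ := by linarith
  have ht1 : 1 ≤ t₁ := by linarith
  have hlt0 : 0 ≤ Real.log t₁ := Real.log_nonneg ht1
  have hlt : Real.log t₁ ≤ Real.log (2 * c) := Real.log_le_log ht0 (by linarith)
  have hX3 := hyp.hX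
  have hX0 : 0 < XT P := by linarith
  have hlX0 : 0 < Real.log (XT P) := Real.log_pos (by linarith)
  have hX40 : XT P ^ 40 = P := by
    unfold XT
    rw [← Real.rpow_natCast, ← Real.rpow_mul (by linarith)]
    norm_num
  have hη : 1 / (1 / W) = W := by rw [one_div_one_div]
  have hmain := h t₁ (XT P) (1 / W) hT1 hX3 ?_ ?_ ?_ ?_
  · rw [hη] at hmain
    refine hmain.trans ?_
    have e1 : Real.log (2 * c) ≤ 2 * Real.log c := by
      rw [Real.log_mul (by norm_num) hc0.ne']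
      have : Real.log 2 ≤ Real.log c := Real.log_le_log (by norm_num) (by linarith)
      linarith
    have e2 : Real.log t₁ / Real.log (XT P) ≤ 2 * A := by
      rw [div_le_iff₀ hlX0]
      have := hyp.hA
      linarith
    calc C * W * (Real.log t₁ / Real.log (XT P)) ≤ C * W * (2 * A) := by gcongr
      _ = 2 * C * A * W := by ring
  · exact (pow_le_pow_left₀ hlt0 hlt 2).trans hyp.hXl
  · rw [hX40]
    linarith [hyp.hP]
  · rw [div_le_div_iff₀ ht0 hW0]
    linarith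
  · have e1 : Real.sqrt t₁ * XT P ^ 9 ≤ W := by
      refine le_trans ?_ hyp.hW
      have : Real.sqrt t₁ ≤ Real.sqrt (2 * c) := Real.sqrt_le_sqrt (by linarith)
      gcongr
    rw [mul_assoc, one_div, inv_mul_le_iff₀ hW0, mul_one]
    exact e1

/-- the pointwise bound near `c` -/
private lemma near21 {P c W t : ℝ} (hW : 20 ≤ W) :
    ‖HS P c W ((1 / 2 : ℝ) + t * I)‖ ^ 2 ≤ 4 * (qf21 (XT P) t * Real.exp (-(2 * ((t - c) / W) ^ 2))) +
      4 * Real.exp (-((t - c) / W) ^ 2) := by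
  have hW0 : 0 < W := by linarith
  have hs : (((1/2 : ℝ) : ℂ) + (t : ℂ) * I) = 1 / 2 + I * t := by push_cast; ring
  have hne : (((1/2 : ℝ) : ℂ) + (t : ℂ) * I) ≠ 1 := by
    intro h
    have := congrArg Complex.re h
    simp at this
  unfold qf21
  rw [HS_eq (by simp) hne, norm_mul, norm_mul, norm_expS, norm_div, ← hs]
  have hs1 : ‖(((1/2 : ℝ) : ℂ) + (t : ℂ) * I) - 1‖ ≤ ‖(((1/2 : ℝ) : ℂ) + (t : ℂ) * I) + 2‖ := norm_sub_one_le_add_two (by simp)
  have hs2 : ‖(((1/2 : ℝ) : ℂ) + (t : ℂ) * I) - 1‖ / ‖(((1/2 : ℝ) : ℂ) + (t : ℂ) * I) + 2‖ ≤ 1 := div_le_one_of_le₀ hs1 (norm_nonneg _)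
  set Q := riemannZeta (((1/2 : ℝ) : ℂ) + (t : ℂ) * I) * Mol (XT P) (((1/2 : ℝ) : ℂ) + (t : ℂ) * I) with hQ
  have hQ1 : ‖Q - 1‖ ^ 2 ≤ 2 * ‖Q‖ ^ 2 + 2 := by
    have := norm_sub_sq_le Q 1
    simpa using this
  have he : Real.exp ((((1/2 : ℝ)) ^ 2 - (t - c) ^ 2) / W ^ 2) ^ 2 ≤ 2 * Real.exp (-(2 * ((t - c) / W) ^ 2)) := by
    have h5 : Real.exp (1 / 2 / W ^ 2) ≤ 2 := by
      have h6 : 1 / 2 / W ^ 2 ≤ 1 / 2 := div_le_self (by norm_num) (by nlinarith only [hW])
      have h7 : Real.exp (1/2) ≤ 2 := by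
        have h8 : Real.exp (1/2) ^ 2 ≤ 2 ^ 2 := by
          rw [← Real.exp_nat_mul]
          norm_num
          have := Real.exp_one_lt_d9
          linarith only [this]
        exact (pow_le_pow_iff_left₀ (Real.exp_pos _).le (by norm_num) two_ne_zero).mp h8
      exact (Real.exp_le_exp.mpr h6).trans h7
    refine le_trans (le_of_eq ?_) (mul_le_mul_of_nonneg_right h5 (Real.exp_pos _).le)
    rw [← Real.exp_nat_mul, ← Real.exp_add]
    congr 1
    push_cast; field_simp; ring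
  have he2 : Real.exp (-(2 * ((t - c) / W) ^ 2)) ≤ Real.exp (-((t - c) / W) ^ 2) := by
    apply Real.exp_le_exp.mpr
    have := sq_nonneg ((t - c) / W)
    linarith only [this]
  calc (‖(((1/2 : ℝ) : ℂ) + (t : ℂ) * I) - 1‖ / ‖(((1/2 : ℝ) : ℂ) + (t : ℂ) * I) + 2‖ * ‖Q - 1‖ *
      Real.exp ((((1/2 : ℝ)) ^ 2 - (t - c) ^ 2) / W ^ 2)) ^ 2
      ≤ (1 * ‖Q - 1‖ * Real.exp ((((1/2 : ℝ)) ^ 2 - (t - c) ^ 2) / W ^ 2)) ^ 2 := by gcongr
    _ = ‖Q - 1‖ ^ 2 * Real.exp ((((1/2 : ℝ)) ^ 2 - (t - c) ^ 2) / W ^ 2) ^ 2 := by ring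
    _ ≤ (2 * ‖Q‖ ^ 2 + 2) * (2 * Real.exp (-(2 * ((t - c) / W) ^ 2))) := by gcongr
    _ = 4 * (‖Q‖ ^ 2 * Real.exp (-(2 * ((t - c) / W) ^ 2))) + 4 * Real.exp (-(2 * ((t - c) / W) ^ 2)) := by ring
    _ ≤ _ := by gcongr

/-- the pointwise bound far from `c` -/
private lemma far21 {T0 A P c W t : ℝ} (hT0 : Real.exp 100 ≤ T0) (h : Hyp T0 A P c W) (ht : c / 4 ≤ |t - c|) :
    ‖HS P c W ((1 / 2 : ℝ) + t * I)‖ ^ 2 ≤ 10 ^ 4 * Real.exp (-((t - c) / (2 * W)) ^ 2) := by
  obtain ⟨hW20, hlc, hWc, hP1, hc200, hXc⟩ := side21 hT0 h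
  have hW0 : 0 < W := by linarith
  have hc0 : 0 < c := by linarith
  have hX0 : 0 < XT P := by linarith [h.hX]
  refine (HS_crude hP1 hW20 (by linarith) (by norm_num) (by norm_num)).trans ?_
  have e1 : (Real.log c / 4) ^ 2 ≤ ((t - c) / W) ^ 2 := by
    have e2 : Real.log c / 4 ≤ |(t - c) / W| := by
      rw [abs_div, abs_of_pos hW0, le_div_iff₀ hW0]
      have := h.hWc
      linarith
    rw [← sq_abs ((t - c) / W)]
    gcongr
  have e3 : Real.exp (-((t - c) / W) ^ 2) ≤ Real.exp (-((t - c) / (2 * W)) ^ 2) * Real.exp (-(4 * Real.log c)) := by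
    rw [← Real.exp_add]
    apply Real.exp_le_exp.mpr
    have e4 : ((t - c) / (2 * W)) ^ 2 = 1 / 4 * ((t - c) / W) ^ 2 := by
      field_simp
      ring
    rw [e4]
    have e5 : 4 * Real.log c ≤ 3 / 4 * (Real.log c / 4) ^ 2 := by nlinarith
    linarith
  have e6 : XT P ^ 2 * c ^ 2 * Real.exp (-(4 * Real.log c)) ≤ 1 := by
    have e7 : Real.exp (-(4 * Real.log c)) = 1 / (c ^ 2 * c ^ 2) := by
      rw [Real.exp_neg, one_div]
      congr 1
      rw [show (4 : ℝ) * Real.log c = ((4 : ℕ) : ℝ) * Real.log c by norm_num, Real.exp_nat_mul, Real.exp_log hc0]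
      ring
    rw [e7, mul_one_div, div_le_one (by positivity)]
    have : XT P ^ 2 ≤ c ^ 2 := by gcongr
    gcongr
  have e8 := Real.exp_pos (-((t - c) / (2 * W)) ^ 2)
  calc 10 ^ 4 * XT P ^ 2 * c ^ 2 * Real.exp (-((t - c) / W) ^ 2)
      ≤ 10 ^ 4 * XT P ^ 2 * c ^ 2 * (Real.exp (-((t - c) / (2 * W)) ^ 2) * Real.exp (-(4 * Real.log c))) := by gcongr
    _ = 10 ^ 4 * Real.exp (-((t - c) / (2 * W)) ^ 2) * (XT P ^ 2 * c ^ 2 * Real.exp (-(4 * Real.log c))) := by ring
    _ ≤ 10 ^ 4 * Real.exp (-((t - c) / (2 * W)) ^ 2) * 1 := by gcongr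
    _ = _ := mul_one _

theorem HS_half : ∃ C T0 : ℝ, 0 < C ∧ ∀ A P c W : ℝ, 1 ≤ A → Hyp T0 A P c W →
    ∫ t : ℝ, ‖HS P c W ((1 / 2 : ℝ) + t * I)‖ ^ 2 ≤ C * A * W := by
  obtain ⟨C1, T1, hC1, hp⟩ := piece21
  refine ⟨16 * C1 + 10 ^ 5, max T1 (Real.exp 100), by positivity, ?_⟩
  intro A P c W hA hyp
  obtain ⟨hW20, hlc, hWc, hP1, hc200, hXc⟩ := side21 (le_max_right _ _) hyp
  have hyp1 : Hyp T1 A P c W :=
    ⟨(le_max_left _ _).trans hyp.hc, hyp.hX, hyp.hXl, hyp.hP1, hyp.hP, hyp.hW, hyp.hWc, hyp.hA⟩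
  have hpc := hp A P c W hA hyp1
  have hW0 : 0 < W := by linarith
  have hc0 : 0 < c := by linarith
  obtain ⟨f, hf⟩ : ∃ f : ℝ → ℝ, f = fun t : ℝ => ‖HS P c W ((1 / 2 : ℝ) + t * I)‖ ^ 2 := ⟨_, rfl⟩
  have hfi : Integrable f := by
    rw [hf]
    exact HS_int hP1 hW20 (by linarith) (by norm_num) (by norm_num)
  have hfc : Continuous f := by
    rw [hf]
    exact (HS_cont P c W (by norm_num)).norm.pow 2
  obtain ⟨q, hq⟩ : ∃ q : ℝ → ℝ, q = qf21 (XT P) := ⟨_, rfl⟩
  have hqc : Continuous q := by rw [hq]; exact qf_cont21 _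
  have hq0 : ∀ t, 0 ≤ q t := fun t => by rw [hq]; exact qf_nonneg21 _ _
  rw [← hq] at hpc
  -- the number of pieces
  obtain ⟨K, hK1, hK2⟩ : ∃ K : ℕ, c / 4 ≤ 2 * K * W ∧ 2 * K * W ≤ c / 2 := by
    refine ⟨⌈c / (8 * W)⌉₊, ?_, ?_⟩
    · have h1 := Nat.le_ceil (c / (8 * W))
      have h2 : c / (8 * W) * W = c / 8 := by field_simp
      have h3 := mul_le_mul_of_nonneg_right h1 hW0.le
      rw [h2] at h3
      linarith
    · have h1 := (Nat.ceil_lt_add_one (show 0 ≤ c / (8 * W) by positivity)).le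
      have h2 : c / (8 * W) * W = c / 8 := by field_simp
      have h3 := mul_le_mul_of_nonneg_right h1 hW0.le
      rw [add_mul, h2] at h3
      linarith
  have hKW : 0 ≤ 2 * K * W := by positivity
  -- right half
  have hR : ∫ t in c..(c + 2 * K * W), q t * Real.exp (-(2 * ((t - c) / W) ^ 2)) ≤ 2 * (C1 * A * W) := by
    refine half21 hqc hq0 hW0 K (by positivity) fun n hn => ?_
    have h1 : ((n + 1 : ℕ) : ℝ) ≤ K := by exact_mod_cast hn
    have h2 : 2 * ((n + 1 : ℕ) : ℝ) * W ≤ 2 * K * W := by gcongr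
    push_cast at h2 ⊢
    have h3 : 0 ≤ (n : ℝ) * W := by positivity
    have h4 := hpc (c + (2 * n + 1) * W) (by linarith) (by linarith)
    have e1 : c + (2 * n + 1) * W - W = c + 2 * n * W := by ring
    have e2 : c + (2 * n + 1) * W + W = c + 2 * (n + 1) * W := by ring
    rwa [e1, e2] at h4
  -- left half
  have hL : ∫ t in (c - 2 * K * W)..c, q t * Real.exp (-(2 * ((t - c) / W) ^ 2)) ≤ 2 * (C1 * A * W) := by
    have h0 : ∫ t in c..(c + 2 * K * W), q (2 * c - t) * Real.exp (-(2 * ((t - c) / W) ^ 2)) ≤ 2 * (C1 * A * W) := by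
      refine half21 (q := fun t => q (2 * c - t)) (by fun_prop) (fun t => hq0 _) hW0 K (by positivity) fun n hn => ?_
      have h1 : ((n + 1 : ℕ) : ℝ) ≤ K := by exact_mod_cast hn
      have h2 : 2 * ((n + 1 : ℕ) : ℝ) * W ≤ 2 * K * W := by gcongr
      push_cast at h2 ⊢
      have h3 : 0 ≤ (n : ℝ) * W := by positivity
      have h4 := hpc (c - (2 * n + 1) * W) (by linarith) (by linarith)
      rw [intervalIntegral.integral_comp_sub_left (fun t => q t) (2 * c)]
      have e1 : 2 * c - (c + 2 * (n + 1) * W) = c - (2 * n + 1) * W - W := by ring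
      have e2 : 2 * c - (c + 2 * n * W) = c - (2 * n + 1) * W + W := by ring
      rw [e1, e2]
      exact h4
    have h1 := intervalIntegral.integral_comp_sub_left (a := c) (b := c + 2 * K * W)
      (fun t => q t * Real.exp (-(2 * ((t - c) / W) ^ 2))) (2 * c)
    have e1 : 2 * c - (c + 2 * K * W) = c - 2 * K * W := by ring
    have e2 : 2 * c - c = c := by ring
    rw [e1, e2] at h1
    rw [← h1]
    refine le_trans (le_of_eq ?_) h0
    refine intervalIntegral.integral_congr fun t _ => ?_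
    congr 4
    have : ((2 * c - t - c) / W) ^ 2 = ((t - c) / W) ^ 2 := by
      field_simp
      ring
    rw [this]
  have hg := gauss_c (c := c) (W := W) hW0
  have hg2 := gauss_c (c := c) (W := 2 * W) (by positivity)
  have hgc : Continuous fun t : ℝ => Real.exp (-((t - c) / W) ^ 2) := by fun_prop
  have hwc : Continuous fun t : ℝ => q t * Real.exp (-(2 * ((t - c) / W) ^ 2)) := by fun_prop
  -- the near part
  have hle : c - 2 * K * W ≤ c + 2 * K * W := by linarith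
  have hnear : ∫ t in Ioc (c - 2 * K * W) (c + 2 * K * W), f t ≤ 16 * (C1 * A * W) + 8 * W := by
    rw [← intervalIntegral.integral_of_le hle]
    have h1 : ∫ t in (c - 2 * K * W)..(c + 2 * K * W), f t ≤ ∫ t in (c - 2 * K * W)..(c + 2 * K * W),
        (4 * (q t * Real.exp (-(2 * ((t - c) / W) ^ 2))) + 4 * Real.exp (-((t - c) / W) ^ 2)) := by
      apply intervalIntegral.integral_mono_on hle (hfc.intervalIntegrable _ _)
        (((continuous_const.mul hwc).add (continuous_const.mul hgc)).intervalIntegrable _ _)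
      intro t _
      rw [hf, hq]
      exact near21 hW20
    refine h1.trans ?_
    rw [intervalIntegral.integral_add ((hwc.intervalIntegrable _ _).const_mul 4)
      ((hgc.intervalIntegrable _ _).const_mul 4), intervalIntegral.integral_const_mul,
      intervalIntegral.integral_const_mul,
      ← intervalIntegral.integral_add_adjacent_intervals (b := c) (hwc.intervalIntegrable _ _) (hwc.intervalIntegrable _ _)]
    have h2 : ∫ t in (c - 2 * K * W)..(c + 2 * K * W), Real.exp (-((t - c) / W) ^ 2) ≤ 2 * W := by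
      refine le_trans ?_ hg.2
      rw [intervalIntegral.integral_of_le hle]
      exact setIntegral_le_integral hg.1 (Eventually.of_forall fun t => (Real.exp_pos _).le)
    linarith
  -- the far part
  have hfar : ∫ t in (Ioc (c - 2 * K * W) (c + 2 * K * W))ᶜ, f t ≤ 10 ^ 4 * (2 * (2 * W)) := by
    have h1 : ∫ t in (Ioc (c - 2 * K * W) (c + 2 * K * W))ᶜ, f t ≤
        ∫ t in (Ioc (c - 2 * K * W) (c + 2 * K * W))ᶜ, 10 ^ 4 * Real.exp (-((t - c) / (2 * W)) ^ 2) := by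
      refine setIntegral_mono_on hfi.integrableOn ((hg2.1.const_mul _).integrableOn) measurableSet_Ioc.compl ?_
      intro t ht
      rw [hf]
      refine far21 (le_max_right _ _) hyp ?_
      by_contra hcon
      rw [not_le, abs_lt] at hcon
      exact ht ⟨by linarith [hcon.1], by linarith [hcon.2]⟩
    refine h1.trans ((setIntegral_le_integral (hg2.1.const_mul _) (Eventually.of_forall fun t => by positivity)).trans ?_)
    rw [integral_const_mul]
    gcongr
    exact hg2.2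
  have hsum := integral_add_compl (measurableSet_Ioc (a := c - 2 * K * W) (b := c + 2 * K * W)) hfi
  have hfin : ∫ t, f t ≤ 16 * (C1 * A * W) + 8 * W + 10 ^ 4 * (2 * (2 * W)) := by linarith
  rw [hf] at hfin
  refine hfin.trans ?_
  have : W ≤ A * W := le_mul_of_one_le_left hW0.le hA
  linarith

end Pool.Agent.Helper57.DS
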