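import Pool.Agent.Helper57.DS.HSd

/-!
# DS-11a: zeros near a point, in terms of the abstract auxiliary function (adaptation of LH/LocB, LocC)
-/

open MeasureTheory Set Filter Topology Complex Metric
open Pool.Agent.Helper57.LH Pool.Agent.Helper57.Zeta
open scoped ENNReal

namespace Pool.Agent.Helper57.DS

lemma tau_ge {P τ c0 W C0 : ℝ} {H : ℂ → ℂ} (hEn : En P H c0 W C0) (hτ : |τ - c0| ≤ W) : 15 ≤ |τ| := by
  have h1 := hEn.hc
  have h2 := (abs_le.mp hτ).1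
  have h3 := le_abs_self τ
  linarith

lemma regiong {P τ σ R c0 W C0 : ℝ} {H : ℂ → ℂ} (hEn : En P H c0 W C0) (hτ : |τ - c0| ≤ W) (_hR : 0 ≤ R) (hR5 : R ≤ 9 / 2)
    (hRσ : R < σ) (hσ : σ + R ≤ 9) {z : ℂ} (hz : ‖z - (σ + τ * I)‖ ≤ R) :
    0 < z.re ∧ z.re ≤ 9 ∧ 1 ≤ |z.im| ∧ |z.im - c0| ≤ W + 5 := by
  have h1 : |(z - (σ + τ * I)).re| ≤ R := (Complex.abs_re_le_norm _).trans hz
  have h2 : |(z - (σ + τ * I)).im| ≤ R := (Complex.abs_im_le_norm _).trans hz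
  have e1 : (z - (σ + τ * I)).re = z.re - σ := by simp
  have e2 : (z - (σ + τ * I)).im = z.im - τ := by simp
  rw [e1] at h1
  rw [e2] at h2
  have h3 := abs_le.mp h1
  have h5 := abs_le.mp h2
  have h6 := abs_le.mp hτ
  have h7 := hEn.hc
  have h8 := le_abs_self z.im
  refine ⟨by linarith, by linarith, by linarith, ?_⟩
  rw [abs_le]
  constructor <;> linarith

/-- circle average of the square -/
noncomputable def AHg (H : ℂ → ℂ) (c : ℂ) (R : ℝ) : ℝ := Real.circleAverage (fun z => ‖H z‖ ^ 2) c R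

lemma AHg_nonneg (H : ℂ → ℂ) (c : ℂ) (R : ℝ) : 0 ≤ AHg H c R := by
  unfold AHg
  apply Real.circleAverage_nonneg_of_nonneg
  intro x _; positivity

lemma ETg_contOn {P τ σ R c0 W C0 : ℝ} {H : ℂ → ℂ} (hEn : En P H c0 W C0) (hτ : |τ - c0| ≤ W) (hR : 0 ≤ R) (hR5 : R ≤ 9 / 2)
    (hRσ : R < σ) (hσ : σ + R ≤ 9) : ContinuousOn (ET P) (sphere (σ + τ * I) |R|) := by
  unfold ET
  apply ContinuousOn.sub _ continuousOn_const
  apply ContinuousOn.mul
  · intro z hz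
    have h := regiong hEn hτ hR hR5 hRσ hσ (sphere_norm hR hz)
    have hz1 : z ≠ 1 := by
      rintro rfl
      have := h.2.2.1
      simp at this; linarith
    exact (differentiableAt_riemannZeta hz1).continuousAt.continuousWithinAt
  · exact (differentiable_Mol _).continuous.continuousOn

lemma Hg_contOn {H : ℂ → ℂ} (hd : DifferentiableOn ℂ H {s | (-1:ℝ) < s.re}) {τ σ R : ℝ} (hR : 0 ≤ R) (hRσ : R < σ) : ContinuousOn (H) (sphere (σ + τ * I) |R|) := by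
  apply hd.continuousOn.mono
  intro z hz
  have h1 := (abs_le.mp ((Complex.abs_re_le_norm _).trans (sphere_norm hR hz))).1
  have e1 : (z - (σ + τ * I)).re = z.re - σ := by simp
  rw [e1] at h1
  show -1 < z.re
  linarith

lemma Hg_cont {H : ℂ → ℂ} (hd : DifferentiableOn ℂ H {s | (-1:ℝ) < s.re}) {σ : ℝ} (hσ : -1 < σ) :
    Continuous (fun t : ℝ => H (σ + t * I)) := by
  have hU : IsOpen {s : ℂ | (-1:ℝ) < s.re} := isOpen_lt continuous_const Complex.continuous_re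
  rw [continuous_iff_continuousAt]
  intro t
  have h1 : ContinuousAt H (σ + t * I) := hd.continuousOn.continuousAt (hU.mem_nhds (by
    show -1 < (σ + t * I : ℂ).re
    simpa using hσ))
  exact ContinuousAt.comp (f := fun t : ℝ => (σ + t * I : ℂ)) h1 (by fun_prop)

/-- bound of the mean of ‖E‖ -/
lemma avg_Eg_sq {P τ σ R c0 W C0 : ℝ} {H : ℂ → ℂ} (hEn : En P H c0 W C0) (hτ : |τ - c0| ≤ W) (hR : 0 ≤ R) (hR5 : R ≤ 9 / 2)
    (hRσ : R < σ) (hσ : σ + R ≤ 9) :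
    (Real.circleAverage (fun z => ‖ET P z‖) (σ + τ * I) R) ^ 2 ≤ KK * AHg H (σ + τ * I) R := by
  have hE := ETg_contOn hEn hτ hR hR5 hRσ hσ
  have hH := Hg_contOn hEn.diff (τ := τ) hR hRσ
  refine (avg_sq_le hE.norm).trans ?_
  unfold AHg
  rw [← smul_eq_mul KK, ← Real.circleAverage_fun_smul]
  apply Real.circleAverage_mono
  · exact (hE.norm.pow 2).circleIntegrable'
  · apply ContinuousOn.circleIntegrable'
    exact (hH.norm.pow 2).const_smul KK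
  · intro z hz
    have h := regiong hEn hτ hR hR5 hRσ hσ (sphere_norm hR hz)
    simp only [smul_eq_mul]
    exact hEn.dom _ h.1 h.2.1 h.2.2.2

lemma ETg_c_le {P τ σ c0 W C0 : ℝ} {H : ℂ → ℂ} (hEn : En P H c0 W C0) (hτ : |τ - c0| ≤ W) (hσ0 : 0 < σ) (hσ : σ ≤ 9) :
    ‖ET P (σ + τ * I)‖ ^ 2 ≤ KK * ‖H (σ + τ * I)‖ ^ 2 := by
  have e1 : (σ + τ * I : ℂ).re = σ := by simp
  have e2 : (σ + τ * I : ℂ).im = τ := by simp
  apply hEn.dom
  · rw [e1]; exact hσ0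
  · rw [e1]; exact hσ
  · rw [e2]; linarith

/-- good classes: few zeros -/
lemma classGg {P L w τ c0 W C0 : ℝ} {H : ℂ → ℂ} (hEn : En P H c0 W C0) (hL : L = Real.log P) (hL40 : 40 ≤ L) (hw : 1 ≤ w) (hwL : w ≤ L)
    (hτ : |τ - c0| ≤ W) (hgood : ‖ET P ((sg L w : ℝ) + τ * I)‖ ≤ 1 / 2)
    (F : Finset ℂ) (hF : ∀ ρ ∈ F, xi ρ = 0 ∧ w ≤ L * (ρ.re - 1 / 2) ∧ L * (ρ.re - 1 / 2) ≤ 2 * w ∧
      L * |ρ.im - τ| ≤ 1) :
    (∑ ρ ∈ F, (analyticOrderNatAt xi ρ : ℝ)) ^ 2 ≤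
      KK * (72 * AHg H ((sg L w : ℝ) + τ * I) (39 / 10 * w / L) + 288 * ‖H ((sg L w : ℝ) + τ * I)‖ ^ 2) := by
  have hL0 : 0 < L := by linarith
  set σ := sg L w with hσ
  have hwL1 : w / L ≤ 1 := by rw [div_le_one hL0]; exact hwL
  have hwL0 : 0 < w / L := by positivity
  set R := 39 / 10 * w / L with hR
  set r := 32 / 10 * w / L with hr
  have hR' : R = 39 / 10 * (w / L) := by rw [hR]; ring
  have hr' : r = 32 / 10 * (w / L) := by rw [hr]; ring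
  have hσ' : σ = 1 / 2 + 4 * (w / L) := by rw [hσ]; unfold sg; ring
  have hr0 : 0 < r := by rw [hr']; positivity
  have hrR : r < R := by rw [hr', hR']; linarith
  have hR0 : 0 < R := hr0.trans hrR
  have hR5 : R ≤ 9 / 2 := by rw [hR']; linarith
  have hRσ : R < σ := by rw [hR', hσ']; linarith
  have hσ9 : σ + R ≤ 9 := by rw [hR', hσ']; linarith
  have e1 : (σ + τ * I : ℂ).re = σ := by simp
  have e2 : (σ + τ * I : ℂ).im = τ := by simp
  have hτ10 := tau_ge hEn hτ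
  have hcount := count_le (T := P) (c := σ + τ * I) hr0 hrR (by rw [e2]; linarith) (by rw [e1]; exact hRσ) hgood F (by
    intro ρ hρ
    obtain ⟨h0, h1, h2, h3⟩ := hF ρ hρ
    refine ⟨h0, ?_⟩
    rw [hr]
    apply dist_scale hL0 rfl rfl (by positivity)
    have : 0 ≤ L * |ρ.im - τ| := by positivity
    nlinarith)
  have hE := ETg_contOn hEn hτ hR0.le hR5 hRσ hσ9
  set a := Real.circleAverage (fun z => ‖ET P z‖) (σ + τ * I) R with ha
  have ha2 : a ^ 2 ≤ KK * AHg H (σ + τ * I) R := avg_Eg_sq hEn hτ hR0.le hR5 hRσ hσ9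
  have ha0 : 0 ≤ a := Real.circleAverage_nonneg_of_nonneg (fun _ _ => norm_nonneg _)
  have hloga : Real.circleAverage (fun z => Real.log (1 + ‖ET P z‖)) (σ + τ * I) R ≤ a := by
    apply Real.circleAverage_mono
    · exact log_circ hE
    · exact hE.norm.circleIntegrable'
    · intro z _
      have := norm_nonneg (ET P z)
      have h2 := Real.log_le_sub_one_of_pos (show 0 < 1 + ‖ET P z‖ by linarith)
      linarith
  have he2 := ETg_c_le (σ := σ) hEn hτ (by linarith) (by linarith)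
  set e := ‖ET P (σ + τ * I)‖ with he
  have he0 : 0 ≤ e := norm_nonneg _
  set n := ∑ ρ ∈ F, (analyticOrderNatAt xi ρ : ℝ) with hn
  have hn0 : 0 ≤ n := Finset.sum_nonneg fun _ _ => Nat.cast_nonneg _
  have hfrac : 1 / 6 ≤ 1 - r / R := by
    rw [hr', hR', mul_div_mul_right _ _ hwL0.ne']
    norm_num
  have h1 : n * (1 / 6) ≤ a + 2 * e := by
    calc n * (1 / 6) ≤ n * (1 - r / R) := by gcongr
      _ ≤ _ := by linarith
  have h2 : n ≤ 6 * (a + 2 * e) := by linarith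
  calc n ^ 2 ≤ (6 * (a + 2 * e)) ^ 2 := by gcongr
    _ ≤ 72 * a ^ 2 + 288 * e ^ 2 := by nlinarith [sq_nonneg (a - 2 * e)]
    _ ≤ 72 * (KK * AHg H (σ + τ * I) R) + 288 * (KK * ‖H (σ + τ * I)‖ ^ 2) := by gcongr
    _ = _ := by ring

/-- larger discs -/
lemma classHg {P L V τ c0 W C0 : ℝ} {H : ℂ → ℂ} (hEn : En P H c0 W C0) (hL : L = Real.log P) (hL40 : 40 ≤ L) (hV : 1 ≤ V) (hVL : V ≤ L)
    (hτ : |τ - c0| ≤ W) (hgood : ‖ET P ((sg L V : ℝ) + τ * I)‖ ≤ 1 / 2)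
    (F : Finset ℂ) (hF : ∀ ρ ∈ F, xi ρ = 0 ∧ 0 ≤ L * (ρ.re - 1 / 2) ∧ L * (ρ.re - 1 / 2) ≤ V ∧
      L * |ρ.im - τ| ≤ 1) :
    ∃ a : ℝ, 0 ≤ a ∧ a ^ 2 ≤ KK * AHg H ((sg L V : ℝ) + τ * I) ((4 * V + 1) / L) ∧
    (∑ ρ ∈ F, (analyticOrderNatAt xi ρ : ℝ)) ^ 2 ≤ 200 * V ^ 2 * (4 * a + 1) := by
  have hL0 : 0 < L := by linarith
  set σ := sg L V with hσ
  have hVL1 : V / L ≤ 1 := by rw [div_le_one hL0]; exact hVL
  have hVL0 : 0 < V / L := by positivity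
  have hL1 : 1 / L ≤ 1 / 40 := by gcongr
  have hL1' : 0 < 1 / L := by positivity
  set R := (4 * V + 1) / L with hR
  set r := (4 * V + 1 / 2) / L with hr
  have hR' : R = 4 * (V / L) + 1 / L := by rw [hR]; ring
  have hr' : r = 4 * (V / L) + 1 / L / 2 := by rw [hr]; ring
  have hσ' : σ = 1 / 2 + 4 * (V / L) := by rw [hσ]; unfold sg; ring
  have hr0 : 0 < r := by rw [hr']; positivity
  have hrR : r < R := by rw [hr', hR']; linarith
  have hR0 : 0 < R := hr0.trans hrR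
  have hR5 : R ≤ 9 / 2 := by rw [hR']; linarith
  have hRσ : R < σ := by rw [hR', hσ']; linarith
  have hσ9 : σ + R ≤ 9 := by rw [hR', hσ']; linarith
  have e1 : (σ + τ * I : ℂ).re = σ := by simp
  have e2 : (σ + τ * I : ℂ).im = τ := by simp
  have hτ10 := tau_ge hEn hτ
  have hcount := count_le (T := P) (c := σ + τ * I) hr0 hrR (by rw [e2]; linarith) (by rw [e1]; exact hRσ) hgood F (by
    intro ρ hρ
    obtain ⟨h0, h1, h2, h3⟩ := hF ρ hρ
    refine ⟨h0, ?_⟩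
    rw [hr]
    apply dist_scale hL0 rfl rfl (by positivity)
    have : 0 ≤ L * |ρ.im - τ| := by positivity
    nlinarith)
  have hE := ETg_contOn hEn hτ hR0.le hR5 hRσ hσ9
  set a := Real.circleAverage (fun z => ‖ET P z‖) (σ + τ * I) R with ha
  have ha2 : a ^ 2 ≤ KK * AHg H (σ + τ * I) R := avg_Eg_sq hEn hτ hR0.le hR5 hRσ hσ9
  have ha0 : 0 ≤ a := Real.circleAverage_nonneg_of_nonneg (fun _ _ => norm_nonneg _)
  set b := Real.circleAverage (fun z => Real.sqrt ‖ET P z‖) (σ + τ * I) R with hb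
  have hb0 : 0 ≤ b := Real.circleAverage_nonneg_of_nonneg (fun _ _ => Real.sqrt_nonneg _)
  have hsq : ContinuousOn (fun z => Real.sqrt ‖ET P z‖) (sphere (σ + τ * I) |R|) :=
    Real.continuous_sqrt.comp_continuousOn hE.norm
  have hb2 : b ^ 2 ≤ a := by
    have := avg_sq_le hsq
    rw [← hb] at this
    refine this.trans (le_of_eq ?_)
    rw [ha]
    congr 1
    funext z
    exact Real.sq_sqrt (norm_nonneg _)
  have hlogb : Real.circleAverage (fun z => Real.log (1 + ‖ET P z‖)) (σ + τ * I) R ≤ 2 * b := by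
    rw [show 2 * b = Real.circleAverage (fun z => (2:ℝ) • Real.sqrt ‖ET P z‖) (σ + τ * I) R by
      rw [Real.circleAverage_fun_smul, smul_eq_mul]]
    apply Real.circleAverage_mono
    · exact log_circ hE
    · apply ContinuousOn.circleIntegrable'
      exact hsq.const_smul (2:ℝ)
    · intro z _
      simp only [smul_eq_mul]
      have hx := norm_nonneg (ET P z)
      set x := ‖ET P z‖
      have hs := Real.sqrt_nonneg x
      have hss := Real.sq_sqrt hx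
      have h2 := Real.log_le_sub_one_of_pos (show 0 < 1 + Real.sqrt x by linarith)
      have h3 : Real.log (1 + x) ≤ Real.log ((1 + Real.sqrt x) ^ 2) := by
        apply Real.log_le_log (by linarith)
        nlinarith
      rw [Real.log_pow] at h3
      push_cast at h3
      linarith
  set e := ‖ET P (σ + τ * I)‖ with he
  set n := ∑ ρ ∈ F, (analyticOrderNatAt xi ρ : ℝ) with hn
  have hn0 : 0 ≤ n := Finset.sum_nonneg fun _ _ => Nat.cast_nonneg _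
  have hfrac : 1 / (10 * V) ≤ 1 - r / R := by
    have e3 : 1 - r / R = (1 / 2) / (4 * V + 1) := by
      rw [hr, hR]
      field_simp
      ring
    rw [e3, div_le_div_iff₀ (by positivity) (by positivity)]
    linarith
  have h1 : n * (1 / (10 * V)) ≤ 2 * b + 1 := by
    calc n * (1 / (10 * V)) ≤ n * (1 - r / R) := by gcongr
      _ ≤ _ := by linarith
  have h2 : n ≤ 10 * V * (2 * b + 1) := by
    rw [mul_one_div, div_le_iff₀ (by positivity)] at h1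
    linarith
  refine ⟨a, ha0, ha2, ?_⟩
  calc n ^ 2 ≤ (10 * V * (2 * b + 1)) ^ 2 := by gcongr
    _ = 100 * V ^ 2 * (2 * b + 1) ^ 2 := by ring
    _ ≤ 100 * V ^ 2 * (2 * (4 * a + 1)) := by
        gcongr
        nlinarith [sq_nonneg (2 * b - 1)]
    _ = _ := by ring

lemma classH0g {P L τ c0 W C0 : ℝ} {H : ℂ → ℂ} (hEn : En P H c0 W C0) (hL : L = Real.log P) (hL40 : 40 ≤ L)
    (hτ : |τ - c0| ≤ W) (hgood : ‖ET P ((sg L 1 : ℝ) + τ * I)‖ ≤ 1 / 2)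
    (F : Finset ℂ) (hF : ∀ ρ ∈ F, xi ρ = 0 ∧ 0 ≤ L * (ρ.re - 1 / 2) ∧ L * (ρ.re - 1 / 2) ≤ 1 ∧
      L * |ρ.im - τ| ≤ 1) :
    (∑ ρ ∈ F, (analyticOrderNatAt xi ρ : ℝ)) ^ 2 ≤ 600 + 400 * KK * AHg H ((sg L 1 : ℝ) + τ * I) (5 / L) := by
  obtain ⟨a, ha0, ha2, h⟩ := classHg hEn hL hL40 le_rfl (by linarith) hτ hgood F hF
  rw [show (4 * 1 + 1 : ℝ) / L = 5 / L by norm_num] at ha2
  calc (∑ ρ ∈ F, (analyticOrderNatAt xi ρ : ℝ)) ^ 2 ≤ 200 * 1 ^ 2 * (4 * a + 1) := h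
    _ ≤ 600 + 400 * a ^ 2 := by nlinarith [sq_nonneg (a - 1)]
    _ ≤ 600 + 400 * (KK * AHg H ((sg L 1 : ℝ) + τ * I) (5 / L)) := by gcongr
    _ = _ := by ring

lemma classH1g {P L V τ lam c0 W C0 : ℝ} {H : ℂ → ℂ} (hEn : En P H c0 W C0) (hL : L = Real.log P) (hL40 : 40 ≤ L) (hV : 2 ≤ V) (hVL : V ≤ L)
    (hlam : 1 ≤ lam)
    (hτ : |τ - c0| ≤ W) (hgood : ‖ET P ((sg L V : ℝ) + τ * I)‖ ≤ 1 / 2)
    (hbad : 1 / 2 < ‖ET P ((sg L (V / 2) : ℝ) + τ * I)‖)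
    (F : Finset ℂ) (hF : ∀ ρ ∈ F, xi ρ = 0 ∧ 0 ≤ L * (ρ.re - 1 / 2) ∧ L * (ρ.re - 1 / 2) ≤ V ∧
      L * |ρ.im - τ| ≤ 1) :
    (∑ ρ ∈ F, (analyticOrderNatAt xi ρ : ℝ)) ^ 2 ≤
      400 * V ^ 2 * KK * (lam⁻¹ * AHg H ((sg L V : ℝ) + τ * I) ((4 * V + 1) / L) +
        6 * lam * ‖H ((sg L (V / 2) : ℝ) + τ * I)‖ ^ 2) := by
  obtain ⟨a, ha0, ha2, h⟩ := classHg hEn hL hL40 (by linarith) hVL hτ hgood F hF
  have hL0 : 0 < L := by linarith
  have hlam0 : 0 < lam := by linarith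
  have hVL0 : V / L ≤ 1 := by rw [div_le_one hL0]; exact hVL
  have hVLp : 0 < V / L := by positivity
  have hσ : sg L (V / 2) = 1 / 2 + 2 * (V / L) := by unfold sg; ring
  have h1 := ETg_c_le (σ := sg L (V / 2)) hEn hτ (by rw [hσ]; linarith) (by rw [hσ]; linarith)
  have h2 : 1 ≤ 4 * (KK * ‖H ((sg L (V / 2) : ℝ) + τ * I)‖ ^ 2) := by
    have h3 : (1/2:ℝ) ^ 2 ≤ ‖ET P ((sg L (V / 2) : ℝ) + τ * I)‖ ^ 2 := by
      apply pow_le_pow_left₀ (by norm_num) hbad.le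
    linarith
  set HH := KK * ‖H ((sg L (V / 2) : ℝ) + τ * I)‖ ^ 2 with hH
  have h4 : 4 * a + 1 ≤ 2 * (lam⁻¹ * a ^ 2) + 3 * lam := by
    have h5 : 4 * a ≤ 2 * (lam⁻¹ * a ^ 2) + 2 * lam := by
      have h6 : lam⁻¹ * (a - lam) ^ 2 ≥ 0 := by positivity
      have h7 : lam⁻¹ * (a - lam) ^ 2 = lam⁻¹ * a ^ 2 - 2 * a + lam := by
        field_simp
        ring
      linarith
    linarith
  calc (∑ ρ ∈ F, (analyticOrderNatAt xi ρ : ℝ)) ^ 2 ≤ 200 * V ^ 2 * (4 * a + 1) := h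
    _ ≤ 200 * V ^ 2 * (2 * (lam⁻¹ * a ^ 2) + 3 * lam * (4 * HH)) := by
        apply mul_le_mul_of_nonneg_left _ (by positivity)
        refine h4.trans ?_
        have : 3 * lam * 1 ≤ 3 * lam * (4 * HH) := by gcongr
        linarith
    _ ≤ 200 * V ^ 2 * (2 * (lam⁻¹ * (KK * AHg H ((sg L V : ℝ) + τ * I) ((4 * V + 1) / L))) + 3 * lam * (4 * HH)) := by
        gcongr
    _ = _ := by rw [hH]; ring

lemma Hg_cont2 {H : ℂ → ℂ} (hd : DifferentiableOn ℂ H {s | (-1:ℝ) < s.re}) {σ R : ℝ} (hR : 0 ≤ R) (hRσ : R < σ) :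
    Continuous (Function.uncurry (fun τ θ : ℝ => ‖H (circleMap (σ + τ * I) R θ)‖ ^ 2)) := by
  have h1 : Continuous (fun p : ℝ × ℝ => circleMap ((σ:ℂ) + (p.1:ℂ) * I) R p.2) := by
    unfold circleMap
    fun_prop
  have h2 : Continuous (fun p : ℝ × ℝ => H (circleMap ((σ:ℂ) + (p.1:ℂ) * I) R p.2)) := by
    rw [← continuousOn_univ]
    apply hd.continuousOn.comp h1.continuousOn
    intro p _
    show -1 < (circleMap ((σ:ℂ) + (p.1:ℂ) * I) R p.2).re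
    have h3 : ‖circleMap ((σ:ℂ) + (p.1:ℂ) * I) R p.2 - ((σ:ℂ) + (p.1:ℂ) * I)‖ = R := by
      simp [circleMap, abs_of_nonneg hR]
    have h4 := (abs_le.mp ((Complex.abs_re_le_norm _).trans h3.le)).1
    have e1 : (circleMap ((σ:ℂ) + (p.1:ℂ) * I) R p.2 - ((σ:ℂ) + (p.1:ℂ) * I)).re =
      (circleMap ((σ:ℂ) + (p.1:ℂ) * I) R p.2).re - σ := by
      rw [Complex.sub_re]
      congr 1
      simp
    rw [e1] at h4
    linarith
  exact h2.norm.pow 2

lemma AHg_eq (H : ℂ → ℂ) (c : ℂ) (R : ℝ) : AHg H c R = (2 * Real.pi)⁻¹ * ∫ θ in (0:ℝ)..(2 * Real.pi), ‖H (circleMap c R θ)‖ ^ 2 := rfl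

lemma AHg_cont {H : ℂ → ℂ} (hd : DifferentiableOn ℂ H {s | (-1:ℝ) < s.re}) {σ R : ℝ} (hR : 0 ≤ R) (hRσ : R < σ) : Continuous (fun τ : ℝ => AHg H (σ + τ * I) R) := by
  simp_rw [AHg_eq]
  exact continuous_const.mul
    (intervalIntegral.continuous_parametric_intervalIntegral_of_continuous' (Hg_cont2 hd hR hRσ) _ _)

lemma int_Hg {P σ c0 W C0 : ℝ} {H : ℂ → ℂ} (hEn : En P H c0 W C0) (h1 : 1 / 2 - 1 / Real.log P ≤ σ) (h2 : σ ≤ 9) :
    ∫⁻ t : ℝ, ENNReal.ofReal (‖H (σ + t * I)‖ ^ 2) ≤ ENNReal.ofReal (C0 * W * dec P σ) := by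
  have hT20 : (20:ℝ) ≤ P := le_trans (by norm_num) hEn.hP
  have hl := log_T40 hEn.hP
  have h14 : 1 / 4 ≤ σ := by
    have : 1 / Real.log P ≤ 1 / 40 := by gcongr
    linarith
  rw [← ofReal_integral_eq_lintegral_ofReal (hEn.int _ h14 h2) (Eventually.of_forall fun t => by positivity)]
  exact ENNReal.ofReal_le_ofReal (hEn.ene _ h1 h2)

lemma int_AHg {P σ R c0 W C0 : ℝ} {H : ℂ → ℂ} (hEn : En P H c0 W C0) (hR : 0 ≤ R) (h1 : 1 / 2 - 1 / Real.log P ≤ σ - R) (h2 : σ + R ≤ 9) :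
    ∫⁻ t : ℝ, ENNReal.ofReal (AHg H (σ + t * I) R) ≤ ENNReal.ofReal (C0 * W * dec P (σ - R)) := by
  have hT20 : (20:ℝ) ≤ P := le_trans (by norm_num) hEn.hP
  have hl := log_T40 hEn.hP
  have hl1 : 1 / Real.log P ≤ 1 / 40 := by gcongr
  have hRσ : R < σ := by linarith
  have hc := Hg_cont2 hEn.diff hR hRσ
  have hCE := hEn.hC
  have hW := hEn.hW
  have hpi := Real.pi_pos
  -- pointwise expression as a lintegral
  have e1 : ∀ t : ℝ, ENNReal.ofReal (AHg H (σ + t * I) R) =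
      ENNReal.ofReal ((2 * Real.pi)⁻¹) * ∫⁻ θ in Ioc 0 (2 * Real.pi), ENNReal.ofReal (‖H (circleMap (σ + t * I) R θ)‖ ^ 2) := by
    intro t
    have hct : Continuous (fun θ : ℝ => ‖H (circleMap (σ + t * I) R θ)‖ ^ 2) :=
        hc.uncurry_left t
    have hint : Integrable (fun θ : ℝ => ‖H (circleMap (σ + t * I) R θ)‖ ^ 2) (volume.restrict (Ioc 0 (2 * Real.pi))) :=
      (hct.intervalIntegrable 0 (2 * Real.pi)).1
    rw [AHg_eq, ENNReal.ofReal_mul (by positivity), intervalIntegral.integral_of_le (by positivity),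
      ofReal_integral_eq_lintegral_ofReal hint (Eventually.of_forall fun θ => by positivity)]
  simp_rw [e1]
  rw [lintegral_const_mul' _ _ ENNReal.ofReal_ne_top]
  rw [lintegral_lintegral_swap]
  swap
  · exact (hc.measurable.ennreal_ofReal).aemeasurable
  have h3 : ∀ θ : ℝ, ∫⁻ t : ℝ, ENNReal.ofReal (‖H (circleMap (σ + t * I) R θ)‖ ^ 2) ≤
      ENNReal.ofReal (C0 * W * dec P (σ - R)) := by
    intro θ
    have hcos := Real.neg_one_le_cos θ
    have hcos2 := Real.cos_le_one θ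
    have hlo : -R ≤ R * Real.cos θ := by nlinarith
    have hhi : R * Real.cos θ ≤ R := by nlinarith
    have e2 : ∀ t : ℝ, circleMap (σ + t * I) R θ = ((σ + R * Real.cos θ : ℝ) : ℂ) + ((t + R * Real.sin θ : ℝ) : ℂ) * I := by
      intro t
      unfold circleMap
      rw [Complex.exp_mul_I]
      push_cast
      ring
    simp_rw [e2]
    rw [lintegral_add_right_eq_self (fun t : ℝ => ENNReal.ofReal (‖H (((σ + R * Real.cos θ : ℝ) : ℂ) + (t : ℂ) * I)‖ ^ 2)) (R * Real.sin θ)]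
    refine (int_Hg hEn (by linarith) (by linarith)).trans ?_
    apply ENNReal.ofReal_le_ofReal
    have : dec P (σ + R * Real.cos θ) ≤ dec P (σ - R) := dec_anti (by linarith) (by linarith)
    gcongr
  calc ENNReal.ofReal ((2 * Real.pi)⁻¹) * ∫⁻ θ in Ioc 0 (2 * Real.pi), ∫⁻ t : ℝ, ENNReal.ofReal (‖H (circleMap (σ + t * I) R θ)‖ ^ 2)
      ≤ ENNReal.ofReal ((2 * Real.pi)⁻¹) * ∫⁻ θ in Ioc 0 (2 * Real.pi), ENNReal.ofReal (C0 * W * dec P (σ - R)) := by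
        gcongr with θ
        exact h3 θ
    _ = _ := by
        rw [setLIntegral_const, Real.volume_Ioc, sub_zero, mul_comm (ENNReal.ofReal (C0 * W * dec P (σ - R))), ← mul_assoc,
          ← ENNReal.ofReal_mul (by positivity), inv_mul_cancel₀ (by positivity), ENNReal.ofReal_one, one_mul]

/-- integral bounds for the two types of terms -/
lemma setint_AHg {P σ R c0 W C0 : ℝ} {H : ℂ → ℂ} (hEn : En P H c0 W C0) (hR : 0 ≤ R) (h1 : 1 / 2 - 1 / Real.log P ≤ σ - R) (h2 : σ + R ≤ 9) :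
    ∫ t in Icc (c0 - W) (c0 + W), AHg H (σ + t * I) R ≤ C0 * W * dec P (σ - R) := by
  have hT20 : (20:ℝ) ≤ P := le_trans (by norm_num) hEn.hP
  have hl := log_T40 hEn.hP
  have hl1 : 1 / Real.log P ≤ 1 / 40 := by gcongr
  have hCE := hEn.hC
  have hW := hEn.hW
  have : 0 < dec P (σ - R) := Real.exp_pos _
  exact set_le_of_lint (AHg_cont hEn.diff hR (by linarith)) (fun t => AHg_nonneg _ _ _) (by positivity) (int_AHg hEn hR h1 h2) _

lemma setint_Hg {P σ c0 W C0 : ℝ} {H : ℂ → ℂ} (hEn : En P H c0 W C0) (h1 : 1 / 2 - 1 / Real.log P ≤ σ) (h2 : σ ≤ 9) :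
    ∫ t in Icc (c0 - W) (c0 + W), ‖H (σ + t * I)‖ ^ 2 ≤ C0 * W * dec P σ := by
  have hT20 : (20:ℝ) ≤ P := le_trans (by norm_num) hEn.hP
  have hl := log_T40 hEn.hP
  have hl1 : 1 / Real.log P ≤ 1 / 40 := by gcongr
  have hCE := hEn.hC
  have hW := hEn.hW
  have : 0 < dec P σ := Real.exp_pos _
  exact set_le_of_lint ((Hg_cont hEn.diff (by linarith)).norm.pow 2) (fun t => sq_nonneg _) (by positivity) (int_Hg hEn h1 h2) _

end Pool.Agent.Helper57.DS
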