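import Pool.Agent.Helper57.DS.LocFa

/-!
# DS-11b: the dominating function (adaptation of LH/LocD, LocE)
-/

open MeasureTheory Set Filter Topology Complex Metric
open Pool.Agent.Helper57.LH Pool.Agent.Helper57.Zeta
open scoped ENNReal

namespace Pool.Agent.Helper57.DS

/-- The dominating function. -/
noncomputable def Psig (H : ℂ → ℂ) (L B : ℝ) (j : ℕ) (τ : ℝ) : ℝ :=
  4 * 2 ^ j * ((Wt B (2 * 2 ^ j)) ^ 2 * (KK * (72 * AHg H ((sg L (2 ^ j) : ℝ) + τ * I) (39 / 10 * 2 ^ j / L) +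
      288 * ‖H ((sg L (2 ^ j) : ℝ) + τ * I)‖ ^ 2)) +
    (Wt B (2 ^ j)) ^ 2 * (if j = 0 then 600 + 400 * KK * AHg H ((sg L 1 : ℝ) + τ * I) (5 / L) else
      400 * (2 ^ j) ^ 2 * KK * ((Real.exp (2 ^ j / 160))⁻¹ * AHg H ((sg L (2 ^ j) : ℝ) + τ * I) ((4 * 2 ^ j + 1) / L) +
        6 * Real.exp (2 ^ j / 160) * ‖H ((sg L (2 ^ j / 2) : ℝ) + τ * I)‖ ^ 2)))

/-- pointwise bound for local counts with weights -/
lemma pointwise_Qg {P L B τ c0 W C0 : ℝ} {H : ℂ → ℂ} (hEn : En P H c0 W C0) (hL : L = Real.log P) (hB : 0 < B) {K : ℕ} (hK : good P L K τ)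
    (hKL : (2:ℝ) ^ K ≤ L) (hτ : τ ∈ Icc (c0 - W) (c0 + W)) (F : Finset ℂ)
    (hF : ∀ ρ ∈ F, xi ρ = 0 ∧ 0 ≤ L * (ρ.re - 1 / 2) ∧ L * (ρ.re - 1 / 2) < 2 ^ K ∧ L * |ρ.im - τ| ≤ 1) :
    (∑ ρ ∈ F, (analyticOrderNatAt xi ρ : ℝ) * Wt B (L * (ρ.re - 1 / 2))) ^ 2 ≤
      ∑ j ∈ Finset.range (K + 1), Psig H L B j τ := by
  classical
  have hτ' : |τ - c0| ≤ W := by
    rw [abs_le]; obtain ⟨h1, h2⟩ := hτ; constructor <;> linarith
  have hT20 : (20:ℝ) ≤ P := le_trans (by norm_num) hEn.hP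
  have hL40 : 40 ≤ L := by rw [hL]; exact log_T40 hEn.hP
  have h1 := split_scales hB hK F (fun ρ hρ => ⟨(hF ρ hρ).2.1, (hF ρ hρ).2.2.1⟩)
  have h0 : 0 ≤ ∑ ρ ∈ F, (analyticOrderNatAt xi ρ : ℝ) * Wt B (L * (ρ.re - 1 / 2)) :=
    Finset.sum_nonneg fun ρ _ => mul_nonneg (Nat.cast_nonneg _) (Wt_nonneg _ _)
  refine (pow_le_pow_left₀ h0 h1 2).trans ((cs_scales K _ _).trans ?_)
  refine Finset.sum_le_sum fun j hj => ?_
  rw [Finset.mem_range] at hj
  have h2j : (2:ℝ) ^ j ≤ L := le_trans (pow_le_pow_right₀ (by norm_num) (by omega)) hKL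
  have h1j : (1:ℝ) ≤ 2 ^ j := one_le_pow₀ (by norm_num)
  unfold Psig
  rw [mul_pow, mul_pow]
  rw [show (2:ℝ) ^ (j + 1) = 2 * 2 ^ j by ring]
  apply mul_le_mul_of_nonneg_left _ (by positivity)
  apply add_le_add
  · apply mul_le_mul_of_nonneg_left _ (by positivity)
    unfold Gc
    by_cases hg : good P L j τ
    · rw [if_pos hg]
      apply classGg hEn hL hL40 h1j h2j hτ' hg
      intro ρ hρ
      rw [Finset.mem_filter] at hρ
      obtain ⟨hρF, hρ1, hρ2⟩ := hρ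
      obtain ⟨hx, hv0, _, hu⟩ := hF ρ hρF
      refine ⟨hx, hρ1, ?_, hu⟩
      rw [pow_succ] at hρ2
      linarith
    · rw [if_neg hg]
      have := AHg_nonneg H ((sg L (2 ^ j) : ℝ) + τ * I) (39 / 10 * 2 ^ j / L)
      have := KK_pos
      rw [zero_pow two_ne_zero]
      positivity
  · apply mul_le_mul_of_nonneg_left _ (by positivity)
    unfold Hc
    by_cases hg : good P L j τ ∧ (j = 0 ∨ ¬ good P L (j - 1) τ)
    · rw [if_pos hg]
      by_cases hj0 : j = 0
      · rw [if_pos hj0]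
        subst hj0
        apply classH0g hEn hL hL40 hτ'
        · have := hg.1
          unfold good at this
          rwa [pow_zero] at this
        · intro ρ hρ
          rw [Finset.mem_filter] at hρ
          obtain ⟨hρF, hρ1⟩ := hρ
          obtain ⟨hx, hv0, _, hu⟩ := hF ρ hρF
          rw [pow_zero] at hρ1
          exact ⟨hx, hv0, hρ1, hu⟩
      · rw [if_neg hj0]
        have hbad : ¬ good P L (j - 1) τ := by
          rcases hg.2 with h | h
          · exact absurd h hj0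
          · exact h
        obtain ⟨i, rfl⟩ : ∃ i, j = i + 1 := ⟨j - 1, by omega⟩
        apply classH1g (lam := Real.exp (2 ^ (i + 1) / 160)) hEn hL hL40 _ h2j (Real.one_le_exp (by positivity)) hτ' hg.1
        · unfold good at hbad
          rw [show (2:ℝ) ^ (i + 1) / 2 = 2 ^ (i + 1 - 1) by rw [pow_succ]; simp]
          exact not_le.mp hbad
        · intro ρ hρ
          rw [Finset.mem_filter] at hρ
          obtain ⟨hρF, hρ1⟩ := hρ
          obtain ⟨hx, hv0, _, hu⟩ := hF ρ hρF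
          exact ⟨hx, hv0, hρ1, hu⟩
        · have : (1:ℝ) ≤ 2 ^ i := one_le_pow₀ (by norm_num)
          rw [pow_succ]; linarith
    · rw [if_neg hg]
      split_ifs with hj0
      · have := AHg_nonneg H ((sg L 1 : ℝ) + τ * I) (5 / L)
        have := KK_pos
        rw [zero_pow two_ne_zero]
        positivity
      · have := AHg_nonneg H ((sg L (2 ^ j) : ℝ) + τ * I) ((4 * 2 ^ j + 1) / L)
        have := KK_pos
        rw [zero_pow two_ne_zero]
        positivity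

lemma iong {f : ℝ → ℝ} (hf : Continuous f) (c0 W : ℝ) : IntegrableOn f (Icc (c0 - W) (c0 + W)) :=
  hf.continuousOn.integrableOn_compact isCompact_Icc

lemma Psig_cont {P L B c0 W C0 : ℝ} {H : ℂ → ℂ} (hEn : En P H c0 W C0) (hL40 : 40 ≤ L) (j : ℕ) :
    Continuous (fun τ => Psig H L B j τ) := by
  have hL0 : 0 < L := by linarith
  have hw : (1:ℝ) ≤ 2 ^ j := one_le_pow₀ (by norm_num)
  set w : ℝ := 2 ^ j with hwdef
  have h1L : 1 / L ≤ 1 / 40 := by gcongr
  have hwLp : 0 < w / L := by positivity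
  have hsw : sg L w = 1 / 2 + 4 * (w / L) := by unfold sg; ring
  have c1 : Continuous (fun τ : ℝ => AHg H ((sg L w : ℝ) + τ * I) (39 / 10 * w / L)) := by
    apply AHg_cont hEn.diff (by positivity)
    rw [hsw]
    have : 39 / 10 * w / L = 39 / 10 * (w / L) := by ring
    linarith
  have c2 : Continuous (fun τ : ℝ => ‖H ((sg L w : ℝ) + τ * I)‖ ^ 2) := (Hg_cont hEn.diff (by rw [hsw]; linarith)).norm.pow 2
  have c3 : Continuous (fun τ : ℝ => AHg H ((sg L 1 : ℝ) + τ * I) (5 / L)) := by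
    apply AHg_cont hEn.diff (by positivity)
    have h1 : sg L 1 = 1 / 2 + 4 * (1 / L) := by unfold sg; ring
    have : 5 / L = 5 * (1 / L) := by ring
    rw [h1]
    linarith
  have c4 : Continuous (fun τ : ℝ => AHg H ((sg L w : ℝ) + τ * I) ((4 * w + 1) / L)) := by
    apply AHg_cont hEn.diff (by positivity)
    rw [hsw]
    have : (4 * w + 1) / L = 4 * (w / L) + 1 / L := by ring
    linarith
  have c5 : Continuous (fun τ : ℝ => ‖H ((sg L (w / 2) : ℝ) + τ * I)‖ ^ 2) := by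
    have h1 : sg L (w / 2) = 1 / 2 + 2 * (w / L) := by unfold sg; ring
    exact (Hg_cont hEn.diff (by rw [h1]; linarith)).norm.pow 2
  unfold Psig
  simp only [← hwdef]
  apply continuous_const.mul
  apply Continuous.add
  · exact continuous_const.mul (continuous_const.mul ((continuous_const.mul c1).add (continuous_const.mul c2)))
  · apply continuous_const.mul
    by_cases hj : j = 0
    · simp only [hj, if_true]
      exact continuous_const.add (continuous_const.mul c3)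
    · simp only [hj, if_false]
      exact continuous_const.mul ((continuous_const.mul c4).add (continuous_const.mul c5))

lemma Psig_nonneg (H : ℂ → ℂ) (L B : ℝ) (j : ℕ) (τ : ℝ) : 0 ≤ Psig H L B j τ := by
  unfold Psig
  have hK := KK_pos
  have h1 := AHg_nonneg H ((sg L (2 ^ j) : ℝ) + τ * I) (39 / 10 * 2 ^ j / L)
  have h2 := AHg_nonneg H ((sg L 1 : ℝ) + τ * I) (5 / L)
  have h3 := AHg_nonneg H ((sg L (2 ^ j) : ℝ) + τ * I) ((4 * 2 ^ j + 1) / L)
  apply mul_nonneg (by positivity)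
  apply add_nonneg (by positivity)
  apply mul_nonneg (by positivity)
  split_ifs <;> positivity

lemma lin2g {f g : ℝ → ℝ} (hf : Continuous f) (hg : Continuous g) (c0 W a b : ℝ) :
    ∫ τ in Icc (c0 - W) (c0 + W), (a * f τ + b * g τ) = a * (∫ τ in Icc (c0 - W) (c0 + W), f τ) + b * ∫ τ in Icc (c0 - W) (c0 + W), g τ := by
  have h := integral_add (μ := volume.restrict (Icc (c0 - W) (c0 + W))) (f := fun τ => a * f τ) (g := fun τ => b * g τ)
    (iong (continuous_const.mul hf) c0 W) (iong (continuous_const.mul hg) c0 W)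
  rw [h, integral_const_mul, integral_const_mul]

/-- constant -/
noncomputable def CPg : ℝ := 23040 * KK * C8 + 11200 * KK * C8 + 8 * (1200 + 400 * KK)

lemma CPg_pos : 0 < CPg := by
  unfold CPg
  have := KK_pos
  have := C8_pos
  positivity

lemma calcGg {w B E I1 I2 : ℝ} (hB : 9600 ≤ B) (hw : 1 ≤ w) (hE : 0 < E)
    (h1 : I1 ≤ E * Real.exp (-(w / 1200))) (h2 : I2 ≤ E * Real.exp (-(w / 1200)))
    (h10 : 0 ≤ I1) (h20 : 0 ≤ I2) :
    4 * w * ((Wt B (2 * w)) ^ 2 * (KK * (72 * I1 + 288 * I2))) ≤ 23040 * KK * C8 * (E / B ^ 4) * (1 / w) := by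
  have hCE := CE_one
  have hCE0 : 0 < CE := by linarith
  have h := calcG (T := E / CE) hB hw (by positivity) (I1 := I1) (I2 := I2)
    (by rw [mul_div_cancel₀ _ hCE0.ne']; exact h1) (by rw [mul_div_cancel₀ _ hCE0.ne']; exact h2) h10 h20
  refine h.trans (le_of_eq ?_)
  field_simp

lemma calcH1g {w B E I4 I5 : ℝ} (hB : 9600 ≤ B) (hw : 1 ≤ w) (hE : 0 < E)
    (h1 : I4 ≤ E) (h2 : I5 ≤ E * Real.exp (-(w / 80)))
    (h10 : 0 ≤ I4) (h20 : 0 ≤ I5) :
    4 * w * ((Wt B w) ^ 2 * (400 * w ^ 2 * KK * ((Real.exp (w / 160))⁻¹ * I4 + 6 * Real.exp (w / 160) * I5)))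
      ≤ 11200 * KK * C8 * (E / B ^ 4) * (1 / w) := by
  have hCE := CE_one
  have hCE0 : 0 < CE := by linarith
  have h := calcH1 (T := E / CE) hB hw (by positivity) (I4 := I4) (I5 := I5)
    (by rw [mul_div_cancel₀ _ hCE0.ne']; exact h1) (by rw [mul_div_cancel₀ _ hCE0.ne']; exact h2) h10 h20
  refine h.trans (le_of_eq ?_)
  field_simp

lemma calcH0g {B E I0 I3 : ℝ} (hB : 9600 ≤ B) (hE : 0 < E)
    (h1 : I0 ≤ 2 * E) (h2 : I3 ≤ E) (h10 : 0 ≤ I0) (h20 : 0 ≤ I3) :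
    4 * 1 * ((Wt B 1) ^ 2 * (600 * I0 + 400 * KK * I3)) ≤ 8 * (1200 + 400 * KK) * (E / B ^ 4) := by
  have hWH := WtH_le hB (w := 1) le_rfl
  have hKK := KK_pos
  have hexp : Real.exp (1 / 4800) ≤ 2 := by
    have h2 : Real.exp (1 / 4800) ≤ Real.exp (1 / 2) := Real.exp_le_exp.mpr (by norm_num)
    have h3 : Real.exp (1 / 2) ^ 2 = Real.exp 1 := by rw [← Real.exp_nat_mul]; norm_num
    have h4 := Real.exp_one_lt_d9
    have h5 := Real.exp_pos (1 / 2)
    nlinarith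
  have hW2 : (Wt B 1) ^ 2 ≤ 1 / B ^ 4 * (1 ^ 4 * 2) := by
    refine hWH.trans ?_
    gcongr
  calc 4 * 1 * ((Wt B 1) ^ 2 * (600 * I0 + 400 * KK * I3))
      ≤ 4 * 1 * ((1 / B ^ 4 * (1 ^ 4 * 2)) * (600 * (2 * E) + 400 * KK * E)) := by
        gcongr
    _ = _ := by ring

lemma vol_g {c0 W C0 : ℝ} (hW : 1 ≤ W) (hC : 1 ≤ C0) : ∫ _ in Icc (c0 - W) (c0 + W), (1:ℝ) ≤ 2 * (C0 * W) := by
  rw [setIntegral_const, smul_eq_mul, mul_one, Real.volume_real_Icc_of_le (by linarith)]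
  nlinarith

lemma int_Psig {P L B c0 W C0 : ℝ} {H : ℂ → ℂ} (hEn : En P H c0 W C0) (hL : L = Real.log P) (hB : 9600 ≤ B) {j : ℕ} (hj : (2:ℝ) ^ j ≤ L) :
    ∫ τ in Icc (c0 - W) (c0 + W), Psig H L B j τ ≤ CPg * ((C0 * W) / B ^ 4) * (1 / 2) ^ j := by
  have hT20 : (20:ℝ) ≤ P := le_trans (by norm_num) hEn.hP
  have hL40 : 40 ≤ L := by rw [hL]; exact log_T40 hEn.hP
  have hL0 : 0 < L := by linarith
  have hB0 : 0 < B := by linarith
  have hw : (1:ℝ) ≤ 2 ^ j := one_le_pow₀ (by norm_num)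
  have hinv : ((1:ℝ) / 2) ^ j = 1 / 2 ^ j := by rw [one_div_pow]
  rw [hinv]
  have h1L : 1 / L ≤ 1 / 40 := by gcongr
  have h1Lp : 0 < 1 / L := by positivity
  have hCE := hEn.hC
  have hW := hEn.hW
  have hE0 : 0 < C0 * W := by positivity
  have hKK := KK_pos
  have hC8 := C8_pos
  have hwL : (2:ℝ) ^ j / L ≤ 1 := by rw [div_le_one hL0]; exact hj
  have hwLp : 0 < (2:ℝ) ^ j / L := by positivity
  have e0 : ∀ τ, Psig H L B j τ =
    4 * 2 ^ j * ((Wt B (2 * 2 ^ j)) ^ 2 * (KK * (72 * AHg H ((sg L (2 ^ j) : ℝ) + τ * I) (39 / 10 * 2 ^ j / L) +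
      288 * ‖H ((sg L (2 ^ j) : ℝ) + τ * I)‖ ^ 2)) +
    (Wt B (2 ^ j)) ^ 2 * (if j = 0 then 600 + 400 * KK * AHg H ((sg L 1 : ℝ) + τ * I) (5 / L) else
      400 * (2 ^ j) ^ 2 * KK * ((Real.exp (2 ^ j / 160))⁻¹ * AHg H ((sg L (2 ^ j) : ℝ) + τ * I) ((4 * 2 ^ j + 1) / L) +
        6 * Real.exp (2 ^ j / 160) * ‖H ((sg L (2 ^ j / 2) : ℝ) + τ * I)‖ ^ 2))) := fun τ => rfl
  have hw0 : j = 0 → (2:ℝ) ^ j = 1 := fun h => by rw [h, pow_zero]
  generalize (2:ℝ) ^ j = w at *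
  have hsw : sg L w = 1 / 2 + 4 * (w / L) := by unfold sg; ring
  have eR1 : 39 / 10 * w / L = 39 / 10 * (w / L) := by ring
  have eR4 : (4 * w + 1) / L = 4 * (w / L) + 1 / L := by ring
  have hs5 : sg L (w / 2) = 1 / 2 + 2 * (w / L) := by unfold sg; ring
  have hs1 : sg L 1 = 1 / 2 + 4 * (1 / L) := by unfold sg; ring
  have eR3 : 5 / L = 5 * (1 / L) := by ring
  have c1 : Continuous (fun τ : ℝ => AHg H ((sg L w : ℝ) + τ * I) (39 / 10 * w / L)) := by
    apply AHg_cont hEn.diff (by positivity)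
    rw [hsw, eR1]; linarith
  have c2 : Continuous (fun τ : ℝ => ‖H ((sg L w : ℝ) + τ * I)‖ ^ 2) := (Hg_cont hEn.diff (by rw [hsw]; linarith)).norm.pow 2
  have c3 : Continuous (fun τ : ℝ => AHg H ((sg L 1 : ℝ) + τ * I) (5 / L)) := by
    apply AHg_cont hEn.diff (by positivity)
    rw [hs1, eR3]
    linarith
  have c4 : Continuous (fun τ : ℝ => AHg H ((sg L w : ℝ) + τ * I) ((4 * w + 1) / L)) := by
    apply AHg_cont hEn.diff (by positivity)
    rw [hsw, eR4]
    linarith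
  have c5 : Continuous (fun τ : ℝ => ‖H ((sg L (w / 2) : ℝ) + τ * I)‖ ^ 2) :=
    (Hg_cont hEn.diff (by rw [hs5]; linarith)).norm.pow 2
  -- the integrals
  have hdec1 : dec P (1 / 2 + 1 / 10 * (w / L)) = Real.exp (-(w / 1200)) := by
    rw [dec_half (by positivity) (by linarith), ← hL]
    congr 1
    field_simp
    ring
  have hdec5 : dec P (1 / 2 + 3 / 2 * (w / L)) = Real.exp (-(w / 80)) := by
    rw [dec_half (by positivity) (by linarith), ← hL]
    congr 1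
    field_simp
    ring
  have i1 : ∫ τ in Icc (c0 - W) (c0 + W), AHg H ((sg L w : ℝ) + τ * I) (39 / 10 * w / L) ≤ C0 * W * Real.exp (-(w / 1200)) := by
    have h := setint_AHg (σ := sg L w) (R := 39 / 10 * w / L) hEn (by positivity) (by rw [hsw, eR1, ← hL]; linarith) (by rw [hsw, eR1]; linarith)
    rw [show sg L w - 39 / 10 * w / L = 1 / 2 + 1 / 10 * (w / L) by rw [hsw]; ring, hdec1] at h
    exact h
  have i2 : ∫ τ in Icc (c0 - W) (c0 + W), ‖H ((sg L w : ℝ) + τ * I)‖ ^ 2 ≤ C0 * W * Real.exp (-(w / 1200)) := by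
    have h := setint_Hg (σ := sg L w) hEn (by rw [hsw, ← hL]; linarith) (by rw [hsw]; linarith)
    refine h.trans ?_
    rw [← hdec1]
    have : dec P (sg L w) ≤ dec P (1 / 2 + 1 / 10 * (w / L)) := dec_anti (by linarith) (by rw [hsw]; linarith)
    gcongr
  have i3 : ∫ τ in Icc (c0 - W) (c0 + W), AHg H ((sg L 1 : ℝ) + τ * I) (5 / L) ≤ C0 * W := by
    have h := setint_AHg (σ := sg L 1) (R := 5 / L) hEn (by positivity) (by rw [hs1, eR3, ← hL]; linarith) (by rw [hs1, eR3]; linarith)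
    refine h.trans ?_
    calc C0 * W * dec P (sg L 1 - 5 / L) ≤ C0 * W * 1 := by
          have := dec_le_one (T := P) (by linarith) (sg L 1 - 5 / L)
          gcongr
      _ = _ := by ring
  have i4 : ∫ τ in Icc (c0 - W) (c0 + W), AHg H ((sg L w : ℝ) + τ * I) ((4 * w + 1) / L) ≤ C0 * W := by
    have h := setint_AHg (σ := sg L w) (R := (4 * w + 1) / L) hEn (by positivity) (by rw [hsw, eR4, ← hL]; linarith) (by rw [hsw, eR4]; linarith)
    refine h.trans ?_
    calc C0 * W * dec P (sg L w - (4 * w + 1) / L) ≤ C0 * W * 1 := by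
          have := dec_le_one (T := P) (by linarith) (sg L w - (4 * w + 1) / L)
          gcongr
      _ = _ := by ring
  have i5 : ∫ τ in Icc (c0 - W) (c0 + W), ‖H ((sg L (w / 2) : ℝ) + τ * I)‖ ^ 2 ≤ C0 * W * Real.exp (-(w / 80)) := by
    have h := setint_Hg (σ := sg L (w / 2)) hEn (by rw [hs5, ← hL]; linarith) (by rw [hs5]; linarith)
    refine h.trans ?_
    rw [← hdec5]
    have : dec P (sg L (w / 2)) ≤ dec P (1 / 2 + 3 / 2 * (w / L)) := dec_anti (by linarith) (by rw [hs5]; linarith)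
    gcongr
  -- split
  have hG := calcGg hB hw hE0 i1 i2 (integral_nonneg fun _ => AHg_nonneg _ _ _) (integral_nonneg fun _ => sq_nonneg _)
  rw [← lin2g c1 c2, ← integral_const_mul, ← integral_const_mul, ← integral_const_mul] at hG
  simp_rw [e0, mul_add (4 * w)]
  have cG : Continuous (fun τ : ℝ => 4 * w * ((Wt B (2 * w)) ^ 2 * (KK * (72 * AHg H ((sg L w : ℝ) + τ * I) (39 / 10 * w / L) +
      288 * ‖H ((sg L w : ℝ) + τ * I)‖ ^ 2)))) :=
    continuous_const.mul (continuous_const.mul (continuous_const.mul ((continuous_const.mul c1).add (continuous_const.mul c2))))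
  by_cases hj0 : j = 0
  · have hw1 : w = 1 := hw0 hj0
    simp only [hj0, if_true]
    have hH := calcH0g hB hE0 (vol_g (c0 := c0) hW hCE) i3 (integral_nonneg fun _ => zero_le_one) (integral_nonneg fun _ => AHg_nonneg _ _ _)
    rw [← lin2g (f := fun _ => (1:ℝ)) continuous_const c3, ← integral_const_mul, ← integral_const_mul] at hH
    have cH : Continuous (fun τ : ℝ => 4 * w * ((Wt B w) ^ 2 * (600 + 400 * KK * AHg H ((sg L 1 : ℝ) + τ * I) (5 / L)))) :=
      continuous_const.mul (continuous_const.mul (continuous_const.add (continuous_const.mul c3)))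
    have hadd := integral_add (iong cG c0 W) (iong cH c0 W)
    rw [hadd]
    have hH' : ∫ τ in Icc (c0 - W) (c0 + W), 4 * w * ((Wt B w) ^ 2 * (600 + 400 * KK * AHg H ((sg L 1 : ℝ) + τ * I) (5 / L))) ≤
        8 * (1200 + 400 * KK) * ((C0 * W) / B ^ 4) * (1 / w) := by
      rw [hw1, div_one]
      simp only [mul_one] at hH ⊢
      exact hH
    refine (add_le_add hG hH').trans ?_
    unfold CPg
    have : 0 ≤ 11200 * KK * C8 * ((C0 * W) / B ^ 4) * (1 / w) := by positivity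
    linarith
  · simp only [hj0, if_false]
    have hH := calcH1g hB hw hE0 i4 i5 (integral_nonneg fun _ => AHg_nonneg _ _ _) (integral_nonneg fun _ => sq_nonneg _)
    rw [← lin2g c4 c5, ← integral_const_mul, ← integral_const_mul, ← integral_const_mul] at hH
    have cH : Continuous (fun τ : ℝ => 4 * w * ((Wt B w) ^ 2 * (400 * w ^ 2 * KK * ((Real.exp (w / 160))⁻¹ * AHg H ((sg L w : ℝ) + τ * I) ((4 * w + 1) / L) +
        6 * Real.exp (w / 160) * ‖H ((sg L (w / 2) : ℝ) + τ * I)‖ ^ 2)))) :=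
      continuous_const.mul (continuous_const.mul (continuous_const.mul ((continuous_const.mul c4).add (continuous_const.mul c5))))
    have hadd := integral_add (iong cG c0 W) (iong cH c0 W)
    rw [hadd]
    refine (add_le_add hG hH).trans ?_
    unfold CPg
    have : 0 ≤ 8 * (1200 + 400 * KK) * ((C0 * W) / B ^ 4) * (1 / w) := by positivity
    linarith

/-- Bound for the weighted local counts of zeros to the right of the critical line. -/
theorem Qboundg : ∃ P0 : ℝ, 3 ^ 40 ≤ P0 ∧ ∀ {P c0 W C0 : ℝ} {H : ℂ → ℂ}, P0 ≤ P → En P H c0 W C0 → ∀ B : ℝ, 9600 ≤ B →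
    ∃ Ψ : ℝ → ℝ, Continuous Ψ ∧ (∀ τ, 0 ≤ Ψ τ) ∧ ∫ τ in Icc (c0 - W) (c0 + W), Ψ τ ≤ 2 * CPg * ((C0 * W) / B ^ 4) ∧
    ∀ τ ∈ Icc (c0 - W) (c0 + W), ∀ F : Finset ℂ, (∀ ρ ∈ F, xi ρ = 0 ∧ 1 / 2 ≤ ρ.re ∧ Real.log P * |ρ.im - τ| ≤ 1) →
      (∑ ρ ∈ F, (analyticOrderNatAt xi ρ : ℝ) * Wt B (Real.log P * (ρ.re - 1 / 2))) ^ 2 ≤ Ψ τ := by
  have hCP := CPg_pos
  refine ⟨max (3 ^ 40) ((2 * Z32 ^ 2 + 1) ^ 160), le_max_left _ _, ?_⟩
  intro P c0 W C0 H hT hEn B hB
  have hT2 : (2 * Z32 ^ 2 + 1) ^ 160 ≤ P := (le_max_right _ _).trans hT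
  have hT20 : (20:ℝ) ≤ P := le_trans (by norm_num) hEn.hP
  have hCE := hEn.hC
  have hW := hEn.hW
  have hB0 : 0 < B := by linarith
  set L := Real.log P with hL
  have hL40 : 40 ≤ L := log_T40 hEn.hP
  have hL0 : 0 < L := by linarith
  obtain ⟨n, hn1, hn2⟩ := exists_nat_pow_near (show (1:ℝ) ≤ L / 2 by linarith) (show (1:ℝ) < 2 by norm_num)
  set K := n + 1 with hK
  have hKL : (2:ℝ) ^ K ≤ L := by rw [hK, pow_succ]; linarith
  refine ⟨fun τ => ∑ j ∈ Finset.range (K + 1), Psig H L B j τ, ?_, ?_, ?_, ?_⟩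
  · exact continuous_finsetSum _ fun j _ => Psig_cont hEn hL40 j
  · intro τ
    exact Finset.sum_nonneg fun j _ => Psig_nonneg _ _ _ _ _
  · rw [integral_finsetSum _ (fun j _ => iong (Psig_cont hEn hL40 j) c0 W)]
    calc ∑ j ∈ Finset.range (K + 1), ∫ τ in Icc (c0 - W) (c0 + W), Psig H L B j τ
        ≤ ∑ j ∈ Finset.range (K + 1), CPg * ((C0 * W) / B ^ 4) * (1 / 2) ^ j := by
          refine Finset.sum_le_sum fun j hj => ?_
          rw [Finset.mem_range] at hj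
          apply int_Psig hEn hL hB
          exact le_trans (pow_le_pow_right₀ (by norm_num) (by omega)) hKL
      _ = CPg * ((C0 * W) / B ^ 4) * ∑ j ∈ Finset.range (K + 1), (1 / 2) ^ j := by rw [Finset.mul_sum]
      _ ≤ CPg * ((C0 * W) / B ^ 4) * 2 := by
          gcongr
          exact sum_half_pow _
      _ = _ := by ring
  · intro τ hτ F hF
    have hKgood : good P L K τ := by
      unfold good
      have hre : 2 ≤ (((sg L (2 ^ K) : ℝ) : ℂ) + τ * I).re := by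
        have e1 : (((sg L (2 ^ K) : ℝ) : ℂ) + τ * I).re = 1 / 2 + 4 * (2 ^ K / L) := by
          rw [Complex.add_re, Complex.ofReal_re, Complex.mul_I_re, Complex.ofReal_im]
          unfold sg
          ring
        rw [e1]
        have : 1 / 2 ≤ 2 ^ K / L := by
          rw [le_div_iff₀ hL0]; linarith
        linarith
      have hX1 : 1 < XT P := Real.one_lt_rpow (by linarith) (by norm_num)
      have h1 := right_bound hX1 hre
      unfold ET
      refine h1.trans ?_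
      have hZ := Z32_pos
      have h2 : 2 * Z32 ^ 2 ≤ XT P ^ (1 / 4 : ℝ) := by
        unfold XT
        rw [← Real.rpow_mul (by linarith)]
        have h3 : ((2 * Z32 ^ 2 + 1) ^ 160) ^ ((1 / 40 : ℝ) * (1 / 4)) ≤ P ^ ((1 / 40 : ℝ) * (1 / 4)) := by
          gcongr
        have h4 : ((2 * Z32 ^ 2 + 1) ^ 160) ^ ((1 / 40 : ℝ) * (1 / 4)) = 2 * Z32 ^ 2 + 1 := by
          rw [← Real.rpow_natCast, ← Real.rpow_mul (by positivity)]
          norm_num
        linarith
      rw [Real.rpow_neg (by linarith), ← div_eq_mul_inv, div_le_iff₀ (Real.rpow_pos_of_pos (by linarith) _)]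
      linarith
    apply pointwise_Qg hEn hL hB0 hKgood hKL hτ F
    intro ρ hρ
    obtain ⟨h1, h2, h3⟩ := hF ρ hρ
    have h4 := (xi_eq_zero_iff.mp h1).2.1
    refine ⟨h1, mul_nonneg hL0.le (by linarith), ?_, h3⟩
    rw [hK]
    nlinarith

end Pool.Agent.Helper57.DS
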