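import Pool.Agent.Helper57.DS.Def

/-!
# DS-3: the off-diagonal terms (project DS, see Def.lean)

`z = zT T`, `lam, mu > 0`, `12 η max(lam², mu²) ≤ |lam² - mu²|`, `η ≤ 1/24`.

For fixed `v, v' ∈ [-η, η]`: substituting `x = e^{-u}` (`u ≤ 0` is `x ≥ 1`, as in `LH/SecMom` `lint_Fu`, `en_deriv`):
`∫_{u ≤ 0} atm lam z (u-v) conj(atm mu z (u-v')) du = e^{(v+v')/4} ∫_1^∞ x^{-1/2} exp(-w x) dx`, `w = π(lam² e^v z + mu² e^{v'} z̄)`,
`Re w > 0`, `‖w‖ ≥ |Im w| = π Im z |lam² e^v - mu² e^{v'}| ≥ π (1/2)(2/3)|lam² - mu²|` (`|e^v - 1| ≤ 2η`), so by `LH.osc_int` the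
modulus is `≤ e^{η/2}·2/‖w‖ ≤ 4/|lam² - mu²|`.
`off`: Fubini on `[-η,η]² × (-∞, 0]` (`‖atm lam z (u-v)‖ ≤ e^{1/96}·e^{-u/4} exp(-π lam² e^{-1/24} e^{-u} Re z)`, which is bounded by
an integrable function of `u ≤ 0`; everything is continuous), the phases have modulus one, `(1/2η)² ∫∫ 4/|lam²-mu²| = 4/|lam²-mu²|`.
-/

open MeasureTheory Set Filter Topology
open Pool.Agent.Helper57.LH

namespace Pool.Agent.Helper57.DS

private lemma gap38 {lam mu v v' : ℝ} (hv : |v| ≤ 1 / 24) (hv' : |v'| ≤ 1 / 24)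
    (hsep : 12 * max |v| |v'| * max (lam ^ 2) (mu ^ 2) ≤ |lam ^ 2 - mu ^ 2|) :
    2 / 3 * |lam ^ 2 - mu ^ 2| ≤ |lam ^ 2 * Real.exp v - mu ^ 2 * Real.exp v'| := by
  have h1 := Real.abs_exp_sub_one_le (x := v) (by linarith)
  have h2 := Real.abs_exp_sub_one_le (x := v') (by linarith)
  have hM : 0 ≤ max (lam ^ 2) (mu ^ 2) := le_max_of_le_left (sq_nonneg _)
  have h3 : lam ^ 2 * |Real.exp v - 1| ≤ max (lam ^ 2) (mu ^ 2) * (2 * max |v| |v'|) :=
    mul_le_mul (le_max_left _ _) (h1.trans (by linarith [le_max_left |v| |v'|])) (abs_nonneg _) hM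
  have h4 : mu ^ 2 * |Real.exp v' - 1| ≤ max (lam ^ 2) (mu ^ 2) * (2 * max |v| |v'|) :=
    mul_le_mul (le_max_right _ _) (h2.trans (by linarith [le_max_right |v| |v'|])) (abs_nonneg _) hM
  have h5 : |lam ^ 2 - mu ^ 2| ≤ |lam ^ 2 * Real.exp v - mu ^ 2 * Real.exp v'| +
      (lam ^ 2 * |Real.exp v - 1| + mu ^ 2 * |Real.exp v' - 1|) := by
    have e : lam ^ 2 - mu ^ 2 = (lam ^ 2 * Real.exp v - mu ^ 2 * Real.exp v') -
        (lam ^ 2 * (Real.exp v - 1) - mu ^ 2 * (Real.exp v' - 1)) := by ring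
    rw [e]
    refine (abs_sub _ _).trans (add_le_add le_rfl ((abs_sub _ _).trans (le_of_eq ?_)))
    rw [abs_mul, abs_mul, abs_of_nonneg (sq_nonneg lam), abs_of_nonneg (sq_nonneg mu)]
  nlinarith

private lemma prod38 (lam mu v v' u : ℝ) (z : ℂ) :
    atm lam z (u - v) * starRingEnd ℂ (atm mu z (u - v')) = (Real.exp ((v + v') / 4) : ℂ) *
      (|-Real.exp (-u)| • ((((Real.exp (-u)) ^ (-(1/2) : ℝ) : ℝ) : ℂ) *
        Complex.exp (-((Real.pi * ((lam ^ 2 * Real.exp v : ℝ) * z + (mu ^ 2 * Real.exp v' : ℝ) * starRingEnd ℂ z)) *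
          ((Real.exp (-u) : ℝ) : ℂ))))) := by
  unfold atm
  rw [map_mul, Complex.conj_ofReal, ← Complex.exp_conj, map_neg, map_mul, map_mul, map_mul, map_pow,
    Complex.conj_ofReal, Complex.conj_ofReal, Complex.conj_ofReal, abs_neg, abs_of_pos (Real.exp_pos _),
    Complex.real_smul, ← Real.exp_mul]
  have e1 : Real.exp (-(u - v)) = Real.exp v * Real.exp (-u) := by rw [← Real.exp_add]; ring_nf
  have e2 : Real.exp (-(u - v')) = Real.exp v' * Real.exp (-u) := by rw [← Real.exp_add]; ring_nf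
  have e3 : Real.exp (-(1/4) * (u - v)) * Real.exp (-(1/4) * (u - v')) =
      Real.exp ((v + v') / 4) * (Real.exp (-u) * Real.exp (-u * (-(1/2)))) := by
    rw [← Real.exp_add, ← Real.exp_add, ← Real.exp_add]
    congr 1
    ring
  have e4 : Complex.exp (-(Real.pi * (lam : ℂ) ^ 2 * (Real.exp (-(u - v)) : ℝ) * z)) *
      Complex.exp (-(Real.pi * (mu : ℂ) ^ 2 * (Real.exp (-(u - v')) : ℝ) * starRingEnd ℂ z)) =
      Complex.exp (-((Real.pi * ((lam ^ 2 * Real.exp v : ℝ) * z + (mu ^ 2 * Real.exp v' : ℝ) * starRingEnd ℂ z)) *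
          ((Real.exp (-u) : ℝ) : ℂ))) := by
    rw [← Complex.exp_add, e1, e2]
    congr 1
    push_cast
    ring
  rw [← e4, mul_mul_mul_comm, ← Complex.ofReal_mul, e3]
  push_cast
  ring

lemma pair_int {T lam mu v v' : ℝ} (hT : 100 ≤ T) (hlam : 0 < lam) (hmu : 0 < mu)
    (hv : |v| ≤ 1 / 24) (hv' : |v'| ≤ 1 / 24) (hne : lam ≠ mu)
    (hsep : 12 * max |v| |v'| * max (lam ^ 2) (mu ^ 2) ≤ |lam ^ 2 - mu ^ 2|) :
    IntegrableOn (fun u : ℝ => atm lam (zT T) (u - v) * starRingEnd ℂ (atm mu (zT T) (u - v'))) (Iic 0) ∧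
    ‖∫ u in Iic (0:ℝ), atm lam (zT T) (u - v) * starRingEnd ℂ (atm mu (zT T) (u - v'))‖ ≤ 4 / |lam ^ 2 - mu ^ 2| := by
  obtain ⟨hz0, -, -, hz1, -⟩ := zT_facts (T := T) (by linarith)
  obtain ⟨z, hz⟩ : ∃ z, z = zT T := ⟨_, rfl⟩
  rw [← hz] at hz0 hz1 ⊢
  obtain ⟨w, hw⟩ : ∃ w : ℂ, w = Real.pi * ((lam ^ 2 * Real.exp v : ℝ) * z +
    (mu ^ 2 * Real.exp v' : ℝ) * starRingEnd ℂ z) := ⟨_, rfl⟩
  have hwre : w.re = Real.pi * ((lam ^ 2 * Real.exp v + mu ^ 2 * Real.exp v') * z.re) := by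
    rw [hw, Complex.re_ofReal_mul, Complex.add_re, Complex.re_ofReal_mul, Complex.re_ofReal_mul, Complex.conj_re]
    ring
  have hwim : w.im = Real.pi * ((lam ^ 2 * Real.exp v - mu ^ 2 * Real.exp v') * z.im) := by
    rw [hw, Complex.im_ofReal_mul, Complex.add_im, Complex.im_ofReal_mul, Complex.im_ofReal_mul, Complex.conj_im]
    ring
  have hw0 : 0 < w.re := by
    rw [hwre]
    have := Real.exp_pos v
    have := Real.exp_pos v'
    have := Real.pi_pos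
    positivity
  have hΔ : 0 < |lam ^ 2 - mu ^ 2| := by
    rw [abs_pos, sub_ne_zero]
    intro h
    exact hne ((sq_eq_sq₀ hlam.le hmu.le).1 h)
  have hzim : 1 / 2 ≤ z.im := by
    have h1 : 1 / T ^ 2 ≤ 1 / 2 := one_div_le_one_div_of_le (by norm_num) (by nlinarith)
    linarith
  have hwn : |lam ^ 2 - mu ^ 2| ≤ ‖w‖ := by
    have h1 := gap38 hv hv' hsep
    have h2 := Complex.abs_im_le_norm w
    rw [hwim, abs_mul, abs_mul, abs_of_pos Real.pi_pos, abs_of_pos (show 0 < z.im by linarith)] at h2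
    refine le_trans ?_ h2
    calc |lam ^ 2 - mu ^ 2| = 3 * (2 / 3 * |lam ^ 2 - mu ^ 2| * (1 / 2)) := by ring
      _ ≤ Real.pi * (|lam ^ 2 * Real.exp v - mu ^ 2 * Real.exp v'| * z.im) := by
          refine mul_le_mul Real.pi_gt_three.le ?_ (by positivity) Real.pi_pos.le
          exact mul_le_mul h1 hzim (by norm_num) (abs_nonneg _)
  have hosc := osc_int hw0
  have himg : (fun u : ℝ => Real.exp (-u)) '' Set.Iio 0 = Set.Ioi 1 := by
    ext x
    simp only [Set.mem_image, Set.mem_Iio, Set.mem_Ioi]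
    constructor
    · rintro ⟨y, hy, rfl⟩; exact Real.one_lt_exp_iff.mpr (by linarith only [hy])
    · intro hx
      refine ⟨-Real.log x, ?_, ?_⟩
      · have := Real.log_pos hx; linarith only [this]
      · rw [neg_neg, Real.exp_log (by linarith only [hx])]
  have hder : ∀ x ∈ Set.Iio (0:ℝ), HasDerivWithinAt (fun u : ℝ => Real.exp (-u)) (-Real.exp (-x)) (Set.Iio 0) x :=
    fun x _ => (en_deriv x (Set.mem_univ x)).mono (Set.subset_univ _)
  have hinj : Set.InjOn (fun u : ℝ => Real.exp (-u)) (Set.Iio 0) := en_inj.mono (Set.subset_univ _)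
  have hI := hosc.1
  have hN := hosc.2
  rw [← himg, integrableOn_image_iff_integrableOn_abs_deriv_smul measurableSet_Iio hder hinj] at hI
  rw [← himg, integral_image_eq_integral_abs_deriv_smul measurableSet_Iio hder hinj] at hN
  have hfun : (fun u : ℝ => atm lam z (u - v) * starRingEnd ℂ (atm mu z (u - v'))) = fun u : ℝ =>
      (Real.exp ((v + v') / 4) : ℂ) * (|-Real.exp (-u)| • ((((Real.exp (-u)) ^ (-(1/2) : ℝ) : ℝ) : ℂ) *
        Complex.exp (-(w * ((Real.exp (-u) : ℝ) : ℂ))))) := by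
    funext u
    rw [prod38, ← hw]
  constructor
  · rw [hfun, integrableOn_Iic_iff_integrableOn_Iio]
    exact hI.const_mul _
  · rw [integral_Iic_eq_integral_Iio, hfun, integral_const_mul, norm_mul, Complex.norm_real,
      Real.norm_of_nonneg (Real.exp_pos _).le]
    have h1 : Real.exp ((v + v') / 4) ≤ 2 := by
      have h2 : (v + v') / 4 ≤ 1 / 2 := by linarith [le_abs_self v, le_abs_self v']
      calc Real.exp ((v + v') / 4) ≤ Real.exp (1 / 2) := Real.exp_le_exp.2 h2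
        _ ≤ 2 := by
          have h3 : Real.exp (1 / 2) ^ 2 = Real.exp 1 := by rw [← Real.exp_nat_mul]; norm_num
          have h4 := Real.exp_one_lt_d9
          nlinarith [Real.exp_pos (1 / 2)]
    have h2 : 2 * Real.exp (-w.re) / ‖w‖ ≤ 2 / |lam ^ 2 - mu ^ 2| := by
      have h3 : Real.exp (-w.re) ≤ 1 := Real.exp_le_one_iff.2 (by linarith)
      exact div_le_div₀ (by norm_num) (by linarith) hΔ hwn
    calc Real.exp ((v + v') / 4) * ‖_‖ ≤ 2 * (2 / |lam ^ 2 - mu ^ 2|) :=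
          mul_le_mul h1 (hN.trans h2) (norm_nonneg _) (by norm_num)
      _ = 4 / |lam ^ 2 - mu ^ 2| := by ring

end Pool.Agent.Helper57.DS
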