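import Pool.Agent.Helper57.DS.Def

/-!
# DS-5: the arithmetic sums (project DS, see Def.lean)

`sum1_diag`: `LH.sum_bmol_sq_le` with `ε = 1/log K` (`ew ε N = e^{-(1+ε) log N} ≥ e^{-1}/N` for `N ≤ K`).
`sum1_off`: `LH.off_gen` with `s = 1/K²` (for `N, M ≤ K` the factor `exp(-π(N²+M²)s) ≥ e^{-2π}`), then drop the exponential,
`1 + log N ≤ 2 log K`, and `sum1_diag`.
-/

open MeasureTheory Set Filter Topology
open Pool.Agent.Helper57.LH

namespace Pool.Agent.Helper57.DS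

private lemma logK57 {X : ℝ} {K : ℕ} (hX : 3 ≤ X) (hXK : X ≤ K) : 1 ≤ Real.log K ∧ Real.log X ≤ Real.log K ∧ 1 ≤ Real.log X := by
  have h1 : 1 ≤ Real.log X := by
    rw [Real.le_log_iff_exp_le (by linarith)]
    have := Real.exp_one_lt_d9
    linarith
  have h2 : Real.log X ≤ Real.log K := Real.log_le_log (by linarith) hXK
  exact ⟨by linarith, h2, h1⟩

private lemma diag57 {X : ℝ} {K : ℕ} (hX : 3 ≤ X) (hXK : X ≤ K) :
    ∑ N ∈ Finset.Ioc 0 K, bmol X N ^ 2 / N ≤ 2 * Real.exp 1 * CQ * (Real.log K / Real.log X) := by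
  obtain ⟨hK1, hKX, hX1⟩ := logK57 hX hXK
  have hK0 : 0 < Real.log K := by linarith
  have hCQ := CQ_pos
  have h := sum_bmol_sq_le (X := X) (ε := 1 / Real.log K) hX (by positivity) (by
    rw [div_mul_eq_mul_div, one_mul, div_le_one hK0]; exact hKX) K
  rw [one_div_one_div] at h
  have h2 : ∑ N ∈ Finset.Ioc 0 K, bmol X N ^ 2 / N ≤ Real.exp 1 * ∑ N ∈ Finset.Ioc 0 K, bmol X N ^ 2 * ew (1 / Real.log K) N := by
    rw [Finset.mul_sum]
    refine Finset.sum_le_sum fun N hN => ?_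
    rw [Finset.mem_Ioc] at hN
    have hN0 : (0:ℝ) < N := by exact_mod_cast hN.1
    have hlN : Real.log N ≤ Real.log K := Real.log_le_log hN0 (by exact_mod_cast hN.2)
    rw [ew_eq _ hN.1.ne']
    have h3 : 1 ≤ Real.exp 1 * Real.exp (-(1 / Real.log K) * Real.log N) := by
      rw [← Real.exp_add]
      apply Real.one_le_exp
      have : 1 / Real.log K * Real.log N ≤ 1 := by
        rw [div_mul_eq_mul_div, one_mul, div_le_one hK0]; exact hlN
      linarith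
    calc bmol X N ^ 2 / N = bmol X N ^ 2 / N * 1 := by ring
      _ ≤ bmol X N ^ 2 / N * (Real.exp 1 * Real.exp (-(1 / Real.log K) * Real.log N)) := by gcongr
      _ = _ := by ring
  refine h2.trans ?_
  have he := Real.exp_pos 1
  calc Real.exp 1 * ∑ N ∈ Finset.Ioc 0 K, bmol X N ^ 2 * ew (1 / Real.log K) N
      ≤ Real.exp 1 * ((1 + Real.log K) * (CQ / Real.log X)) := by gcongr
    _ ≤ Real.exp 1 * ((2 * Real.log K) * (CQ / Real.log X)) := by
        gcongr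
        linarith
    _ = _ := by ring

theorem sum1_diag : ∃ C : ℝ, 0 < C ∧ ∀ (X : ℝ) (K : ℕ), 3 ≤ X → X ≤ K →
    ∑ N ∈ Finset.Ioc 0 K, bmol X N ^ 2 / N ≤ C * (Real.log K / Real.log X) := by
  have hCQ := CQ_pos
  exact ⟨2 * Real.exp 1 * CQ, by positivity, fun X K hX hXK => diag57 hX hXK⟩

theorem sum1_off : ∃ C : ℝ, 0 < C ∧ ∀ (X : ℝ) (K : ℕ), 3 ≤ X → X ≤ K →
    ∑ N ∈ Finset.Ioc 0 K, ∑ M ∈ Finset.Ioc 0 K, (if N = M then 0 else
      |bmol X N| * |bmol X M| * (4 / |(N:ℝ) ^ 2 - (M:ℝ) ^ 2|)) ≤ C * (Real.log K) ^ 2 := by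
  have hCQ := CQ_pos
  refine ⟨2 * Real.exp (2 * Real.pi) * (4 * (2 * (2 * Real.exp 1 * CQ))), by positivity, ?_⟩
  intro X K hX hXK
  obtain ⟨hK1, hKX, hX1⟩ := logK57 hX hXK
  have hK0 : (0:ℝ) < K := by linarith
  have hs : (0:ℝ) < 1 / (K:ℝ) ^ 2 := by positivity
  have h := off_gen (bmol X) K hs
  have h1 : ∑ N ∈ Finset.Ioc 0 K, ∑ M ∈ Finset.Ioc 0 K, (if N = M then 0 else
      |bmol X N| * |bmol X M| * (4 / |(N:ℝ) ^ 2 - (M:ℝ) ^ 2|)) ≤
      2 * Real.exp (2 * Real.pi) * ∑ N ∈ Finset.Ioc 0 K, ∑ M ∈ Finset.Ioc 0 K, (if N = M then 0 else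
      |bmol X N| * |bmol X M| * (2 * Real.exp (-(Real.pi * ((N:ℝ) ^ 2 + (M:ℝ) ^ 2) * (1 / (K:ℝ) ^ 2))) / |(N:ℝ) ^ 2 - (M:ℝ) ^ 2|)) := by
    rw [Finset.mul_sum]
    refine Finset.sum_le_sum fun N hN => ?_
    rw [Finset.mul_sum]
    refine Finset.sum_le_sum fun M hM => ?_
    rw [Finset.mem_Ioc] at hN hM
    split_ifs with hNM
    · simp
    · have hN2 : (N:ℝ) ^ 2 ≤ (K:ℝ) ^ 2 := by
        have : (N:ℝ) ≤ K := by exact_mod_cast hN.2
        gcongr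
      have hM2 : (M:ℝ) ^ 2 ≤ (K:ℝ) ^ 2 := by
        have : (M:ℝ) ≤ K := by exact_mod_cast hM.2
        gcongr
      have h3 : 1 ≤ Real.exp (2 * Real.pi) * Real.exp (-(Real.pi * ((N:ℝ) ^ 2 + (M:ℝ) ^ 2) * (1 / (K:ℝ) ^ 2))) := by
        rw [← Real.exp_add]
        apply Real.one_le_exp
        have h4 : Real.pi * ((N:ℝ) ^ 2 + (M:ℝ) ^ 2) * (1 / (K:ℝ) ^ 2) ≤ 2 * Real.pi := by
          rw [mul_one_div, div_le_iff₀ (by positivity)]
          have := Real.pi_pos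
          nlinarith
        linarith
      have h5 : 0 ≤ |bmol X N| * |bmol X M| * (4 / |(N:ℝ) ^ 2 - (M:ℝ) ^ 2|) := by positivity
      calc |bmol X N| * |bmol X M| * (4 / |(N:ℝ) ^ 2 - (M:ℝ) ^ 2|)
          = |bmol X N| * |bmol X M| * (4 / |(N:ℝ) ^ 2 - (M:ℝ) ^ 2|) * 1 := by ring
        _ ≤ |bmol X N| * |bmol X M| * (4 / |(N:ℝ) ^ 2 - (M:ℝ) ^ 2|) *
            (Real.exp (2 * Real.pi) * Real.exp (-(Real.pi * ((N:ℝ) ^ 2 + (M:ℝ) ^ 2) * (1 / (K:ℝ) ^ 2)))) := by gcongr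
        _ = _ := by ring
  have h2 : ∑ N ∈ Finset.Ioc 0 K, bmol X N ^ 2 * Real.exp (-(Real.pi * (N:ℝ) ^ 2 * (1 / (K:ℝ) ^ 2))) * (1 + Real.log N) / N ≤
      (2 * Real.log K) * ∑ N ∈ Finset.Ioc 0 K, bmol X N ^ 2 / N := by
    rw [Finset.mul_sum]
    refine Finset.sum_le_sum fun N hN => ?_
    rw [Finset.mem_Ioc] at hN
    have hN0 : (0:ℝ) < N := by exact_mod_cast hN.1
    have hN1 : (1:ℝ) ≤ N := by exact_mod_cast hN.1
    have hlN : Real.log N ≤ Real.log K := Real.log_le_log hN0 (by exact_mod_cast hN.2)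
    have hlN0 : 0 ≤ Real.log N := Real.log_nonneg hN1
    have h3 : Real.exp (-(Real.pi * (N:ℝ) ^ 2 * (1 / (K:ℝ) ^ 2))) ≤ 1 := by
      apply Real.exp_le_one_iff.mpr
      have : 0 ≤ Real.pi * (N:ℝ) ^ 2 * (1 / (K:ℝ) ^ 2) := by positivity
      linarith
    calc bmol X N ^ 2 * Real.exp (-(Real.pi * (N:ℝ) ^ 2 * (1 / (K:ℝ) ^ 2))) * (1 + Real.log N) / N
        ≤ bmol X N ^ 2 * 1 * (2 * Real.log K) / N := by
          gcongr
          linarith
      _ = _ := by ring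
  have h3 := diag57 hX hXK
  have h4 : Real.log K / Real.log X ≤ Real.log K := div_le_self (by linarith) hX1
  refine h1.trans ?_
  have e0 : 0 ≤ 2 * Real.exp (2 * Real.pi) := by positivity
  calc 2 * Real.exp (2 * Real.pi) * _ ≤ 2 * Real.exp (2 * Real.pi) * (4 * ((2 * Real.log K) * (2 * Real.exp 1 * CQ * Real.log K))) := by
        apply mul_le_mul_of_nonneg_left _ e0
        refine h.trans ?_
        apply mul_le_mul_of_nonneg_left _ (by norm_num)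
        refine h2.trans ?_
        apply mul_le_mul_of_nonneg_left _ (by positivity)
        refine h3.trans ?_
        gcongr
    _ = _ := by ring

end Pool.Agent.Helper57.DS
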