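import Pool.Agent.Helper57.DS.Def

/-!
# DS-5: the arithmetic sums (project DS, see Def.lean)

`sum1_diag`: `LH.sum_bmol_sq_le` with `ε = 1/log K` (`ew ε N = e^{-(1+ε) log N} ≥ e^{-1}/N` for `N ≤ K`).
`sum1_off`: `LH.off_gen` with `s = 1/K²` (for `N, M ≤ K` the factor `exp(-π(N²+M²)s) ≥ e^{-2π}`), then drop the exponential,
`1 + log N ≤ 2 log K`, and `sum1_diag`.
`sum2_diag`: `LH.half2_diag` with `s = 1/K²` (`i ∈ Iq` has `i.2 ≤ K i.1`, so `exp(-π(i.2/i.1)² s) ≥ e^{-π}`).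
`sum2_off`: the intermediate bound `htot` of the proof of `LH.half2_off` (copy that part), again with `s = 1/K²`.
The constants `C` are arbitrary.
-/

open MeasureTheory Set Filter Topology
open Pool.Agent.Helper57.LH

namespace Pool.Agent.Helper57.DS

private lemma half2_tot_23 {X s : ℝ} (hX : 3 ≤ X) (hs : 0 < s) (hXs : 20 * Real.log X ≤ Real.log (1 / s))
    (K : ℕ) :
    ∑ i ∈ Iq ⌊X⌋₊ K, ∑ j ∈ Iq ⌊X⌋₊ K, (if i = j then 0 else
        |yq X 0 i.1| * |yq X 0 j.1| * (2 * Real.exp (-(Real.pi * (((i.2:ℝ) / i.1) ^ 2 + ((j.2:ℝ) / j.1) ^ 2) * s)) /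
          |((i.2:ℝ) / i.1) ^ 2 - ((j.2:ℝ) / j.1) ^ 2|))
    ≤ X ^ 8 * (144 * Real.exp 1 * (Real.log (1 / s)) ^ 2) := by
  set L := Real.log (1 / s) with hL
  have hX0 : 0 < X := by linarith only [hX]
  have hlX : 1 ≤ Real.log X := by
    rw [Real.le_log_iff_exp_le (by linarith only [hX])]
    have := Real.exp_one_lt_d9
    linarith only [hX, this]
  have hL20 : 20 ≤ L := by linarith
  have hL0 : 0 < L := by linarith
  set X0 := ⌊X⌋₊ with hX0def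
  have hX0X : (X0:ℝ) ≤ X := Nat.floor_le hX0.le
  set P := K * X0 with hP
  -- kernel for fixed denominators
  have hker : ∀ q ∈ Finset.Ioc 0 X0, ∀ q' ∈ Finset.Ioc 0 X0,
      ∑ p ∈ Finset.Ioc 0 P, ∑ p' ∈ Finset.Ioc 0 P, (if p * q' = p' * q then 0 else
        (2 * Real.exp (-(Real.pi * (((p:ℝ) / q) ^ 2 + ((p':ℝ) / q') ^ 2) * s)) /
          |((p:ℝ) / q) ^ 2 - ((p':ℝ) / q') ^ 2|)) ≤ X ^ 4 * (144 * Real.exp 1 * L ^ 2) := by
    intro q hq q' hq'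
    rw [Finset.mem_Ioc] at hq hq'
    have hq0 : (0:ℝ) < q := by exact_mod_cast hq.1
    have hq1 : (1:ℝ) ≤ q := by exact_mod_cast hq.1
    have hq0' : (0:ℝ) < q' := by exact_mod_cast hq'.1
    have hq1' : (1:ℝ) ≤ q' := by exact_mod_cast hq'.1
    have hqX : (q:ℝ) ≤ X := by
      have h2 : (q:ℝ) ≤ X0 := by exact_mod_cast hq.2
      linarith only [hX0X, h2]
    have hqX' : (q':ℝ) ≤ X := by
      have h2 : (q':ℝ) ≤ X0 := by exact_mod_cast hq'.2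
      linarith only [hX0X, h2]
    set D : ℝ := q * q' with hD
    have hD0 : 0 < D := by positivity
    set s' := s / D ^ 2 with hs'
    have hs'0 : 0 < s' := by positivity
    have hL' : Real.log (1 / s') = L + 2 * (Real.log q + Real.log q') := by
      rw [hs', one_div_div, Real.log_div (by positivity) hs.ne', Real.log_pow, hD,
        Real.log_mul hq0.ne' hq0'.ne', hL, one_div, Real.log_inv]
      push_cast; ring
    have hlq : 0 ≤ Real.log q := Real.log_nonneg hq1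
    have hlq' : 0 ≤ Real.log q' := Real.log_nonneg hq1'
    have hlq2 : Real.log q ≤ Real.log X := (Real.log_le_log hq0 hqX)
    have hlq2' : Real.log q' ≤ Real.log X := (Real.log_le_log hq0' hqX')
    have hs'1 : 1 ≤ Real.log (1 / s') := by rw [hL']; linarith only [hXs, hlX, hlq, hlq']
    have hL'5 : Real.log (1 / s') ≤ 5 * L := by rw [hL']; linarith only [hXs, hlX, hlq2, hlq2']
    set G : ℕ → ℕ → ℝ := fun A B => (if A = B then 0 else
      D ^ 2 * (2 * Real.exp (-(Real.pi * ((A:ℝ) ^ 2 + (B:ℝ) ^ 2) * s')) / |(A:ℝ) ^ 2 - (B:ℝ) ^ 2|)) with hG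
    have hG0 : ∀ A B, 0 ≤ G A B := by intro A B; rw [hG]; simp only; split_ifs <;> positivity
    have hterm : ∀ p p' : ℕ, (if p * q' = p' * q then 0 else
        (2 * Real.exp (-(Real.pi * (((p:ℝ) / q) ^ 2 + ((p':ℝ) / q') ^ 2) * s)) /
          |((p:ℝ) / q) ^ 2 - ((p':ℝ) / q') ^ 2|)) = G (p * q') (p' * q) := by
      intro p p'
      rw [hG]
      simp only
      split_ifs with h
      · rfl
      · have e1 : ((p:ℝ) / q) ^ 2 + ((p':ℝ) / q') ^ 2 = (((p * q' : ℕ) : ℝ) ^ 2 + ((p' * q : ℕ) : ℝ) ^ 2) / D ^ 2 := by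
          rw [hD]; push_cast; field_simp
        have e2 : ((p:ℝ) / q) ^ 2 - ((p':ℝ) / q') ^ 2 = (((p * q' : ℕ) : ℝ) ^ 2 - ((p' * q : ℕ) : ℝ) ^ 2) / D ^ 2 := by
          rw [hD]; push_cast; field_simp
        rw [e1, e2, abs_div, abs_of_pos (show 0 < D ^ 2 by positivity)]
        rw [show Real.pi * ((((p * q' : ℕ) : ℝ) ^ 2 + ((p' * q : ℕ) : ℝ) ^ 2) / D ^ 2) * s =
          Real.pi * (((p * q' : ℕ) : ℝ) ^ 2 + ((p' * q : ℕ) : ℝ) ^ 2) * s' by rw [hs']; ring]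
        rw [div_div_eq_mul_div]
        ring
    calc ∑ p ∈ Finset.Ioc 0 P, ∑ p' ∈ Finset.Ioc 0 P, (if p * q' = p' * q then 0 else
        (2 * Real.exp (-(Real.pi * (((p:ℝ) / q) ^ 2 + ((p':ℝ) / q') ^ 2) * s)) /
          |((p:ℝ) / q) ^ 2 - ((p':ℝ) / q') ^ 2|))
        = ∑ p ∈ Finset.Ioc 0 P, ∑ p' ∈ Finset.Ioc 0 P, G (p * q') (p' * q) :=
          Finset.sum_congr rfl fun p _ => Finset.sum_congr rfl fun p' _ => hterm p p'
      _ ≤ ∑ p ∈ Finset.Ioc 0 P, ∑ B ∈ Finset.Ioc 0 (P * X0), G (p * q') B :=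
          Finset.sum_le_sum fun p _ => sum_mul_le (φ := fun B => G (p * q') B) (fun B => hG0 _ _) hq.1 hq.2
      _ ≤ ∑ A ∈ Finset.Ioc 0 (P * X0), ∑ B ∈ Finset.Ioc 0 (P * X0), G A B :=
          sum_mul_le (φ := fun A => ∑ B ∈ Finset.Ioc 0 (P * X0), G A B)
            (fun A => Finset.sum_nonneg fun B _ => hG0 _ _) hq'.1 hq'.2
      _ = D ^ 2 * ∑ A ∈ Finset.Ioc 0 (P * X0), ∑ B ∈ Finset.Ioc 0 (P * X0), (if A = B then 0 else
          (2 * Real.exp (-(Real.pi * ((A:ℝ) ^ 2 + (B:ℝ) ^ 2) * s')) / |(A:ℝ) ^ 2 - (B:ℝ) ^ 2|)) := by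
          rw [Finset.mul_sum]
          refine Finset.sum_congr rfl fun A _ => ?_
          rw [Finset.mul_sum]
          refine Finset.sum_congr rfl fun B _ => ?_
          rw [hG]
          simp only
          split_ifs <;> simp
      _ ≤ D ^ 2 * (4 * Real.exp 1 * (1 + Real.log (1 / s')) ^ 2) := by
          gcongr
          exact unit_off hs'0 hs'1 _
      _ ≤ X ^ 4 * (4 * Real.exp 1 * (6 * L) ^ 2) := by
          have hDX : D ^ 2 ≤ X ^ 4 := by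
            have : D ≤ X * X := by rw [hD]; gcongr
            calc D ^ 2 ≤ (X * X) ^ 2 := by gcongr
              _ = X ^ 4 := by ring
          have h6 : 1 + Real.log (1 / s') ≤ 6 * L := by linarith only [hXs, hlX, hL', hlq2, hlq2']
          gcongr
      _ = _ := by ring
  -- total
  have htot : ∑ i ∈ Iq X0 K, ∑ j ∈ Iq X0 K, (if i = j then 0 else
        |yq X 0 i.1| * |yq X 0 j.1| * (2 * Real.exp (-(Real.pi * (((i.2:ℝ) / i.1) ^ 2 + ((j.2:ℝ) / j.1) ^ 2) * s)) /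
          |((i.2:ℝ) / i.1) ^ 2 - ((j.2:ℝ) / j.1) ^ 2|)) ≤ X ^ 8 * (144 * Real.exp 1 * L ^ 2) := by
    set T : ℕ × ℕ → ℕ × ℕ → ℝ := fun i j => X * X * (if i.2 * j.1 = j.2 * i.1 then 0 else
        (2 * Real.exp (-(Real.pi * (((i.2:ℝ) / i.1) ^ 2 + ((j.2:ℝ) / j.1) ^ 2) * s)) /
          |((i.2:ℝ) / i.1) ^ 2 - ((j.2:ℝ) / j.1) ^ 2|)) with hT
    have hT0 : ∀ i j, 0 ≤ T i j := by
      intro i j; rw [hT]; simp only
      apply mul_nonneg (by positivity)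
      split_ifs <;> positivity
    have hle : ∀ i ∈ Iq X0 K, ∀ j ∈ Iq X0 K, (if i = j then 0 else
        |yq X 0 i.1| * |yq X 0 j.1| * (2 * Real.exp (-(Real.pi * (((i.2:ℝ) / i.1) ^ 2 + ((j.2:ℝ) / j.1) ^ 2) * s)) /
          |((i.2:ℝ) / i.1) ^ 2 - ((j.2:ℝ) / j.1) ^ 2|)) ≤ T i j := by
      intro i hi j hj
      split_ifs with h
      · exact hT0 _ _
      · rw [hT]
        simp only
        rw [if_neg (Iq_inj i hi j hj h)]
        have hy1 := abs_yq_le_X (show 1 < X by linarith only [hX]) i.1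
        have hy2 := abs_yq_le_X (show 1 < X by linarith only [hX]) j.1
        gcongr
    calc _ ≤ ∑ i ∈ Iq X0 K, ∑ j ∈ Iq X0 K, T i j := Finset.sum_le_sum fun i hi => Finset.sum_le_sum fun j hj => hle i hi j hj
      _ ≤ ∑ i ∈ Finset.Ioc 0 X0 ×ˢ Finset.Ioc 0 P, ∑ j ∈ Finset.Ioc 0 X0 ×ˢ Finset.Ioc 0 P, T i j := by
          refine (Finset.sum_le_sum_of_subset_of_nonneg (Finset.filter_subset _ _) ?_).trans ?_
          · intro i _ _; exact Finset.sum_nonneg fun j _ => hT0 _ _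
          · refine Finset.sum_le_sum fun i _ => ?_
            exact Finset.sum_le_sum_of_subset_of_nonneg (Finset.filter_subset _ _) (fun j _ _ => hT0 _ _)
      _ = ∑ q ∈ Finset.Ioc 0 X0, ∑ q' ∈ Finset.Ioc 0 X0, ∑ p ∈ Finset.Ioc 0 P, ∑ p' ∈ Finset.Ioc 0 P, T (q, p) (q', p') := by
          rw [Finset.sum_product]
          refine Finset.sum_congr rfl fun q _ => ?_
          rw [Finset.sum_comm]
          rw [Finset.sum_product]
          refine Finset.sum_congr rfl fun q' _ => ?_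
          rw [Finset.sum_comm]
      _ ≤ ∑ q ∈ Finset.Ioc 0 X0, ∑ q' ∈ Finset.Ioc 0 X0, X * X * (X ^ 4 * (144 * Real.exp 1 * L ^ 2)) := by
          refine Finset.sum_le_sum fun q hq => Finset.sum_le_sum fun q' hq' => ?_
          have := hker q hq q' hq'
          rw [hT]
          simp only
          simp_rw [← Finset.mul_sum]
          gcongr
      _ = X0 * (X0 * (X * X * (X ^ 4 * (144 * Real.exp 1 * L ^ 2)))) := by simp
      _ ≤ X * (X * (X * X * (X ^ 4 * (144 * Real.exp 1 * L ^ 2)))) := by gcongr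
      _ = _ := by ring
  exact htot

theorem sum2_diag : ∃ C : ℝ, 0 < C ∧ ∀ (X : ℝ) (K : ℕ), 3 ≤ X → X ≤ K →
    ∑ i ∈ Iq ⌊X⌋₊ K, yq X 0 i.1 ^ 2 / ((i.2:ℝ) / i.1) ≤ C * (Real.log K / Real.log X) := by
  have hCQ := CQ_pos
  refine ⟨8 * Real.exp Real.pi * Real.exp 1 * CQ, by positivity, ?_⟩
  intro X K hX hXK
  have hX0 : 0 < X := by linarith
  have hK0 : (0:ℝ) < K := by linarith
  have hK3 : (3:ℝ) ≤ K := by linarith
  have hlX : 1 ≤ Real.log X := by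
    rw [Real.le_log_iff_exp_le hX0]
    linarith [Real.exp_one_lt_d9]
  have hlXK : Real.log X ≤ Real.log K := Real.log_le_log hX0 hXK
  have hs : (0:ℝ) < 1 / (K:ℝ) ^ 2 := by positivity
  have hL : Real.log (1 / (1 / (K:ℝ) ^ 2)) = 2 * Real.log K := by
    rw [one_div_one_div, Real.log_pow]
    push_cast
    ring
  have hsq : Real.sqrt (1 / (K:ℝ) ^ 2) = 1 / K := by
    rw [Real.sqrt_div zero_le_one, Real.sqrt_one, Real.sqrt_sq hK0.le]
  have h := half2_diag hX hs (by rw [hL]; linarith) (by rw [hL]; linarith) K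
  rw [hL, hsq] at h
  have h1 : Real.exp (-Real.pi) * K * ∑ i ∈ Iq ⌊X⌋₊ K, yq X 0 i.1 ^ 2 / ((i.2:ℝ) / i.1) ≤
      ∑ i ∈ Iq ⌊X⌋₊ K, yq X 0 i.1 ^ 2 * Real.exp (-(Real.pi * ((i.2:ℝ) / i.1) ^ 2 * (1 / (K:ℝ) ^ 2)))
        / ((i.2:ℝ) / i.1 * (1 / K)) := by
    rw [Finset.mul_sum]
    refine Finset.sum_le_sum fun i hi => ?_
    rw [mem_Iq] at hi
    have hi1 : (0:ℝ) < i.1 := by exact_mod_cast hi.1.1
    have hi2 : (0:ℝ) < i.2 := by exact_mod_cast hi.2.1.1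
    have hi3 : (i.2:ℝ) ≤ K * i.1 := by exact_mod_cast hi.2.2.1
    have h2 : ((i.2:ℝ) / i.1) ^ 2 * (1 / (K:ℝ) ^ 2) ≤ 1 := by
      have : (i.2:ℝ) / i.1 ≤ K := by
        rw [div_le_iff₀ hi1]
        exact hi3
      rw [mul_one_div, div_le_one (by positivity)]
      gcongr
    have h3 : Real.exp (-Real.pi) ≤
        Real.exp (-(Real.pi * ((i.2:ℝ) / i.1) ^ 2 * (1 / (K:ℝ) ^ 2))) := by
      apply Real.exp_le_exp.mpr
      have := mul_le_mul_of_nonneg_left h2 Real.pi_pos.le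
      rw [mul_one] at this
      linarith
    calc Real.exp (-Real.pi) * K * (yq X 0 i.1 ^ 2 / ((i.2:ℝ) / i.1))
        = yq X 0 i.1 ^ 2 * Real.exp (-Real.pi) / ((i.2:ℝ) / i.1 * (1 / K)) := by field_simp
      _ ≤ _ := by gcongr
  have h2 := h1.trans h
  have hl0 : 0 < Real.log X := by linarith
  have e1 : Real.exp Real.pi * Real.exp (-Real.pi) = 1 := by
    rw [← Real.exp_add, add_neg_cancel, Real.exp_zero]
  have h3 := mul_le_mul_of_nonneg_left h2 (show 0 ≤ Real.exp Real.pi / K by positivity)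
  have e2 : Real.exp Real.pi / K * (Real.exp (-Real.pi) * K *
      ∑ i ∈ Iq ⌊X⌋₊ K, yq X 0 i.1 ^ 2 / ((i.2:ℝ) / i.1)) =
      ∑ i ∈ Iq ⌊X⌋₊ K, yq X 0 i.1 ^ 2 / ((i.2:ℝ) / i.1) := by
    calc _ = (Real.exp Real.pi * Real.exp (-Real.pi)) * (K / K) *
        ∑ i ∈ Iq ⌊X⌋₊ K, yq X 0 i.1 ^ 2 / ((i.2:ℝ) / i.1) := by ring
      _ = _ := by rw [e1, div_self hK0.ne', one_mul, one_mul]
  rw [e2] at h3
  refine h3.trans (le_of_eq ?_)
  field_simp
  ring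

theorem sum2_off : ∃ C : ℝ, 0 < C ∧ ∀ (X : ℝ) (K : ℕ), 3 ≤ X → X ^ 10 ≤ K →
    ∑ i ∈ Iq ⌊X⌋₊ K, ∑ j ∈ Iq ⌊X⌋₊ K, (if i = j then 0 else
      |yq X 0 i.1| * |yq X 0 j.1| * (4 / |((i.2:ℝ) / i.1) ^ 2 - ((j.2:ℝ) / j.1) ^ 2|)) ≤ C * X ^ 8 * (Real.log K) ^ 2 := by
  refine ⟨1152 * Real.exp (2 * Real.pi) * Real.exp 1, by positivity, ?_⟩
  intro X K hX hXK
  have hX0 : 0 < X := by linarith
  have hX1 : (1:ℝ) ≤ X ^ 10 := one_le_pow₀ (by linarith)
  have hK0 : (0:ℝ) < K := by linarith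
  have hs : (0:ℝ) < 1 / (K:ℝ) ^ 2 := by positivity
  have hL : Real.log (1 / (1 / (K:ℝ) ^ 2)) = 2 * Real.log K := by
    rw [one_div_one_div, Real.log_pow]
    push_cast
    ring
  have hlK : 10 * Real.log X ≤ Real.log K := by
    have := Real.log_le_log (by positivity) hXK
    rw [Real.log_pow] at this
    push_cast at this
    exact this
  have h := half2_tot_23 hX hs (by rw [hL]; linarith) K
  rw [hL] at h
  have h1 : ∑ i ∈ Iq ⌊X⌋₊ K, ∑ j ∈ Iq ⌊X⌋₊ K, (if i = j then 0 else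
      |yq X 0 i.1| * |yq X 0 j.1| * (4 / |((i.2:ℝ) / i.1) ^ 2 - ((j.2:ℝ) / j.1) ^ 2|)) ≤
      (2 * Real.exp (2 * Real.pi)) * ∑ i ∈ Iq ⌊X⌋₊ K, ∑ j ∈ Iq ⌊X⌋₊ K, (if i = j then 0 else
        |yq X 0 i.1| * |yq X 0 j.1| * (2 * Real.exp (-(Real.pi * (((i.2:ℝ) / i.1) ^ 2 +
          ((j.2:ℝ) / j.1) ^ 2) * (1 / (K:ℝ) ^ 2))) /
          |((i.2:ℝ) / i.1) ^ 2 - ((j.2:ℝ) / j.1) ^ 2|)) := by
    rw [Finset.mul_sum]
    refine Finset.sum_le_sum fun i hi => ?_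
    rw [Finset.mul_sum]
    refine Finset.sum_le_sum fun j hj => ?_
    split_ifs with hij
    · simp
    · have key : ∀ i ∈ Iq ⌊X⌋₊ K, ((i.2:ℝ) / i.1) ^ 2 * (1 / (K:ℝ) ^ 2) ≤ 1 := by
        intro i hi
        rw [mem_Iq] at hi
        have hi1 : (0:ℝ) < i.1 := by exact_mod_cast hi.1.1
        have hi3 : (i.2:ℝ) ≤ K * i.1 := by exact_mod_cast hi.2.2.1
        have : (i.2:ℝ) / i.1 ≤ K := by
          rw [div_le_iff₀ hi1]
          exact hi3
        rw [mul_one_div, div_le_one (by positivity)]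
        gcongr
      have k1 := key i hi
      have k2 := key j hj
      have h3 : 1 ≤ Real.exp (2 * Real.pi) * Real.exp (-(Real.pi * (((i.2:ℝ) / i.1) ^ 2 +
          ((j.2:ℝ) / j.1) ^ 2) * (1 / (K:ℝ) ^ 2))) := by
        rw [← Real.exp_add]
        apply Real.one_le_exp
        have h4 : Real.pi * (((i.2:ℝ) / i.1) ^ 2 + ((j.2:ℝ) / j.1) ^ 2) * (1 / (K:ℝ) ^ 2) =
          Real.pi * (((i.2:ℝ) / i.1) ^ 2 * (1 / (K:ℝ) ^ 2) +
            ((j.2:ℝ) / j.1) ^ 2 * (1 / (K:ℝ) ^ 2)) := by ring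
        rw [h4]
        have := mul_le_mul_of_nonneg_left (add_le_add k1 k2) Real.pi_pos.le
        linarith
      calc |yq X 0 i.1| * |yq X 0 j.1| * (4 / |((i.2:ℝ) / i.1) ^ 2 - ((j.2:ℝ) / j.1) ^ 2|)
          = |yq X 0 i.1| * |yq X 0 j.1| * (4 * 1 / |((i.2:ℝ) / i.1) ^ 2 - ((j.2:ℝ) / j.1) ^ 2|) := by
            rw [mul_one]
        _ ≤ |yq X 0 i.1| * |yq X 0 j.1| * (4 * (Real.exp (2 * Real.pi) *
            Real.exp (-(Real.pi * (((i.2:ℝ) / i.1) ^ 2 +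
            ((j.2:ℝ) / j.1) ^ 2) * (1 / (K:ℝ) ^ 2)))) /
            |((i.2:ℝ) / i.1) ^ 2 - ((j.2:ℝ) / j.1) ^ 2|) := by gcongr
        _ = _ := by ring
  refine h1.trans ?_
  refine (mul_le_mul_of_nonneg_left h (by positivity)).trans (le_of_eq ?_)
  ring

end Pool.Agent.Helper57.DS
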