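import Pool.Agent.Helper57.DS.Tail

/-!
# DS-6: truncation of the theta series (project DS, see Def.lean)

`th_tail`: `β = π x Re z`; by `LH.tendsto_th` (or `LH.hasSum_th`) the difference is `lim_{K'' → ∞} ∑_{K < n ≤ K''} cexp(-π n² x z)`, and
`∑_{n > K} e^{-βn²} ≤ e^{-βK²} ∑_{m ≥ 1} e^{-2βKm} ≤ e^{-βK²}/(2βK)` (`n = K + m`, `n² ≥ K² + 2Km`, geometric series, `e^c - 1 ≥ c`).

`tail1`: by `LH.Om_large` (`x = e^{-u}`), `Fu X z u - 2 ∑_{N ≤ K} bmol N atm N z u` equals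
`2 e^{-u/4} ∑_h amol h (th-tail of (th z (h² x) - 1)/2 at K/h) - z^{-1/2} Y e^{u/4}`, `Y = yq X 0 1`, `|Y| ≤ X` (`LH.abs_yq_le_X`); for the regrouping of
`∑_{N ≤ K}` see `e1` in the proof of `LH.tendsto_half1` (`∑_{n ≤ K/h} cexp(-π n² h² x z)`). `|amol| ≤ 1` (`abs_amol_le`), `h ≤ X`,
`k = ⌊K/h⌋ ≥ K/(2h)`, `β k² ≥ π h² x (1/(2T)) K²/(4h²) ≥ x K²/(4T) ≥ x X²/4`, `x ≥ e^{-1}`, `1/(2βk) = k/(2βk²) ≤ K`, so each tail is `≤ K exp(-x X²/4)`, the sum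
over `h` is `≤ X K exp(-xX²/4)`, and with `X ≥ (log T)²`, `K ≤ 2√T X`, `X ≤ T` this is `≤ (1/2) x^{-1/2}` for `T` large
(`2X K ≤ 4T³` and `x X²/4 ≥ (x/8) X² + log² T/…`: `exp(-xX²/4) = exp(-xX²/8) exp(-xX²/8)`, `x^{1/2} exp(-xX²/8) ≤ 1`, `X²/(8e) ≥ (log T)⁴/(8e) ≥ 4 log T`).
`e^{-u/4} x^{-1/2} = e^{u/4}`.

`tail2`: `LH.Om_small` with `y = e^{-u}` (`Om X z (1/y)`, `Fu X z (-u) = e^{u/4} Om X z (e^u)`), the regrouping is `e1` in the proof of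
`LH.tendsto_half2` (`∑_{n ≤ K h} cexp(-π n² (y/h²) z⁻¹)`), `Re z⁻¹ = Re z`; the constant term is `A = ∑ amol h`, `|A| ≤ X`.
-/

open MeasureTheory Set Filter Topology
open Pool.Agent.Helper57.LH

namespace Pool.Agent.Helper57.DS

private lemma regroup67 (X : ℝ) (K : ℕ) (x : ℝ) (z : ℂ) :
    ∑ N ∈ Finset.Ioc 0 K, (bmol X N : ℂ) * Complex.exp (-(Real.pi * (((N:ℝ)) : ℂ) ^ 2 * x * z)) =
      ∑ h ∈ Finset.Ioc 0 ⌊X⌋₊, (amol X h : ℂ) * ∑ n ∈ Finset.Ioc 0 (K / h),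
        Complex.exp (-(Real.pi * (n:ℂ) ^ 2 * (((h:ℝ) ^ 2 * x : ℝ) : ℂ) * z)) := by
  have e2 : ∀ N ∈ Finset.Ioc 0 K, (bmol X N : ℂ) * Complex.exp (-(Real.pi * (((N:ℝ)) : ℂ) ^ 2 * x * z)) =
      ∑ h ∈ Finset.Ioc 0 ⌊X⌋₊, (if h ∣ N then (amol X h : ℂ) * Complex.exp (-(Real.pi * (((N:ℝ)) : ℂ) ^ 2 * x * z)) else 0) := by
    intro N _
    unfold bmol
    rw [Finset.sum_filter]
    push_cast
    rw [Finset.sum_mul]
    refine Finset.sum_congr rfl fun h _ => ?_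
    split_ifs <;> simp
  rw [Finset.sum_congr rfl e2, Finset.sum_comm]
  refine Finset.sum_congr rfl fun h hh => ?_
  rw [Finset.mem_Ioc] at hh
  rw [← Finset.sum_filter, sum_Ioc_dvd _ hh.1, Finset.mul_sum]
  refine Finset.sum_congr rfl fun n _ => ?_
  congr 2
  push_cast
  ring

/-- one tail -/
private lemma one67 {T X : ℝ} {K : ℕ} (hT : 16 ≤ T) (hX : 3 ≤ X) (hK1 : Real.sqrt T * X ≤ K)
    {x : ℝ} (hx : Real.exp (-1) ≤ x) {h : ℕ} (hh : h ∈ Finset.Ioc 0 ⌊X⌋₊) :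
    ‖(th (zT T) ((h:ℝ) ^ 2 * x) - 1) / 2 - ∑ n ∈ Finset.Ioc 0 (K / h),
        Complex.exp (-(Real.pi * (n:ℂ) ^ 2 * (((h:ℝ) ^ 2 * x : ℝ) : ℂ) * zT T))‖ ≤
      K * Real.exp (-(x * X ^ 2 / 4)) := by
  rw [Finset.mem_Ioc] at hh
  obtain ⟨hre, hre1, -, -, -⟩ := zT_facts (T := T) (by linarith)
  have hx0 : 0 < x := (Real.exp_pos _).trans_le hx
  have hT0 : 0 < T := by linarith
  have hh0 : (0:ℝ) < h := by exact_mod_cast hh.1
  have hhX : (h:ℝ) ≤ X := (Nat.le_floor_iff (by linarith)).1 hh.2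
  have hs4 : 4 ≤ Real.sqrt T := by
    rw [show (4:ℝ) = Real.sqrt 16 by rw [show (16:ℝ) = 4 ^ 2 by norm_num, Real.sqrt_sq (by norm_num)]]
    exact Real.sqrt_le_sqrt hT
  have hK2 : 4 * X ≤ K := by nlinarith
  have hk1 : 1 ≤ K / h := by
    rw [Nat.one_le_div_iff hh.1]
    have : (h:ℝ) ≤ K := by linarith
    exact_mod_cast this
  -- `h k ≥ K / 2`
  have hkh : (K:ℝ) / 2 ≤ h * ((K / h : ℕ) : ℝ) := by
    have h1 := Nat.lt_mul_div_succ K hh.1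
    have h2 : (K:ℝ) < h * (((K / h : ℕ) : ℝ) + 1) := by exact_mod_cast h1
    nlinarith
  set k : ℕ := K / h with hk
  have hk0 : (1:ℝ) ≤ k := by exact_mod_cast hk1
  have hkK : (k:ℝ) ≤ K := by exact_mod_cast Nat.div_le_self K h
  have h1 := th_tail hre (x := (h:ℝ) ^ 2 * x) (by positivity) hk1
  refine h1.trans ?_
  set β := Real.pi * ((h:ℝ) ^ 2 * x) * (zT T).re with hβ
  have hβ0 : 0 < β := by
    have := Real.pi_pos
    positivity
  have hbk : x * X ^ 2 / 4 ≤ β * (k:ℝ) ^ 2 := by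
    have h2 : (K:ℝ) ^ 2 / 4 ≤ ((h:ℝ) * k) ^ 2 := by
      have : (K:ℝ) ^ 2 / 4 = ((K:ℝ) / 2) ^ 2 := by ring
      rw [this]
      exact pow_le_pow_left₀ (by positivity) hkh 2
    have h3 : T * X ^ 2 ≤ (K:ℝ) ^ 2 := by
      have h4 : (Real.sqrt T * X) ^ 2 ≤ (K:ℝ) ^ 2 := pow_le_pow_left₀ (by positivity) hK1 2
      rwa [mul_pow, Real.sq_sqrt hT0.le] at h4
    have h4 : β * (k:ℝ) ^ 2 = (Real.pi * (zT T).re) * (x * ((h:ℝ) * k) ^ 2) := by
      rw [hβ]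
      ring
    have h5 : 1 / T ≤ Real.pi * (zT T).re := by
      have h6 : 2 * (1 / (2 * T)) ≤ Real.pi * (zT T).re :=
        mul_le_mul (by linarith [Real.pi_gt_three]) hre1 (by positivity) Real.pi_pos.le
      have h7 : 2 * (1 / (2 * T)) = 1 / T := by
        field_simp
      rwa [h7] at h6
    rw [h4]
    calc x * X ^ 2 / 4 = 1 / T * (x * (T * X ^ 2 / 4)) := by
          field_simp
      _ ≤ (Real.pi * (zT T).re) * (x * ((h:ℝ) * k) ^ 2) := by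
          refine mul_le_mul h5 (mul_le_mul_of_nonneg_left ?_ hx0.le) (by positivity) ?_
          · linarith
          · exact mul_nonneg Real.pi_pos.le hre.le
  have hx9 : 9 * Real.exp (-1) ≤ x * X ^ 2 := by
    have h2 : (9:ℝ) ≤ X ^ 2 := by nlinarith
    nlinarith [Real.exp_pos (-1)]
  have he : 1 / 3 ≤ Real.exp (-1) := by
    rw [Real.exp_neg, ← one_div]
    exact one_div_le_one_div_of_le (Real.exp_pos 1) (by linarith [Real.exp_one_lt_d9])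
  rw [div_le_iff₀ (by positivity)]
  have h2 : Real.exp (-(β * (k:ℝ) ^ 2)) ≤ Real.exp (-(x * X ^ 2 / 4)) := Real.exp_le_exp.2 (by linarith)
  have h3 : 1 ≤ K * (2 * β * k) := by
    have h4 : 1 ≤ 2 * (β * (k:ℝ) ^ 2) := by linarith
    have h5 : 2 * (β * (k:ℝ) ^ 2) ≤ K * (2 * β * k) := by
      have : 2 * (β * (k:ℝ) ^ 2) = k * (2 * β * k) := by ring
      rw [this]
      exact mul_le_mul_of_nonneg_right hkK (by positivity)
    linarith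
  calc Real.exp (-(β * (k:ℝ) ^ 2)) ≤ Real.exp (-(x * X ^ 2 / 4)) := h2
    _ ≤ Real.exp (-(x * X ^ 2 / 4)) * (K * (2 * β * k)) := le_mul_of_one_le_right (Real.exp_pos _).le h3
    _ = K * Real.exp (-(x * X ^ 2 / 4)) * (2 * β * k) := by ring

theorem tail1 : ∃ T0 : ℝ, ∀ (T X : ℝ) (K : ℕ), T0 ≤ T → 3 ≤ X → Real.log T ^ 2 ≤ X → X ≤ Real.sqrt T → Real.sqrt T * X ≤ K →
    (K:ℝ) ≤ 2 * Real.sqrt T * X → ∀ u : ℝ, u ≤ 1 →
    ‖Fu X (zT T) u - 2 * 1 * atS (Finset.Ioc 0 K) (fun N : ℕ => (N:ℝ)) (fun N => bmol X N) (zT T) u‖ ≤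
      2 * X * Real.exp (1 / 4 * u) := by
  refine ⟨Real.exp 8, fun T X K hT hX hXl hXs hK1 hK2 u hu => ?_⟩
  have he8 : (16:ℝ) ≤ Real.exp 8 := by
    have h1 : (9:ℝ) / 4 ≤ Real.exp 1 := by linarith [Real.exp_one_gt_d9]
    have h2 : Real.exp 8 = Real.exp 1 ^ 8 := by
      rw [← Real.exp_nat_mul]
      norm_num
    rw [h2]
    calc (16:ℝ) ≤ (9 / 4) ^ 8 := by norm_num
      _ ≤ Real.exp 1 ^ 8 := pow_le_pow_left₀ (by norm_num) h1 8
  have hT16 : 16 ≤ T := he8.trans hT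
  have hT0 : 0 < T := by linarith
  have hX0 : 0 < X := by linarith
  set x := Real.exp (-u) with hx
  have hx1 : Real.exp (-1) ≤ x := Real.exp_le_exp.2 (by linarith)
  have hx0 : 0 < x := Real.exp_pos _
  set z := zT T with hz
  -- the difference
  set D : ℕ → ℂ := fun h => (th z ((h:ℝ) ^ 2 * x) - 1) / 2 - ∑ n ∈ Finset.Ioc 0 (K / h),
        Complex.exp (-(Real.pi * (n:ℂ) ^ 2 * (((h:ℝ) ^ 2 * x : ℝ) : ℂ) * z)) with hD
  have e1 : Fu X z u - 2 * 1 * atS (Finset.Ioc 0 K) (fun N : ℕ => (N:ℝ)) (fun N => bmol X N) z u =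
      (Real.exp (-(1/4) * u) : ℂ) * (2 * ∑ h ∈ Finset.Ioc 0 ⌊X⌋₊, (amol X h : ℂ) * D h -
        z ^ (-(1/2) : ℂ) * ((x ^ (-(1/2) : ℝ) : ℝ) : ℂ) * ((yq X 0 1 : ℝ) : ℂ)) := by
    have h1 : atS (Finset.Ioc 0 K) (fun N : ℕ => (N:ℝ)) (fun N => bmol X N) z u =
        (Real.exp (-(1/4) * u) : ℂ) * ∑ h ∈ Finset.Ioc 0 ⌊X⌋₊, (amol X h : ℂ) * ∑ n ∈ Finset.Ioc 0 (K / h),
          Complex.exp (-(Real.pi * (n:ℂ) ^ 2 * (((h:ℝ) ^ 2 * x : ℝ) : ℂ) * z)) := by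
      rw [← regroup67, atS, Finset.mul_sum]
      refine Finset.sum_congr rfl fun N _ => ?_
      unfold atm
      ring
    have h2 : ∑ h ∈ Finset.Ioc 0 ⌊X⌋₊, (amol X h : ℂ) * D h =
        ∑ h ∈ Finset.Ioc 0 ⌊X⌋₊, (amol X h : ℂ) * ((th z ((h:ℝ) ^ 2 * x) - 1) / 2) -
        ∑ h ∈ Finset.Ioc 0 ⌊X⌋₊, (amol X h : ℂ) * ∑ n ∈ Finset.Ioc 0 (K / h),
          Complex.exp (-(Real.pi * (n:ℂ) ^ 2 * (((h:ℝ) ^ 2 * x : ℝ) : ℂ) * z)) := by
      rw [← Finset.sum_sub_distrib]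
      refine Finset.sum_congr rfl fun h _ => ?_
      rw [hD]
      ring
    rw [h1, h2, Fu, Om_large X hx0]
    ring
  rw [e1, norm_mul, Complex.norm_real, Real.norm_of_nonneg (Real.exp_pos _).le]
  have hY : ‖z ^ (-(1/2) : ℂ) * ((x ^ (-(1/2) : ℝ) : ℝ) : ℂ) * ((yq X 0 1 : ℝ) : ℂ)‖ ≤ Real.exp (u / 2) * X := by
    rw [norm_mul, norm_mul, norm_z_pow (zT_norm T), one_mul, Complex.norm_real, Complex.norm_real,
      Real.norm_of_nonneg (Real.rpow_nonneg hx0.le _), Real.norm_eq_abs]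
    have h1 : x ^ (-(1/2) : ℝ) = Real.exp (u / 2) := by
      rw [hx, ← Real.exp_mul]
      congr 1
      ring
    rw [h1]
    exact mul_le_mul_of_nonneg_left (abs_yq_le_X (by linarith) 1) (Real.exp_pos _).le
  have hS : ‖∑ h ∈ Finset.Ioc 0 ⌊X⌋₊, (amol X h : ℂ) * D h‖ ≤ X * (K * Real.exp (-(x * X ^ 2 / 4))) := by
    refine (norm_sum_le _ _).trans ?_
    have h1 : ∀ h ∈ Finset.Ioc 0 ⌊X⌋₊, ‖(amol X h : ℂ) * D h‖ ≤ K * Real.exp (-(x * X ^ 2 / 4)) := by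
      intro h hh
      rw [norm_mul, Complex.norm_real, Real.norm_eq_abs]
      calc |amol X h| * ‖D h‖ ≤ 1 * (K * Real.exp (-(x * X ^ 2 / 4))) :=
            mul_le_mul (abs_amol_le (by linarith) h) (one67 hT16 hX hK1 hx1 hh) (norm_nonneg _) zero_le_one
        _ = _ := one_mul _
    refine (Finset.sum_le_card_nsmul _ _ _ h1).trans ?_
    rw [nsmul_eq_mul, Nat.card_Ioc, Nat.sub_zero]
    exact mul_le_mul_of_nonneg_right (Nat.floor_le hX0.le) (by positivity)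
  -- the final numerical estimate
  have hfin : 2 * (K * Real.exp (-(x * X ^ 2 / 4))) ≤ Real.exp (u / 2) := by
    have hl8 : 8 ≤ Real.log T := by
      rw [← Real.log_exp 8]
      exact Real.log_le_log (Real.exp_pos _) hT
    have hX64 : 64 ≤ X := by nlinarith
    have h1 : (K:ℝ) ≤ 2 * T := by
      have h2 : Real.sqrt T * X ≤ Real.sqrt T * Real.sqrt T := mul_le_mul_of_nonneg_left hXs (Real.sqrt_nonneg _)
      rw [Real.mul_self_sqrt hT0.le] at h2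
      linarith
    have he : 1 / 3 ≤ Real.exp (-1) := by
      rw [Real.exp_neg, ← one_div]
      exact one_div_le_one_div_of_le (Real.exp_pos 1) (by linarith [Real.exp_one_lt_d9])
    have hx3 : 1 / 3 ≤ x := he.trans hx1
    -- `4 T exp(-x X^2/8) ≤ 1`
    have h2 : 4 * T * Real.exp (-(x * X ^ 2 / 8)) ≤ 1 := by
      have h3 : Real.log T + 2 ≤ x * X ^ 2 / 8 := by
        have h4 : Real.log T ^ 2 * 64 ≤ X ^ 2 := by nlinarith
        have h5 : 8 * Real.log T ≤ Real.log T ^ 2 := by nlinarith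
        have h6 : X ^ 2 / 3 ≤ x * X ^ 2 := by nlinarith [sq_nonneg X]
        linarith
      have h4 : (4:ℝ) ≤ Real.exp 2 := by
        have h5 : Real.exp 2 = Real.exp 1 ^ 2 := by
          rw [← Real.exp_nat_mul]
          norm_num
        rw [h5]
        nlinarith [Real.exp_one_gt_d9]
      calc 4 * T * Real.exp (-(x * X ^ 2 / 8)) ≤ Real.exp 2 * T * Real.exp (-(x * X ^ 2 / 8)) := by gcongr
        _ = Real.exp (2 + Real.log T + -(x * X ^ 2 / 8)) := by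
            rw [Real.exp_add, Real.exp_add, Real.exp_log hT0]
        _ ≤ Real.exp 0 := Real.exp_le_exp.2 (by linarith)
        _ = 1 := Real.exp_zero
    -- `exp(-x X^2/8) ≤ exp(u/2)`
    have h3 : Real.exp (-(x * X ^ 2 / 8)) ≤ Real.exp (u / 2) := by
      refine Real.exp_le_exp.2 ?_
      have h4 : -u + 1 ≤ x := by
        have := Real.add_one_le_exp (-u)
        rw [hx]
        linarith
      have h6 : (8:ℝ) ≤ X ^ 2 := by nlinarith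
      have h5 : x ≤ x * X ^ 2 / 8 := by linarith [mul_le_mul_of_nonneg_left h6 hx0.le]
      linarith
    have h4 : Real.exp (-(x * X ^ 2 / 4)) = Real.exp (-(x * X ^ 2 / 8)) * Real.exp (-(x * X ^ 2 / 8)) := by
      rw [← Real.exp_add]
      congr 1
      ring
    calc 2 * (K * Real.exp (-(x * X ^ 2 / 4))) ≤ 2 * ((2 * T) * Real.exp (-(x * X ^ 2 / 4))) := by gcongr
      _ = (4 * T * Real.exp (-(x * X ^ 2 / 8))) * Real.exp (-(x * X ^ 2 / 8)) := by rw [h4]; ring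
      _ ≤ 1 * Real.exp (u / 2) := mul_le_mul h2 h3 (Real.exp_pos _).le zero_le_one
      _ = _ := one_mul _
  have hsum : ‖2 * ∑ h ∈ Finset.Ioc 0 ⌊X⌋₊, (amol X h : ℂ) * D h -
        z ^ (-(1/2) : ℂ) * ((x ^ (-(1/2) : ℝ) : ℝ) : ℂ) * ((yq X 0 1 : ℝ) : ℂ)‖ ≤ 2 * X * Real.exp (u / 2) := by
    refine (norm_sub_le _ _).trans ?_
    rw [norm_mul]
    have h1 : ‖(2:ℂ)‖ = 2 := by simp
    rw [h1]
    have h2 : 2 * (X * (K * Real.exp (-(x * X ^ 2 / 4)))) ≤ X * Real.exp (u / 2) := by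
      have h3 : 2 * (X * (K * Real.exp (-(x * X ^ 2 / 4)))) = X * (2 * (K * Real.exp (-(x * X ^ 2 / 4)))) := by ring
      rw [h3]
      exact mul_le_mul_of_nonneg_left hfin hX0.le
    linarith
  calc Real.exp (-(1/4) * u) * _ ≤ Real.exp (-(1/4) * u) * (2 * X * Real.exp (u / 2)) :=
        mul_le_mul_of_nonneg_left hsum (Real.exp_pos _).le
    _ = 2 * X * (Real.exp (-(1/4) * u) * Real.exp (u / 2)) := by ring
    _ = 2 * X * Real.exp (1 / 4 * u) := by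
        rw [← Real.exp_add]
        congr 2
        ring

end Pool.Agent.Helper57.DS
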