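import Pool.Agent.Helper57.DS.Tail

/-!
# DS-6: truncation of the theta series (project DS, see Def.lean)

`th_tail`: `β = π x Re z`; by `LH.tendsto_th` (or `LH.hasSum_th`) the difference is `lim_{K'' → ∞} ∑_{K < n ≤ K''} cexp(-π n² x z)`, and
`∑_{n > K} e^{-βn²} ≤ e^{-βK²} ∑_{m ≥ 1} e^{-2βKm} ≤ e^{-βK²}/(2βK)` (`n = K + m`, `n² ≥ K² + 2Km`, geometric series, `e^c - 1 ≥ c`).

`tail1`: by `LH.Om_large` (`x = e^{-u}`), `Fu X z u - 2 ∑_{N ≤ K} bmol N atm N z u` equals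
`2 e^{-u/4} ∑_h amol h (th-tail of (th z (h² x) - 1)/2 at K/h) - z^{-1/2} Y e^{u/4}`, `Y = yq X 0 1`, `|Y| ≤ X` (`LH.abs_yq_le_X`); for the regrouping of
`∑_{N ≤ K}` see `e1` in the proof of `LH.tendsto_half1` (`∑_{n ≤ K/h} cexp(-π n² h² x z)`). `|amol| ≤ 1` (`abs_amol_le`), `h ≤ X`,
`k = ⌊K/h⌋ ≥ K/(2h)`, `β k² ≥ π h² x (1/(2T)) K²/(4h²) ≥ x K²/(4T) ≥ x X²/4`, `x ≥ e^{-1}`, `1/(2βk) = k/(2βk²) ≤ K`, so each tail is `≤ K exp(-x X²/4)`, the sum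
over `h` is `≤ X K exp(-xX²/4)`, and with `X ≥ (log T)²`, `K ≤ 2√T X`, `X ≤ T` this is `≤ (1/2) x^{-1/2}` for `T` large
(`2X K ≤ 4T³` and `x X²/4 ≥ (x/8) X² + log² T/…`: `exp(-xX²/4) = exp(-xX²/8) exp(-xX²/8)`, `x^{1/2} exp(-xX²/8) ≤ 1`, `X²/(8e) ≥ (log T)⁴/(8e) ≥ 4 log T`).
`e^{-u/4} x^{-1/2} = e^{u/4}`.

`tail2`: `LH.Om_small` with `y = e^{-u}` (`Om X z (1/y)`, `Fu X z (-u) = e^{u/4} Om X z (e^u)`), the regrouping is `e1` in the proof of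
`LH.tendsto_half2` (`∑_{n ≤ K h} cexp(-π n² (y/h²) z⁻¹)`), `Re z⁻¹ = Re z`; the constant term is `A = ∑ amol h`, `|A| ≤ X`.
-/

open MeasureTheory Set Filter Topology
open Pool.Agent.Helper57.LH

namespace Pool.Agent.Helper57.DS

/-- regrouping of the truncated second half -/
private lemma regroup96 (X : ℝ) (z : ℂ) (y : ℝ) (K : ℕ) :
    ∑ i ∈ Iq ⌊X⌋₊ K, (yq X 0 i.1 : ℂ) * Complex.exp (-(Real.pi * (((i.2:ℝ) / i.1 : ℝ) : ℂ) ^ 2 * y * z)) =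
      ∑ h ∈ Finset.Ioc 0 ⌊X⌋₊, ((amol X h * ew 0 h : ℝ) : ℂ) *
        ∑ n ∈ Finset.Ioc 0 (K * h), Complex.exp (-(Real.pi * (n:ℂ) ^ 2 * ((y / (h:ℝ) ^ 2 : ℝ) : ℂ) * z)) := by
  have h1 := regroup (fun h => ((amol X h * ew 0 h : ℝ) : ℂ)) (fun r => Complex.exp (-(Real.pi * (r : ℂ) ^ 2 * y * z))) ⌊X⌋₊ K
  have e3 : ∀ i ∈ Iq ⌊X⌋₊ K, (yq X 0 i.1 : ℂ) * Complex.exp (-(Real.pi * (((i.2:ℝ) / i.1 : ℝ) : ℂ) ^ 2 * y * z)) =
      (∑ h ∈ (Finset.Ioc 0 ⌊X⌋₊).filter (fun h => i.1 ∣ h), ((amol X h * ew 0 h : ℝ) : ℂ)) *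
        Complex.exp (-(Real.pi * (((i.2:ℝ) / i.1 : ℝ) : ℂ) ^ 2 * y * z)) := by
    intro i _
    unfold yq
    push_cast
    rfl
  rw [Finset.sum_congr rfl e3, ← h1]
  refine Finset.sum_congr rfl fun h hh => ?_
  rw [Finset.mem_Ioc] at hh
  have hh0 : (h:ℂ) ≠ 0 := by exact_mod_cast hh.1.ne'
  congr 1
  refine Finset.sum_congr rfl fun n _ => ?_
  congr 2
  push_cast
  field_simp

/-- the tail bound at the truncation point -/
private lemma B96 {T X : ℝ} {K : ℕ} {s y : ℝ} (hT : 3 ≤ T) (hX : 3 ≤ X) (hlog : Real.log T ^ 2 ≤ X)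
    (hK : Real.sqrt T * X ≤ K) (hs : 1 / (2 * T) ≤ s) (hy : 1 / 3 ≤ y) :
    Real.exp (-(Real.pi * y * s * (K:ℝ) ^ 2)) / (2 * (Real.pi * y * s) * K) ≤ 1 / (3 * y * X) := by
  have hT0 : 0 < T := by linarith
  have hX0 : 0 < X := by linarith
  have hy0 : 0 < y := by linarith
  have hs0 : 0 < s := lt_of_lt_of_le (by positivity) hs
  have hq : 0 < Real.sqrt T := Real.sqrt_pos.mpr hT0
  have hqq : Real.sqrt T * Real.sqrt T = T := Real.mul_self_sqrt hT0.le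
  have hK0 : 0 < (K:ℝ) := lt_of_lt_of_le (by positivity) hK
  have hpi := Real.pi_gt_three
  have hl1 : 1 ≤ Real.log T := by
    rw [Real.le_log_iff_exp_le hT0]
    have := Real.exp_one_lt_d9
    linarith
  have h1 : X / (2 * Real.sqrt T) ≤ s * K := by
    calc X / (2 * Real.sqrt T) = 1 / (2 * T) * (Real.sqrt T * X) := by
          rw [div_eq_iff (by positivity)]
          field_simp
          nlinarith [hqq]
      _ ≤ s * K := by gcongr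
  have h2 : X ^ 2 / 2 ≤ s * (K:ℝ) ^ 2 := by
    calc X ^ 2 / 2 = X / (2 * Real.sqrt T) * (Real.sqrt T * X) := by field_simp
      _ ≤ (s * K) * K := by gcongr
      _ = s * (K:ℝ) ^ 2 := by ring
  have h3 : 1 / 2 * Real.log T ≤ Real.pi * y * s * (K:ℝ) ^ 2 := by
    have h4 : Real.log T ≤ Real.log T ^ 2 := by nlinarith
    have h5 : X ≤ X ^ 2 := by nlinarith
    calc 1 / 2 * Real.log T ≤ X ^ 2 / 2 := by linarith
      _ = 3 * (1 / 3) * (X ^ 2 / 2) := by ring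
      _ ≤ Real.pi * y * (s * (K:ℝ) ^ 2) := by gcongr
      _ = _ := by ring
  have h6 : Real.exp (-(Real.pi * y * s * (K:ℝ) ^ 2)) ≤ 1 / Real.sqrt T := by
    calc Real.exp (-(Real.pi * y * s * (K:ℝ) ^ 2)) ≤ Real.exp (-(1 / 2 * Real.log T)) := by
          apply Real.exp_le_exp.mpr; linarith
      _ = 1 / Real.sqrt T := by
          rw [Real.exp_neg, show 1 / 2 * Real.log T = Real.log (Real.sqrt T) by rw [Real.log_sqrt hT0.le]; ring, Real.exp_log hq, one_div]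
  have h7 : 3 * y * X / Real.sqrt T ≤ 2 * (Real.pi * y * s) * K := by
    calc 3 * y * X / Real.sqrt T = 2 * (3 * y) * (X / (2 * Real.sqrt T)) := by field_simp
      _ ≤ 2 * (Real.pi * y) * (s * K) := by gcongr
      _ = _ := by ring
  calc Real.exp (-(Real.pi * y * s * (K:ℝ) ^ 2)) / (2 * (Real.pi * y * s) * K)
      ≤ (1 / Real.sqrt T) / (3 * y * X / Real.sqrt T) := by gcongr
    _ = 1 / (3 * y * X) := by field_simp

theorem tail2 : ∃ T0 : ℝ, ∀ (T X : ℝ) (K : ℕ), T0 ≤ T → 3 ≤ X → Real.log T ^ 2 ≤ X → X ≤ Real.sqrt T → Real.sqrt T * X ≤ K →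
    (K:ℝ) ≤ 2 * Real.sqrt T * X → ∀ u : ℝ, u ≤ 1 →
    ‖Fu X (zT T) (-u) - 2 * ((zT T) ^ (-(1/2) : ℂ)) *
      atS (Iq ⌊X⌋₊ K) (fun i : ℕ × ℕ => (i.2:ℝ) / i.1) (fun i => yq X 0 i.1) ((zT T)⁻¹) u‖ ≤ 2 * X * Real.exp (1 / 4 * u) := by
  refine ⟨3, fun T X K hT hX hlog _ hK1 _ u hu => ?_⟩
  have hT0 : 0 < T := by linarith
  have hX0 : 0 < X := by linarith
  obtain ⟨hre, hre1, -, -, -⟩ := zT_facts (T := T) (by linarith)
  have hz1 : ‖zT T‖ = 1 := zT_norm T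
  generalize hzdef : zT T = z at *
  have hzinv : z⁻¹ = starRingEnd ℂ z := by
    rw [Complex.inv_def, Complex.normSq_eq_norm_sq, hz1]; simp
  have hzi : (z⁻¹).re = z.re := by rw [hzinv, Complex.conj_re]
  have hK0 : 0 < (K:ℝ) := lt_of_lt_of_le (mul_pos (Real.sqrt_pos.mpr hT0) hX0) hK1
  have hKn : 0 < K := by exact_mod_cast hK0
  obtain ⟨y, hy⟩ : ∃ y, y = Real.exp (-u) := ⟨_, rfl⟩
  have hy0 : 0 < y := by rw [hy]; exact Real.exp_pos _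
  have hy1 : 1 / 3 ≤ y := by
    have h1 : Real.exp (-1) ≤ y := by rw [hy]; exact Real.exp_le_exp.mpr (by linarith)
    have h2 : (1:ℝ) / 3 ≤ Real.exp (-1) := by
      rw [Real.exp_neg, ← one_div]
      have := Real.exp_one_lt_d9
      exact one_div_le_one_div_of_le (Real.exp_pos _) (by linarith)
    linarith
  have e1 : Fu X z (-u) = 2 * z ^ (-(1/2) : ℂ) * ((Real.exp (-(1/4) * u) : ℂ) *
      ∑ h ∈ Finset.Ioc 0 ⌊X⌋₊, ((amol X h * ew 0 h : ℝ) : ℂ) * ((th z⁻¹ (y / (h:ℝ) ^ 2) - 1) / 2))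
      - (Real.exp (1/4 * u) : ℂ) * ∑ h ∈ Finset.Ioc 0 ⌊X⌋₊, (amol X h : ℂ) := by
    unfold Fu
    have h1 : Real.exp (- -u) = 1 / y := by rw [hy, neg_neg, Real.exp_neg, one_div, inv_inv]
    have h2 : Real.exp (-(1/4) * u) = Real.exp (-(1/4) * -u) * y ^ (1/2 : ℝ) := by
      rw [hy, ← Real.exp_mul, ← Real.exp_add]; congr 1; ring
    have h3 : Real.exp (1/4 * u) = Real.exp (-(1/4) * -u) := by congr 1; ring
    rw [h1, Om_small hre X hy0, h2, h3]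
    push_cast
    ring
  have e2 : atS (Iq ⌊X⌋₊ K) (fun i : ℕ × ℕ => (i.2:ℝ) / i.1) (fun i => yq X 0 i.1) z⁻¹ u =
      (Real.exp (-(1/4) * u) : ℂ) * ∑ h ∈ Finset.Ioc 0 ⌊X⌋₊, ((amol X h * ew 0 h : ℝ) : ℂ) *
        ∑ n ∈ Finset.Ioc 0 (K * h), Complex.exp (-(Real.pi * (n:ℂ) ^ 2 * ((y / (h:ℝ) ^ 2 : ℝ) : ℂ) * z⁻¹)) := by
    rw [← regroup96]
    unfold atS atm
    rw [Finset.mul_sum, ← hy]
    refine Finset.sum_congr rfl fun i _ => ?_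
    ring
  obtain ⟨D, hD⟩ : ∃ D : ℕ → ℂ, D = fun h : ℕ => (th z⁻¹ (y / (h:ℝ) ^ 2) - 1) / 2 -
      ∑ n ∈ Finset.Ioc (0:ℕ) (K * h), Complex.exp (-(Real.pi * (n:ℂ) ^ 2 * ((y / (h:ℝ) ^ 2 : ℝ) : ℂ) * z⁻¹)) := ⟨_, rfl⟩
  have e3 : Fu X z (-u) - 2 * (z ^ (-(1/2) : ℂ)) *
      atS (Iq ⌊X⌋₊ K) (fun i : ℕ × ℕ => (i.2:ℝ) / i.1) (fun i => yq X 0 i.1) z⁻¹ u =
      2 * z ^ (-(1/2) : ℂ) * ((Real.exp (-(1/4) * u) : ℂ) * ∑ h ∈ Finset.Ioc 0 ⌊X⌋₊, ((amol X h * ew 0 h : ℝ) : ℂ) * D h)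
      - (Real.exp (1/4 * u) : ℂ) * ∑ h ∈ Finset.Ioc 0 ⌊X⌋₊, (amol X h : ℂ) := by
    have h1 : ∑ h ∈ Finset.Ioc 0 ⌊X⌋₊, ((amol X h * ew 0 h : ℝ) : ℂ) * D h =
        ∑ h ∈ Finset.Ioc 0 ⌊X⌋₊, ((amol X h * ew 0 h : ℝ) : ℂ) * ((th z⁻¹ (y / (h:ℝ) ^ 2) - 1) / 2) -
        ∑ h ∈ Finset.Ioc 0 ⌊X⌋₊, ((amol X h * ew 0 h : ℝ) : ℂ) *
        ∑ n ∈ Finset.Ioc 0 (K * h), Complex.exp (-(Real.pi * (n:ℂ) ^ 2 * ((y / (h:ℝ) ^ 2 : ℝ) : ℂ) * z⁻¹)) := by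
      rw [← Finset.sum_sub_distrib, hD]
      refine Finset.sum_congr rfl fun h _ => ?_
      ring
    rw [e1, e2, h1]
    ring
  have hA : ‖∑ h ∈ Finset.Ioc 0 ⌊X⌋₊, (amol X h : ℂ)‖ ≤ X := by
    calc ‖∑ h ∈ Finset.Ioc 0 ⌊X⌋₊, (amol X h : ℂ)‖ ≤ ∑ h ∈ Finset.Ioc 0 ⌊X⌋₊, ‖(amol X h : ℂ)‖ := norm_sum_le _ _
      _ ≤ ∑ _h ∈ Finset.Ioc (0:ℕ) ⌊X⌋₊, (1:ℝ) := by
          refine Finset.sum_le_sum fun h _ => ?_
          rw [Complex.norm_real, Real.norm_eq_abs]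
          exact abs_amol_le (by linarith) h
      _ = ⌊X⌋₊ := by simp
      _ ≤ X := Nat.floor_le hX0.le
  have hB := B96 (K := K) (s := z.re) (y := y) hT hX hlog hK1 hre1 hy1
  have hS : ‖∑ h ∈ Finset.Ioc 0 ⌊X⌋₊, ((amol X h * ew 0 h : ℝ) : ℂ) * D h‖ ≤ X * (1 / (3 * y * X)) := by
    calc ‖∑ h ∈ Finset.Ioc 0 ⌊X⌋₊, ((amol X h * ew 0 h : ℝ) : ℂ) * D h‖
        ≤ ∑ h ∈ Finset.Ioc 0 ⌊X⌋₊, ‖((amol X h * ew 0 h : ℝ) : ℂ) * D h‖ := norm_sum_le _ _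
      _ ≤ ∑ _h ∈ Finset.Ioc (0:ℕ) ⌊X⌋₊, (1 / (3 * y * X)) := by
          refine Finset.sum_le_sum fun h hh => ?_
          rw [Finset.mem_Ioc] at hh
          have hh0 : (0:ℝ) < h := by exact_mod_cast hh.1
          have h1 : ‖((amol X h * ew 0 h : ℝ) : ℂ)‖ ≤ 1 / h := by
            rw [Complex.norm_real, Real.norm_eq_abs, abs_mul, abs_of_pos (ew_pos _ _)]
            calc |amol X h| * ew 0 h ≤ 1 * (1 / h) := by
                  gcongr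
                  · exact (ew_pos _ _).le
                  · exact abs_amol_le (by linarith) h
                  · exact ew_le le_rfl hh.1.ne'
              _ = 1 / h := one_mul _
          have h2 : ‖D h‖ ≤ Real.exp (-(Real.pi * (y / (h:ℝ) ^ 2) * z.re * ((K * h : ℕ):ℝ) ^ 2)) /
              (2 * (Real.pi * (y / (h:ℝ) ^ 2) * z.re) * ((K * h : ℕ):ℝ)) := by
            have h3 := th_tail (z := z⁻¹) (by rw [hzi]; exact hre) (x := y / (h:ℝ) ^ 2) (by positivity) (K := K * h)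
              (Nat.mul_pos hKn hh.1)
            rw [hzi] at h3
            rw [hD]
            exact h3
          have h4 : Real.exp (-(Real.pi * (y / (h:ℝ) ^ 2) * z.re * ((K * h : ℕ):ℝ) ^ 2)) /
              (2 * (Real.pi * (y / (h:ℝ) ^ 2) * z.re) * ((K * h : ℕ):ℝ)) =
              h * (Real.exp (-(Real.pi * y * z.re * (K:ℝ) ^ 2)) / (2 * (Real.pi * y * z.re) * K)) := by
            have h5 : Real.pi * (y / (h:ℝ) ^ 2) * z.re * ((K * h : ℕ):ℝ) ^ 2 = Real.pi * y * z.re * (K:ℝ) ^ 2 := by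
              push_cast; field_simp
            rw [h5]
            push_cast
            field_simp
          rw [h4] at h2
          rw [norm_mul]
          calc ‖((amol X h * ew 0 h : ℝ) : ℂ)‖ * ‖D h‖
              ≤ (1 / h) * (h * (Real.exp (-(Real.pi * y * z.re * (K:ℝ) ^ 2)) / (2 * (Real.pi * y * z.re) * K))) := by
                gcongr
            _ = Real.exp (-(Real.pi * y * z.re * (K:ℝ) ^ 2)) / (2 * (Real.pi * y * z.re) * K) := by field_simp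
            _ ≤ _ := hB
      _ = ⌊X⌋₊ * (1 / (3 * y * X)) := by simp
      _ ≤ X * (1 / (3 * y * X)) := by
          have := Nat.floor_le hX0.le
          gcongr
  have hE1 : Real.exp (-(1/4) * u) / y ≤ 2 * Real.exp (1 / 4 * u) := by
    have h1 : Real.exp (-(1/4) * u) / y = Real.exp (1/2 * u) * Real.exp (1 / 4 * u) := by
      rw [hy, ← Real.exp_sub, ← Real.exp_add]; congr 1; ring
    have h2 : Real.exp (1/2 * u) ≤ 2 := by
      have h3 : Real.exp (1/2 * u) ≤ Real.exp (1/2) := Real.exp_le_exp.mpr (by linarith)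
      have h4 : Real.exp (1/2) * Real.exp (1/2) = Real.exp 1 := by rw [← Real.exp_add]; norm_num
      have h5 := Real.exp_one_lt_d9
      nlinarith [Real.exp_pos (1/2 : ℝ)]
    rw [h1]
    gcongr
  rw [e3]
  refine (norm_sub_le _ _).trans ?_
  rw [norm_mul, norm_mul, norm_mul, norm_mul, norm_z_pow hz1, Complex.norm_real, Complex.norm_real,
    Real.norm_of_nonneg (Real.exp_pos _).le, Real.norm_of_nonneg (Real.exp_pos _).le]
  have hE := Real.exp_pos (1 / 4 * u)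
  have h2n : ‖(2:ℂ)‖ = 2 := by norm_num
  rw [h2n]
  calc 2 * 1 * (Real.exp (-(1/4) * u) * ‖∑ h ∈ Finset.Ioc 0 ⌊X⌋₊, ((amol X h * ew 0 h : ℝ) : ℂ) * D h‖) +
        Real.exp (1/4 * u) * ‖∑ h ∈ Finset.Ioc 0 ⌊X⌋₊, (amol X h : ℂ)‖
      ≤ 2 * 1 * (Real.exp (-(1/4) * u) * (X * (1 / (3 * y * X)))) + Real.exp (1/4 * u) * X := by gcongr
    _ = 2 / 3 * (Real.exp (-(1/4) * u) / y) + Real.exp (1/4 * u) * X := by field_simp
    _ ≤ 2 / 3 * (2 * Real.exp (1 / 4 * u)) + Real.exp (1/4 * u) * X := by gcongr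
    _ ≤ 2 * X * Real.exp (1 / 4 * u) := by nlinarith

end Pool.Agent.Helper57.DS
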