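import Pool.Agent.Helper57.DS.Fin
import Pool.Agent.Helper57.DS.Sum1
import Pool.Agent.Helper57.DS.Sum2
import Pool.Agent.Helper57.DS.Tail1
import Pool.Agent.Helper57.DS.Tail2

/-!
# DS-7: the mollified second moment in short intervals (project DS, see Def.lean)

Put `K = ⌈√T X⌉`, `a = T/2`, `z = zT T`. `∫_ℝ ‖cv (Fu X z)‖² = ∫_{u ≤ 0} ‖cv (Fu X z) u‖² + ∫_{u ≤ 0} ‖cv (Fu X z) (-u)‖²` and
`‖cv (Fu X z) (-u)‖ = ‖cv G u‖`, `G u = conj (Fu X z (-u))` (`cv_refl`).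
Apply `half_gen` to `Fu X z` (`tail1`, `ω = 1`) and to `G` (`tail2`; conjugation: `conj (atm lam z⁻¹ u) = atm lam z u` because
`z⁻¹ = conj z`; `ω = conj (z^{-1/2})`, norm one by `LH.norm_z_pow`); integrability `LH.Fu_integrable`.
Separation: `N ≠ M ≤ K`: `|N² - M²| ≥ N + M ≥ max`, and `12 η K ≤ 1`; for `Iq`: `|λ² - μ²| = |λ-μ|(λ+μ) ≥ max(λ,μ)/X²` (`Iq_inj`),
`max(λ, μ) ≤ K`, `12 η K X² ≤ 1` because `η √T X⁹ ≤ 1`, `K ≤ 2√T X`, `X⁶ ≥ 3⁶ ≥ 24`.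
`fb ≤ (C/(η√T)) (log T/log X) + C X⁸ log² T` by the sums; `X⁸ log² T ≤ X⁹ ≤ 1/(η√T)`.
Then `cv_up` (`a = T/2`), `LH.FT_lower` (`t ∈ [T - 1/η, T + 1/η] ⊆ [T/2, 3T/2]`, `e^{-2(t/T)²} ≥ e^{-9/2}`), substitution `τ = -t/2`
as in `LH.second_moment`.
-/

open MeasureTheory Set Filter Topology
open Pool.Agent.Helper57.LH

namespace Pool.Agent.Helper57.DS

private lemma conj_atm99 {z : ℂ} (hz : ‖z‖ = 1) (lam u : ℝ) : starRingEnd ℂ (atm lam z u) = atm lam z⁻¹ u := by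
  have hinv : z⁻¹ = starRingEnd ℂ z := by
    rw [Complex.inv_def, Complex.normSq_eq_norm_sq, hz]
    norm_num
  unfold atm
  rw [hinv, map_mul, Complex.conj_ofReal, ← Complex.exp_conj]
  congr 2
  rw [map_neg, map_mul, map_mul, map_mul, map_pow, Complex.conj_ofReal, Complex.conj_ofReal, Complex.conj_ofReal]

private lemma conj_atS99 {ι : Type*} (I : Finset ι) (lam c : ι → ℝ) {z : ℂ} (hz : ‖z‖ = 1) (u : ℝ) :
    starRingEnd ℂ (atS I lam c z u) = atS I lam c z⁻¹ u := by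
  unfold atS
  rw [map_sum]
  refine Finset.sum_congr rfl fun i _ => ?_
  rw [map_mul, Complex.conj_ofReal, conj_atm99 hz]

private lemma sep1_99 {η : ℝ} {K : ℕ} (hη : 0 < η) (hK : 12 * η * K ≤ 1) {i j : ℕ} (hi : i ∈ Finset.Ioc 0 K)
    (hj : j ∈ Finset.Ioc 0 K) (hij : i ≠ j) :
    12 * η * max ((i:ℝ) ^ 2) ((j:ℝ) ^ 2) ≤ |(i:ℝ) ^ 2 - (j:ℝ) ^ 2| := by
  rw [Finset.mem_Ioc] at hi hj
  have hi0 : (0:ℝ) < i := by exact_mod_cast hi.1
  have hj0 : (0:ℝ) < j := by exact_mod_cast hj.1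
  have hiK : (i:ℝ) ≤ K := by exact_mod_cast hi.2
  have hjK : (j:ℝ) ≤ K := by exact_mod_cast hj.2
  have h1 : (1:ℝ) ≤ |(i:ℝ) - j| := by
    have h2 : (1:ℤ) ≤ |(i:ℤ) - j| := by
      apply Int.one_le_abs
      intro h
      apply hij
      have : (i:ℤ) = j := by linarith
      exact_mod_cast this
    exact_mod_cast h2
  have h3 : |(i:ℝ) ^ 2 - (j:ℝ) ^ 2| = |(i:ℝ) - j| * (i + j) := by
    rw [sq_sub_sq, abs_mul, abs_of_pos (by positivity : (0:ℝ) < i + j), mul_comm]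
  rw [h3]
  have h4 : (i:ℝ) + j ≤ |(i:ℝ) - j| * (i + j) := le_mul_of_one_le_left (by positivity) h1
  refine le_trans ?_ h4
  rcases max_cases ((i:ℝ) ^ 2) ((j:ℝ) ^ 2) with ⟨h5, _⟩ | ⟨h5, _⟩ <;> rw [h5]
  · have h6 : 12 * η * (i:ℝ) ^ 2 ≤ i := by
      have h7 : 12 * η * (i:ℝ) ≤ 1 := le_trans (mul_le_mul_of_nonneg_left hiK (by positivity)) hK
      calc 12 * η * (i:ℝ) ^ 2 = 12 * η * i * i := by ring
        _ ≤ 1 * i := mul_le_mul_of_nonneg_right h7 hi0.le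
        _ = i := one_mul _
    linarith
  · have h6 : 12 * η * (j:ℝ) ^ 2 ≤ j := by
      have h7 : 12 * η * (j:ℝ) ≤ 1 := le_trans (mul_le_mul_of_nonneg_left hjK (by positivity)) hK
      calc 12 * η * (j:ℝ) ^ 2 = 12 * η * j * j := by ring
        _ ≤ 1 * j := mul_le_mul_of_nonneg_right h7 hj0.le
        _ = j := one_mul _
    linarith

private lemma sep2_99 {η X : ℝ} {K : ℕ} (hη : 0 < η) (hX : 3 ≤ X) (hK : 12 * η * K * X ^ 2 ≤ 1) {i j : ℕ × ℕ}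
    (hi : i ∈ Iq ⌊X⌋₊ K) (hj : j ∈ Iq ⌊X⌋₊ K) (hij : i ≠ j) :
    12 * η * max (((i.2:ℝ) / i.1) ^ 2) (((j.2:ℝ) / j.1) ^ 2) ≤ |((i.2:ℝ) / i.1) ^ 2 - ((j.2:ℝ) / j.1) ^ 2| := by
  have hne := Iq_inj i hi j hj hij
  rw [mem_Iq] at hi hj
  obtain ⟨⟨hi1, hi1X⟩, ⟨hi2, _⟩, hiK, _⟩ := hi
  obtain ⟨⟨hj1, hj1X⟩, ⟨hj2, _⟩, hjK, _⟩ := hj
  have hX0 : 0 < X := by linarith
  have hfl : ((⌊X⌋₊ : ℕ) : ℝ) ≤ X := Nat.floor_le hX0.le
  have a1 : (0:ℝ) < i.1 := by exact_mod_cast hi1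
  have a2 : (0:ℝ) < i.2 := by exact_mod_cast hi2
  have b1 : (0:ℝ) < j.1 := by exact_mod_cast hj1
  have b2 : (0:ℝ) < j.2 := by exact_mod_cast hj2
  have a1X : (i.1:ℝ) ≤ X := le_trans (by exact_mod_cast hi1X) hfl
  have b1X : (j.1:ℝ) ≤ X := le_trans (by exact_mod_cast hj1X) hfl
  obtain ⟨l, hl⟩ : ∃ l : ℝ, l = (i.2:ℝ) / i.1 := ⟨_, rfl⟩
  obtain ⟨m, hm⟩ : ∃ m : ℝ, m = (j.2:ℝ) / j.1 := ⟨_, rfl⟩
  have hl0 : 0 < l := by rw [hl]; positivity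
  have hm0 : 0 < m := by rw [hm]; positivity
  have hlK : l ≤ K := by
    rw [hl, div_le_iff₀ a1]
    exact_mod_cast hiK
  have hmK : m ≤ K := by
    rw [hm, div_le_iff₀ b1]
    exact_mod_cast hjK
  have h1 : (1:ℝ) ≤ |(i.2:ℝ) * j.1 - j.2 * i.1| := by
    have h2 : (1:ℤ) ≤ |(i.2:ℤ) * j.1 - j.2 * i.1| := by
      apply Int.one_le_abs
      intro h
      apply hne
      have : (i.2:ℤ) * j.1 = j.2 * i.1 := by linarith
      exact_mod_cast this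
    exact_mod_cast h2
  have h2 : l - m = ((i.2:ℝ) * j.1 - j.2 * i.1) / (i.1 * j.1) := by
    rw [hl, hm]
    field_simp
  have h3 : 1 / X ^ 2 ≤ |l - m| := by
    rw [h2, abs_div, abs_of_pos (mul_pos a1 b1)]
    have h4 : (i.1:ℝ) * j.1 ≤ X ^ 2 := by
      rw [sq]
      exact mul_le_mul a1X b1X b1.le hX0.le
    exact div_le_div₀ (abs_nonneg _) h1 (mul_pos a1 b1) h4
  rw [← hl, ← hm]
  have h5 : |l ^ 2 - m ^ 2| = |l - m| * (l + m) := by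
    rw [sq_sub_sq, abs_mul, abs_of_pos (by positivity : (0:ℝ) < l + m), mul_comm]
  rw [h5]
  have h6 : 1 / X ^ 2 * (l + m) ≤ |l - m| * (l + m) := mul_le_mul_of_nonneg_right h3 (by positivity)
  refine le_trans ?_ h6
  have h7 : 12 * η * K ≤ 1 / X ^ 2 := by
    rw [le_div_iff₀ (by positivity)]
    exact hK
  have h8 : 0 < 1 / X ^ 2 := by positivity
  rcases max_cases (l ^ 2) (m ^ 2) with ⟨h9, _⟩ | ⟨h9, _⟩ <;> rw [h9]
  · calc 12 * η * l ^ 2 = 12 * η * l * l := by ring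
      _ ≤ 12 * η * K * l := by gcongr
      _ ≤ 1 / X ^ 2 * l := mul_le_mul_of_nonneg_right h7 hl0.le
      _ ≤ 1 / X ^ 2 * (l + m) := mul_le_mul_of_nonneg_left (by linarith) h8.le
  · calc 12 * η * m ^ 2 = 12 * η * m * m := by ring
      _ ≤ 12 * η * K * m := by gcongr
      _ ≤ 1 / X ^ 2 * m := mul_le_mul_of_nonneg_right h7 hm0.le
      _ ≤ 1 / X ^ 2 * (l + m) := mul_le_mul_of_nonneg_left (by linarith) h8.le

/-- The finite bound from its two sums. -/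
private lemma fb99 {ι : Type*} [DecidableEq ι] (I : Finset ι) (lam c : ι → ℝ) {η T D E : ℝ}
    (hD : ∑ i ∈ I, c i ^ 2 / lam i ≤ D)
    (hE : ∑ i ∈ I, ∑ j ∈ I, (if i = j then 0 else |c i| * |c j| * (4 / |lam i ^ 2 - lam j ^ 2|)) ≤ E)
    (hη : 0 < η) (hT : 0 < T) : fb I lam c η T ≤ 5000 * (1 / (η * Real.sqrt T)) * D + E := by
  unfold fb
  refine add_le_add ?_ hE
  have h1 : ∑ i ∈ I, c i ^ 2 * (5000 / (lam i * η * Real.sqrt T)) =
      5000 * (1 / (η * Real.sqrt T)) * ∑ i ∈ I, c i ^ 2 / lam i := by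
    rw [Finset.mul_sum]
    refine Finset.sum_congr rfl fun i _ => ?_
    rw [div_eq_mul_inv, div_eq_mul_inv, div_eq_mul_inv, mul_inv, mul_inv, mul_inv]
    ring
  rw [h1]
  have hs : 0 < Real.sqrt T := Real.sqrt_pos.mpr hT
  exact mul_le_mul_of_nonneg_left hD (by positivity)

/-- Both halves together. -/
theorem cvF_sq : ∃ C T0 : ℝ, 0 < C ∧ ∀ T X η : ℝ, T0 ≤ T → 3 ≤ X → Real.log T ^ 2 ≤ X → X ^ 40 ≤ T → 2 / T ≤ η →
    η * Real.sqrt T * X ^ 9 ≤ 1 →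
    ∫ u, ‖cv η (T / 2) (Fu X (zT T)) u‖ ^ 2 ≤ C * (1 / (η * Real.sqrt T)) * (Real.log T / Real.log X) := by
  obtain ⟨C1, hC1, h1⟩ := sum1_diag
  obtain ⟨C2, hC2, h2⟩ := sum1_off
  obtain ⟨C3, hC3, h3⟩ := sum2_diag
  obtain ⟨C4, hC4, h4⟩ := sum2_off
  obtain ⟨T1, ht1⟩ := tail1
  obtain ⟨T2, ht2⟩ := tail2
  refine ⟨8 * (5000 * C1 + C2) + 8 * (5000 * C3 + C4) + 40, max (max T1 T2) 100, by positivity, ?_⟩
  intro T X η hT hX hlog hX40 hη hηX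
  have hTT1 : T1 ≤ T := ((le_max_left _ _).trans (le_max_left _ _)).trans hT
  have hTT2 : T2 ≤ T := ((le_max_right _ _).trans (le_max_left _ _)).trans hT
  have hT100 : 100 ≤ T := (le_max_right _ _).trans hT
  have hT0 : 0 < T := by linarith
  have hX0 : 0 < X := by linarith
  have hX1 : 1 ≤ X := by linarith
  have hη0 : 0 < η := lt_of_lt_of_le (by positivity) hη
  obtain ⟨s, hs⟩ : ∃ s : ℝ, s = Real.sqrt T := ⟨_, rfl⟩
  have hs0 : 0 < s := by rw [hs]; exact Real.sqrt_pos.mpr hT0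
  have hss : s ^ 2 = T := by rw [hs]; exact Real.sq_sqrt hT0.le
  have hs20 : X ^ 20 ≤ s := by
    rw [hs]
    apply Real.le_sqrt_of_sq_le
    calc (X ^ 20) ^ 2 = X ^ 40 := by ring
      _ ≤ T := hX40
  have hXs2 : 2 * X ≤ s := by
    have e1 : 2 * X ≤ X ^ 2 := by nlinarith
    have e2 : X ^ 2 ≤ X ^ 20 := pow_le_pow_right₀ hX1 (by norm_num)
    linarith
  have hs1 : 1 ≤ s := by linarith
  have hpow : ∀ n : ℕ, (3:ℝ) ^ n ≤ X ^ n := fun n => pow_le_pow_left₀ (by norm_num) hX n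
  -- the parameter
  obtain ⟨K, hKd⟩ : ∃ K : ℕ, K = ⌈s * X⌉₊ := ⟨_, rfl⟩
  have hK1 : s * X ≤ K := by rw [hKd]; exact Nat.le_ceil _
  have hK2 : (K:ℝ) ≤ 2 * s * X := by
    have e1 : (K:ℝ) < s * X + 1 := by rw [hKd]; exact Nat.ceil_lt_add_one (by positivity)
    have e2 : 1 ≤ s * X := by nlinarith
    linarith
  have hXK : X ≤ K := le_trans (le_mul_of_one_le_left hX0.le hs1) hK1
  have hX10K : X ^ 10 ≤ K := by
    have e1 : X ^ 10 ≤ X ^ 20 := pow_le_pow_right₀ hX1 (by norm_num)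
    have e2 : s ≤ s * X := le_mul_of_one_le_right hs0.le hX1
    linarith
  have hKT : (K:ℝ) ≤ T := by
    have e1 : 2 * X * s ≤ s * s := mul_le_mul_of_nonneg_right hXs2 hs0.le
    nlinarith
  have hK0 : (0:ℝ) < K := by linarith
  have hKn : 1 ≤ K := by
    have : (0:ℝ) < K := hK0
    exact_mod_cast this
  have hηs : η * s * X ^ 9 ≤ 1 := by rw [hs]; exact hηX
  have hηs1 : η * s ≤ 1 := by
    have e1 : η * s ≤ η * s * X ^ 9 := le_mul_of_one_le_right (by positivity) (one_le_pow₀ hX1)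
    linarith
  have hη24 : η ≤ 1 / 24 := by
    have e1 : η * 3 ^ 9 ≤ η * X ^ 9 := mul_le_mul_of_nonneg_left (hpow 9) hη0.le
    have e2 : η * X ^ 9 ≤ η * s * X ^ 9 := by
      have : η * 1 * X ^ 9 ≤ η * s * X ^ 9 := by gcongr
      linarith
    norm_num at e1
    linarith
  have hηT : η ^ 2 * T ≤ 1 := by
    rw [← hss, ← mul_pow]
    exact pow_le_one₀ (by positivity) hηs1
  have hKη : 12 * η * K * X ^ 2 ≤ 1 := by
    have e1 : 12 * η * K * X ^ 2 ≤ 12 * η * (2 * s * X) * X ^ 2 := by gcongr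
    have e2 : 12 * η * (2 * s * X) * X ^ 2 * X ^ 6 = 24 * (η * s * X ^ 9) := by ring
    have e3 := hpow 6
    have e4 : 0 ≤ 12 * η * (2 * s * X) * X ^ 2 := by positivity
    have e5 : 12 * η * (2 * s * X) * X ^ 2 * 24 ≤ 12 * η * (2 * s * X) * X ^ 2 * X ^ 6 :=
      mul_le_mul_of_nonneg_left (by norm_num at e3; linarith) e4
    linarith
  have hKη1 : 12 * η * K ≤ 1 := by
    have e1 : 12 * η * K ≤ 12 * η * K * X ^ 2 := le_mul_of_one_le_right (by positivity) (one_le_pow₀ hX1)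
    linarith
  -- logarithms
  have hlX : 0 < Real.log X := Real.log_pos (by linarith)
  have hlK : Real.log K ≤ Real.log T := Real.log_le_log hK0 hKT
  have hlK0 : 0 ≤ Real.log K := Real.log_nonneg (by exact_mod_cast hKn)
  have hlXT : Real.log X ≤ Real.log T := Real.log_le_log hX0 (hXK.trans hKT)
  obtain ⟨R, hR⟩ : ∃ R : ℝ, R = Real.log T / Real.log X := ⟨_, rfl⟩
  have hR1 : 1 ≤ R := by rw [hR, le_div_iff₀ hlX]; linarith
  have hRK : Real.log K / Real.log X ≤ R := by rw [hR]; exact div_le_div_of_nonneg_right hlK hlX.le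
  have hlK2 : Real.log K ^ 2 ≤ X := (pow_le_pow_left₀ hlK0 hlK 2).trans hlog
  obtain ⟨Q, hQ⟩ : ∃ Q : ℝ, Q = 1 / (η * Real.sqrt T) := ⟨_, rfl⟩
  have hQ0 : 0 < Q := by rw [hQ, ← hs]; positivity
  have hX9 : X ^ 9 ≤ Q := by
    rw [hQ, ← hs, le_div_iff₀ (by positivity)]
    linarith
  have hXp : ∀ n : ℕ, n ≤ 9 → X ^ n ≤ Q := fun n hn => (pow_le_pow_right₀ hX1 hn).trans hX9
  -- the twist
  obtain ⟨hz0, -⟩ := zT_facts (T := T) (by linarith)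
  have hz1 : ‖zT T‖ = 1 := zT_norm T
  have hF := Fu_integrable hz0 X
  have hXsT : X ≤ Real.sqrt T := by rw [← hs]; linarith
  have hK1' : Real.sqrt T * X ≤ K := by rw [← hs]; exact hK1
  have hK2' : (K:ℝ) ≤ 2 * Real.sqrt T * X := by rw [← hs]; exact hK2
  -- the first half
  have hA : ∫ u in Iic (0:ℝ), ‖cv η (T / 2) (Fu X (zT T)) u‖ ^ 2 ≤
      8 * fb (Finset.Ioc 0 K) (fun N : ℕ => (N:ℝ)) (fun N => bmol X N) η T + 5 * (2 * X) ^ 2 := by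
    refine half_gen (Finset.Ioc 0 K) (fun N : ℕ => (N:ℝ)) (fun N => bmol X N) hT100 hη hη24 hηT ?_ ?_ ?_
      (ω := 1) (by norm_num) hF (ht1 T X K hTT1 hX hlog hXsT hK1' hK2')
    · intro i hi
      exact_mod_cast (Finset.mem_Ioc.1 hi).1
    · intro i _ j _ hij h
      exact hij (by exact_mod_cast h)
    · intro i hi j hj hij
      exact sep1_99 hη0 hKη1 hi hj hij
  -- the second half
  have hG : Integrable (fun u => starRingEnd ℂ (Fu X (zT T) (-u))) :=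
    Complex.conjCLE.toContinuousLinearMap.integrable_comp hF.comp_neg
  have hB : ∫ u in Iic (0:ℝ), ‖cv η (T / 2) (fun u => starRingEnd ℂ (Fu X (zT T) (-u))) u‖ ^ 2 ≤
      8 * fb (Iq ⌊X⌋₊ K) (fun i : ℕ × ℕ => (i.2:ℝ) / i.1) (fun i => yq X 0 i.1) η T + 5 * (2 * X) ^ 2 := by
    refine half_gen (Iq ⌊X⌋₊ K) (fun i : ℕ × ℕ => (i.2:ℝ) / i.1) (fun i => yq X 0 i.1) hT100 hη hη24 hηT ?_ ?_ ?_
      (ω := starRingEnd ℂ ((zT T) ^ (-(1/2) : ℂ))) ?_ hG ?_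
    · intro i hi
      rw [mem_Iq] at hi
      have a1 : (0:ℝ) < i.1 := by exact_mod_cast hi.1.1
      have a2 : (0:ℝ) < i.2 := by exact_mod_cast hi.2.1.1
      positivity
    · intro i hi j hj hij h
      apply Iq_inj i hi j hj hij
      rw [mem_Iq] at hi hj
      have a1 : (i.1:ℝ) ≠ 0 := by exact_mod_cast hi.1.1.ne'
      have b1 : (j.1:ℝ) ≠ 0 := by exact_mod_cast hj.1.1.ne'
      have h' : (i.2:ℝ) / i.1 = (j.2:ℝ) / j.1 := h
      rw [div_eq_div_iff a1 b1] at h'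
      exact_mod_cast h'
    · intro i hi j hj hij
      exact sep2_99 hη0 hX hKη hi hj hij
    · rw [RCLike.norm_conj]
      exact norm_z_pow hz1
    · intro u hu
      have e1 := ht2 T X K hTT2 hX hlog hXsT hK1' hK2' u hu
      rw [← conj_atS99 _ _ _ hz1] at e1
      have e2 : starRingEnd ℂ (Fu X (zT T) (-u)) - 2 * starRingEnd ℂ ((zT T) ^ (-(1/2) : ℂ)) *
          atS (Iq ⌊X⌋₊ K) (fun i : ℕ × ℕ => (i.2:ℝ) / i.1) (fun i => yq X 0 i.1) (zT T) u =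
          starRingEnd ℂ (Fu X (zT T) (-u) - 2 * ((zT T) ^ (-(1/2) : ℂ)) *
            starRingEnd ℂ (atS (Iq ⌊X⌋₊ K) (fun i : ℕ × ℕ => (i.2:ℝ) / i.1) (fun i => yq X 0 i.1) (zT T) u)) := by
        rw [map_sub, map_mul, map_mul, Complex.conj_conj, map_ofNat]
      rw [e2, RCLike.norm_conj]
      exact e1
  -- the sums
  have hfb1 : fb (Finset.Ioc 0 K) (fun N : ℕ => (N:ℝ)) (fun N => bmol X N) η T ≤ (5000 * C1 + C2) * (Q * R) := by
    have e1 := fb99 (Finset.Ioc 0 K) (fun N : ℕ => (N:ℝ)) (fun N => bmol X N) (h1 X K hX hXK) (h2 X K hX hXK) hη0 hT0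
    rw [← hQ] at e1
    have e2 : 5000 * Q * (C1 * (Real.log K / Real.log X)) ≤ 5000 * Q * (C1 * R) := by gcongr
    have e3 : C2 * Real.log K ^ 2 ≤ C2 * (Q * R) := by
      refine mul_le_mul_of_nonneg_left ?_ hC2.le
      have e4 : X ≤ Q := by simpa using hXp 1 (by norm_num)
      have e5 : Q ≤ Q * R := le_mul_of_one_le_right hQ0.le hR1
      linarith
    calc _ ≤ _ := e1
      _ ≤ 5000 * Q * (C1 * R) + C2 * (Q * R) := add_le_add e2 e3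
      _ = _ := by ring
  have hfb2 : fb (Iq ⌊X⌋₊ K) (fun i : ℕ × ℕ => (i.2:ℝ) / i.1) (fun i => yq X 0 i.1) η T ≤ (5000 * C3 + C4) * (Q * R) := by
    have e1 := fb99 (Iq ⌊X⌋₊ K) (fun i : ℕ × ℕ => (i.2:ℝ) / i.1) (fun i => yq X 0 i.1) (h3 X K hX hXK) (h4 X K hX hX10K) hη0 hT0
    rw [← hQ] at e1
    have e2 : 5000 * Q * (C3 * (Real.log K / Real.log X)) ≤ 5000 * Q * (C3 * R) := by gcongr
    have e3 : C4 * X ^ 8 * Real.log K ^ 2 ≤ C4 * (Q * R) := by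
      rw [mul_assoc]
      refine mul_le_mul_of_nonneg_left ?_ hC4.le
      have e4 : X ^ 8 * Real.log K ^ 2 ≤ X ^ 8 * X := mul_le_mul_of_nonneg_left hlK2 (by positivity)
      have e5 : Q ≤ Q * R := le_mul_of_one_le_right hQ0.le hR1
      have e6 : X ^ 8 * X = X ^ 9 := by ring
      linarith
    calc _ ≤ _ := e1
      _ ≤ 5000 * Q * (C3 * R) + C4 * (Q * R) := add_le_add e2 e3
      _ = _ := by ring
  -- together
  have hsq := cv_sq_int (a := T / 2) hη0 hF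
  have hsplit : ∫ u, ‖cv η (T / 2) (Fu X (zT T)) u‖ ^ 2 =
      (∫ u in Iic (0:ℝ), ‖cv η (T / 2) (Fu X (zT T)) u‖ ^ 2) +
        ∫ u in Iic (0:ℝ), ‖cv η (T / 2) (fun u => starRingEnd ℂ (Fu X (zT T) (-u))) u‖ ^ 2 := by
    have e1 := integral_add_compl (measurableSet_Iic (a := (0:ℝ))) hsq
    rw [compl_Iic] at e1
    have e2 := integral_comp_neg_Iic (0:ℝ) (fun u => ‖cv η (T / 2) (Fu X (zT T)) u‖ ^ 2)
    rw [neg_zero] at e2
    rw [← e1, ← e2]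
    congr 1
    refine setIntegral_congr_fun measurableSet_Iic fun u _ => ?_
    exact congrArg (fun y : ℝ => y ^ 2) (cv_refl η (T / 2) (Fu X (zT T)) u)
  rw [hsplit, ← hQ, ← hR]
  have hX2 : X ^ 2 ≤ Q * R := by
    have e4 := hXp 2 (by norm_num)
    have e5 : Q ≤ Q * R := le_mul_of_one_le_right hQ0.le hR1
    linarith
  have hfin : (∫ u in Iic (0:ℝ), ‖cv η (T / 2) (Fu X (zT T)) u‖ ^ 2) +
        ∫ u in Iic (0:ℝ), ‖cv η (T / 2) (fun u => starRingEnd ℂ (Fu X (zT T) (-u))) u‖ ^ 2 ≤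
      8 * ((5000 * C1 + C2) * (Q * R)) + 8 * ((5000 * C3 + C4) * (Q * R)) + 40 * (Q * R) := by
    have e1 : (2 * X) ^ 2 = 4 * X ^ 2 := by ring
    rw [e1] at hA hB
    linarith
  refine hfin.trans (le_of_eq ?_)
  ring

end Pool.Agent.Helper57.DS
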