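import Pool.Agent.Helper57.DS.Def

/-!
# DS-6: truncation of the theta series (project DS, see Def.lean)

`th_tail`: `β = π x Re z`; by `LH.tendsto_th` (or `LH.hasSum_th`) the difference is `lim_{K'' → ∞} ∑_{K < n ≤ K''} cexp(-π n² x z)`, and
`∑_{n > K} e^{-βn²} ≤ e^{-βK²} ∑_{m ≥ 1} e^{-2βKm} ≤ e^{-βK²}/(2βK)` (`n = K + m`, `n² ≥ K² + 2Km`, geometric series, `e^c - 1 ≥ c`).

`tail1`: by `LH.Om_large` (`x = e^{-u}`), `Fu X z u - 2 ∑_{N ≤ K} bmol N atm N z u` equals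
`2 e^{-u/4} ∑_h amol h (th-tail of (th z (h² x) - 1)/2 at K/h) - z^{-1/2} Y e^{u/4}`, `Y = yq X 0 1`, `|Y| ≤ X` (`LH.abs_yq_le_X`); for the regrouping of
`∑_{N ≤ K}` see `e1` in the proof of `LH.tendsto_half1` (`∑_{n ≤ K/h} cexp(-π n² h² x z)`). `|amol| ≤ 1` (`abs_amol_le`), `h ≤ X`,
`k = ⌊K/h⌋ ≥ K/(2h)`, `β k² ≥ π h² x (1/(2T)) K²/(4h²) ≥ x K²/(4T) ≥ x X²/4`, `x ≥ e^{-1}`, `1/(2βk) = k/(2βk²) ≤ K`, so each tail is `≤ K exp(-x X²/4)`, the sum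
over `h` is `≤ X K exp(-xX²/4)`, and with `X ≥ (log T)²`, `K ≤ 2√T X`, `X ≤ T` this is `≤ (1/2) x^{-1/2}` for `T` large
(`2X K ≤ 4T³` and `x X²/4 ≥ (x/8) X² + log² T/…`: `exp(-xX²/4) = exp(-xX²/8) exp(-xX²/8)`, `x^{1/2} exp(-xX²/8) ≤ 1`, `X²/(8e) ≥ (log T)⁴/(8e) ≥ 4 log T`).
`e^{-u/4} x^{-1/2} = e^{u/4}`.

`tail2`: `LH.Om_small` with `y = e^{-u}` (`Om X z (1/y)`, `Fu X z (-u) = e^{u/4} Om X z (e^u)`), the regrouping is `e1` in the proof of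
`LH.tendsto_half2` (`∑_{n ≤ K h} cexp(-π n² (y/h²) z⁻¹)`), `Re z⁻¹ = Re z`; the constant term is `A = ∑ amol h`, `|A| ≤ X`.
-/

open MeasureTheory Set Filter Topology
open Pool.Agent.Helper57.LH

namespace Pool.Agent.Helper57.DS

lemma th_tail {z : ℂ} (hz : 0 < z.re) {x : ℝ} (hx : 0 < x) {K : ℕ} (hK : 1 ≤ K) :
    ‖(th z x - 1) / 2 - ∑ n ∈ Finset.Ioc 0 K, Complex.exp (-(Real.pi * (n:ℂ) ^ 2 * x * z))‖ ≤
      Real.exp (-(Real.pi * x * z.re * (K:ℝ) ^ 2)) / (2 * (Real.pi * x * z.re) * K) := by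
  have hβ : 0 < Real.pi * x * z.re := by positivity
  obtain ⟨β, hβd⟩ : ∃ β, β = Real.pi * x * z.re := ⟨_, rfl⟩
  have hK0 : (0:ℝ) < K := by exact_mod_cast hK
  rw [← hβd] at hβ ⊢
  have hc : 0 < 2 * β * K := by positivity
  obtain ⟨c, hcd⟩ : ∃ c, c = 2 * β * K := ⟨_, rfl⟩
  rw [← hcd] at hc ⊢
  obtain ⟨r, hrd⟩ : ∃ r, r = Real.exp (-c) := ⟨_, rfl⟩
  have hr0 : 0 < r := by rw [hrd]; exact Real.exp_pos _
  have hr1 : r < 1 := by rw [hrd]; exact Real.exp_lt_one_iff.2 (by linarith)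
  have h1 := (hasSum_nat_add_iff' K).2 (hasSum_th hz hx)
  have hs : ∑ n ∈ Finset.Ioc 0 K, Complex.exp (-(Real.pi * (n:ℂ) ^ 2 * x * z)) =
      ∑ i ∈ Finset.range K, Complex.exp (-(Real.pi * ((i:ℂ) + 1) ^ 2 * x * z)) := by
    rw [sum_Ioc_range]
    refine Finset.sum_congr rfl fun i _ => ?_
    push_cast
    rfl
  rw [hs]
  have h2 : HasSum (fun m : ℕ => Real.exp (-(β * (K:ℝ) ^ 2)) * (r * r ^ m))
      (Real.exp (-(β * (K:ℝ) ^ 2)) * (r * (1 - r)⁻¹)) :=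
    ((hasSum_geometric_of_lt_one hr0.le hr1).mul_left r).mul_left _
  refine (h1.norm_le_of_bounded h2 fun m => ?_).trans ?_
  · rw [Complex.norm_exp]
    have h3 : (-(Real.pi * (((m + K : ℕ) : ℂ) + 1) ^ 2 * x * z) : ℂ).re = -(β * ((m:ℝ) + K + 1) ^ 2) := by
      rw [show (-(Real.pi * (((m + K : ℕ) : ℂ) + 1) ^ 2 * x * z) : ℂ) =
        ((-(Real.pi * ((m:ℝ) + K + 1) ^ 2 * x) : ℝ) : ℂ) * z by push_cast; ring, Complex.re_ofReal_mul, hβd]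
      ring
    have h4 : r * r ^ m = Real.exp (-(c * ((m:ℝ) + 1))) := by
      rw [hrd, ← pow_succ', ← Real.exp_nat_mul]
      congr 1
      push_cast
      ring
    rw [h3, h4, ← Real.exp_add, Real.exp_le_exp, hcd]
    have hm : (0:ℝ) ≤ m := Nat.cast_nonneg m
    have h5 : 0 ≤ β * ((m:ℝ) + 1) ^ 2 := by positivity
    nlinarith
  · have h6 : r * (1 - r)⁻¹ ≤ 1 / c := by
      have h7 := Real.add_one_le_exp c
      have h8 : r * Real.exp c = 1 := by rw [hrd, ← Real.exp_add]; simp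
      rw [← div_eq_mul_inv, div_le_div_iff₀ (by linarith) hc]
      nlinarith
    calc Real.exp (-(β * (K:ℝ) ^ 2)) * (r * (1 - r)⁻¹) ≤ Real.exp (-(β * (K:ℝ) ^ 2)) * (1 / c) :=
        mul_le_mul_of_nonneg_left h6 (Real.exp_pos _).le
      _ = _ := by ring

end Pool.Agent.Helper57.DS
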